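import Pool.Agent.Lib.MP_5c7eee_an.Space

/-!
MP_5c7eee_an: the chain of levels. All sign vectors are functions `ℕ → ℕ → ℕ → ℝ`:
`u n h j` (private vectors of level `n`, `h < M n`, `j < N n`), `v n k j` (out-part of the linking
block `L n`, `k < L n`, `j < N n`), `z n k j` (in-part of the linking block `L n`, it lives in level
`n + 1`: `k < L n`, `j < N (n + 1)`).
-/

namespace HUC

/-- The data of the chain space. `a` = linking weights, `b` = private weights, `c` = coherence,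
`τu`, `τl` = column bounds of the private and of the linking blocks, `η`, `w` = rigidity. -/
structure Chain where
  (a b c η τu τl : ℕ → ℝ)
  (N M L w : ℕ → ℕ)
  (u v z : ℕ → ℕ → ℕ → ℝ)
  su : ∀ n h j, u n h j = 1 ∨ u n h j = -1
  sv : ∀ n k j, v n k j = 1 ∨ v n k j = -1
  sz : ∀ n k j, z n k j = 1 ∨ z n k j = -1
  -- coherence at level `n`
  cuu : ∀ n h h', h < M n → h' < M n → h ≠ h' →
    |∑ j : Fin (N n), u n h j * u n h' j| ≤ c n * N n
  cvv : ∀ n k k', k < L n → k' < L n → k ≠ k' →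
    |∑ j : Fin (N n), v n k j * v n k' j| ≤ c n * N n
  cuv : ∀ n h k, h < M n → k < L n →
    |∑ j : Fin (N n), u n h j * v n k j| ≤ c n * N n
  -- coherence at level `n + 1` with the in-part
  czz : ∀ n k k', k < L n → k' < L n → k ≠ k' →
    |∑ j : Fin (N (n + 1)), z n k j * z n k' j| ≤ c (n + 1) * N (n + 1)
  cuz : ∀ n h k, h < M (n + 1) → k < L n →
    |∑ j : Fin (N (n + 1)), u (n + 1) h j * z n k j| ≤ c (n + 1) * N (n + 1)
  cvz : ∀ n k k', k < L (n + 1) → k' < L n →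
    |∑ j : Fin (N (n + 1)), v (n + 1) k j * z n k' j| ≤ c (n + 1) * N (n + 1)
  -- columns
  colu : ∀ n i j, i < N n → j < N n → i ≠ j → |∑ h : Fin (M n), u n h i * u n h j| ≤ τu n * M n
  colv : ∀ n i j, i < N n → j < N n → i ≠ j → |∑ k : Fin (L n), v n k i * v n k j| ≤ τl n * L n
  colz : ∀ n i j, i < N (n + 1) → j < N (n + 1) → i ≠ j →
    |∑ k : Fin (L n), z n k i * z n k j| ≤ τl n * L n
  colvz : ∀ n i j, i < N n → j < N (n + 1) → |∑ k : Fin (L n), v n k i * z n k j| ≤ τl n * L n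
  -- rigidity
  rigid : ∀ n, Rigid (N n) (M n) (fun h j => u n h j) (b n) (η n) (w n)
  -- parameters
  hN : ∀ n, 1 ≤ N n
  hM : ∀ n, 1 ≤ M n
  hL : ∀ n, 1 ≤ L n
  hNN : ∀ n, N n ≤ N (n + 1)
  hMM : ∀ n, M n ≤ M (n + 1)
  ha : ∀ n, 2 ≤ a n
  ha2 : ∀ n, 2 * a n ≤ a (n + 1)
  hab : ∀ n, a n ^ 3 ≤ b n
  hba : ∀ n, b n ≤ a (n + 1)
  hbN : ∀ n, b n ≤ √(N n)
  hc0 : ∀ n, 0 < c n
  hbc : ∀ n, b n * c n ≤ 1
  hca : ∀ n, √(c n) ≤ 1 / a n ^ 2
  hη0 : ∀ n, 0 < η n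
  hηa : ∀ n, η n ≤ 1 / a n ^ 2
  hcη : ∀ n, c n ≤ η n ^ 2 / 2
  hfar : ∀ n, 2 * b (n + 1) ^ 2 * c (n + 1) * (1 + √(M n)) ^ 2 ≤ 1
  hMc : ∀ n, 16 * (N n : ℝ) ≤ c n * M n
  hw : ∀ n, b n * w n / (η n ^ 2 * M n) ≤ 1 / a n ^ 2
  hτu0 : ∀ n, 0 ≤ τu n
  hτu : ∀ n, (N n : ℝ) * τu n ≤ 1 / (4 * a n ^ 2)
  hτl0 : ∀ n, 0 ≤ τl n
  hτl : ∀ n, (N (n + 1) : ℝ) * τl n ≤ 1 / (4 * a n)

namespace Chain

variable (D : Chain)

/-- The functionals: `inl (n, h)` is the private functional `b_n f_h`, `inr (n, k)` is the linking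
functional `a_n (f_k + g_k)`. -/
noncomputable def phi : (ℕ × ℕ) ⊕ (ℕ × ℕ) → ℕ × ℕ → ℝ
  | Sum.inl (n, h), (m, j) => if m = n ∧ h < D.M n ∧ j < D.N n then D.b n * D.u n h j / √(D.N n) else 0
  | Sum.inr (n, k), (m, j) =>
      if m = n ∧ k < D.L n ∧ j < D.N n then D.a n * D.v n k j / √(D.N n)
      else if m = n + 1 ∧ k < D.L n ∧ j < D.N (n + 1) then D.a n * D.z n k j / √(D.N (n + 1))
      else 0

theorem phi_inl (n h m j : ℕ) : D.phi (Sum.inl (n, h)) (m, j) =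
    if m = n ∧ h < D.M n ∧ j < D.N n then D.b n * D.u n h j / √(D.N n) else 0 := rfl

theorem phi_inr (n k m j : ℕ) : D.phi (Sum.inr (n, k)) (m, j) =
    if m = n ∧ k < D.L n ∧ j < D.N n then D.a n * D.v n k j / √(D.N n)
      else if m = n + 1 ∧ k < D.L n ∧ j < D.N (n + 1) then D.a n * D.z n k j / √(D.N (n + 1))
      else 0 := rfl

theorem phi_fin (j : ℕ × ℕ) : {i | D.phi i j ≠ 0}.Finite := by
  obtain ⟨m, j⟩ := j
  refine Set.Finite.subset (s := (Sum.inl '' (({m} : Set ℕ) ×ˢ Set.Iio (D.M m))) ∪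
    ((Sum.inr '' (({m} : Set ℕ) ×ˢ Set.Iio (D.L m))) ∪
      (Sum.inr '' (({m - 1} : Set ℕ) ×ˢ Set.Iio (D.L (m - 1)))))) ?_ ?_
  · refine Set.Finite.union ?_ (Set.Finite.union ?_ ?_)
    · exact (Set.Finite.prod (Set.finite_singleton _) (Set.finite_Iio _)).image _
    · exact (Set.Finite.prod (Set.finite_singleton _) (Set.finite_Iio _)).image _
    · exact (Set.Finite.prod (Set.finite_singleton _) (Set.finite_Iio _)).image _
  · rintro (⟨n, h⟩ | ⟨n, k⟩) hi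
    · left
      have hi' : D.phi (Sum.inl (n, h)) (m, j) ≠ 0 := hi
      by_cases h1 : m = n ∧ h < D.M n ∧ j < D.N n
      · obtain ⟨rfl, h2, -⟩ := h1
        exact ⟨(m, h), ⟨rfl, h2⟩, rfl⟩
      · exact absurd (by rw [phi_inl, if_neg h1]) hi'
    · right
      have hi' : D.phi (Sum.inr (n, k)) (m, j) ≠ 0 := hi
      by_cases h1 : m = n ∧ k < D.L n ∧ j < D.N n
      · left
        obtain ⟨rfl, h2, -⟩ := h1
        exact ⟨(m, k), ⟨rfl, h2⟩, rfl⟩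
      · right
        by_cases h2 : m = n + 1 ∧ k < D.L n ∧ j < D.N (n + 1)
        · obtain ⟨rfl, h3, -⟩ := h2
          exact ⟨(n, k), ⟨by simp, by simpa using h3⟩, rfl⟩
        · exact absurd (by rw [phi_inr, if_neg h1, if_neg h2]) hi'

/-- The family of functionals of the chain. -/
noncomputable def fam : Fam (ℕ × ℕ) ((ℕ × ℕ) ⊕ (ℕ × ℕ)) where
  φ := D.phi
  fin := D.phi_fin

/-- The Banach space of the chain. -/
abbrev E : Type := D.fam.X

end Chain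

/-- The normalised trace `λ(A) = (1/N) ∑_j ⟨e_{d j}, A e_{d j}⟩`. -/
noncomputable def Fam.lam {ι I : Type} (S : Fam ι I) {N : ℕ} (d : Fin N → ι)
    (A : S.X →L[ℂ] S.X) : ℂ :=
  (∑ j, S.coord (d j) (A (S.J (Finsupp.single (d j) 1)))) / N

/-- The normalised trace on level `n` of the chain. -/
noncomputable def Chain.lam (D : Chain) (n : ℕ) (A : D.fam.X →L[ℂ] D.fam.X) : ℂ :=
  D.fam.lam (fun j : Fin (D.N n) => (n, (j : ℕ))) A

end HUC
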