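import Pool.Agent.Lib.MP_5c7eee_an.SpaceNorm

/-!
MP_5c7eee_an: the diagonal coefficients of a compact operator tend to zero.
-/

open scoped ENNReal

namespace HUC

variable {ι I : Type} (S : Fam ι I)

namespace Fam

/-- Only finitely many coordinates of a vector of `X` are at least `δ` in modulus. -/
theorem finite_coord_ge (x : S.X) {δ : ℝ} (hδ : 0 < δ) : {j : ι | δ ≤ ‖S.coord j x‖}.Finite := by
  by_contra hinf
  have hinf' : {j : ι | δ ≤ ‖S.coord j x‖}.Infinite := hinf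
  obtain ⟨n, hn⟩ := exists_nat_gt (‖x‖ ^ 2 / δ ^ 2)
  obtain ⟨F, hF1, hF2⟩ := hinf'.exists_subset_card_eq n
  have h1 : (n : ℝ) * δ ^ 2 ≤ ∑ j ∈ F, ‖S.coord j x‖ ^ 2 := by
    have h2 : ∑ _j ∈ F, δ ^ 2 ≤ ∑ j ∈ F, ‖S.coord j x‖ ^ 2 := by
      refine Finset.sum_le_sum fun j hj => ?_
      have h3 : δ ≤ ‖S.coord j x‖ := hF1 hj
      gcongr
    rwa [Finset.sum_const, hF2, nsmul_eq_mul] at h2
  have h4 := S.sum_coord_sq_le x F
  rw [div_lt_iff₀ (by positivity)] at hn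
  linarith

/-- For a compact operator `A` on `X` only finitely many unit vectors `e_j` with `‖e_j‖ ≤ 1` have
`|⟨e_j, A e_j⟩| ≥ ε`: the `A e_j` stay in a compact set, on which `coord j → 0` uniformly, because
`∑_j |coord j x|² ≤ ‖x‖²`. -/
theorem compact_diag (A : S.X →L[ℂ] S.X) (hA : IsCompactOperator A) {ε : ℝ} (hε : 0 < ε) :
    {j : ι | ‖S.J (Finsupp.single j 1)‖ ≤ 1 ∧
      ε ≤ ‖S.coord j (A (S.J (Finsupp.single j 1)))‖}.Finite := by
  obtain ⟨K, hK, hAK⟩ := IsCompactOperator.image_closedBall_subset_compact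
    (f := (A : S.X →ₗ[ℂ] S.X)) hA 1
  obtain ⟨t, ht, hKt⟩ := Metric.totallyBounded_iff.1 hK.totallyBounded (ε / 2) (half_pos hε)
  refine Set.Finite.subset (ht.biUnion fun x _ => S.finite_coord_ge x (half_pos hε)) ?_
  rintro j ⟨hj1, hj2⟩
  have h1 : A (S.J (Finsupp.single j 1)) ∈ K := by
    apply hAK
    exact ⟨_, by simpa using hj1, rfl⟩
  obtain ⟨x, hx, hjx⟩ := Set.mem_iUnion₂.1 (hKt h1)
  refine Set.mem_iUnion₂.2 ⟨x, hx, ?_⟩
  have h2 : ‖S.coord j (A (S.J (Finsupp.single j 1)) - x)‖ < ε / 2 :=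
    (S.norm_coord_le j _).trans_lt (by simpa [dist_eq_norm] using hjx)
  rw [map_sub] at h2
  have h3 := norm_sub_norm_le (S.coord j (A (S.J (Finsupp.single j 1)))) (S.coord j x)
  show ε / 2 ≤ ‖S.coord j x‖
  linarith

end Fam

end HUC
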