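import Mathlib

/-!
MP_5c7eee_an: definitions for the space `X` whose compact operators are not H-unital.
-/

open scoped ENNReal

namespace HUC

/-- A family of functionals on finitely supported vectors, `φ i` for `i : I`, such that every
coordinate is seen by finitely many of them. -/
structure Fam (ι I : Type) where
  φ : I → ι → ℝ
  fin : ∀ j, {i | φ i j ≠ 0}.Finite

/-- The ambient space `ℓ₂(ι) × ℓ_∞(I)` with the maximum norm. -/
abbrev Amb (ι I : Type) : Type := (lp (fun _ : ι => ℂ) 2) × (lp (fun _ : I => ℂ) ∞)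

variable {ι I : Type} (S : Fam ι I)

namespace Fam

/-- The value of the `i`-th functional on a finitely supported vector. -/
noncomputable def ev (i : I) (c : ι →₀ ℂ) : ℂ := c.sum fun j x => (S.φ i j : ℂ) * x

/-- The points `(c, (ev i c)_i)` of the ambient space, `c` finitely supported. -/
noncomputable def base : Submodule ℂ (Amb ι I) where
  carrier := {p | ∃ c : ι →₀ ℂ, (∀ j, p.1 j = c j) ∧ ∀ i, p.2 i = S.ev i c}
  add_mem' := by
    rintro p q ⟨c, hc1, hc2⟩ ⟨d, hd1, hd2⟩
    refine ⟨c + d, fun j => ?_, fun i => ?_⟩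
    · simp [hc1 j, hd1 j]
    · have h : S.ev i (c + d) = S.ev i c + S.ev i d := by
        unfold ev
        exact Finsupp.sum_add_index' (fun _ => by simp) (fun _ _ _ => by ring)
      simp [hc2 i, hd2 i, h]
  zero_mem' := ⟨0, fun j => by simp, fun i => by simp [ev]⟩
  smul_mem' := by
    rintro r p ⟨c, hc1, hc2⟩
    refine ⟨r • c, fun j => ?_, fun i => ?_⟩
    · simp [hc1 j]
    · have h : S.ev i (r • c) = r * S.ev i c := by
        unfold ev
        rw [Finsupp.sum_smul_index' (fun _ => by simp), Finsupp.mul_sum]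
        exact Finsupp.sum_congr fun _ _ => by simp only [smul_eq_mul]; ring
      simp [hc2 i, h]

/-- The Banach space `X`: the closure of the finitely supported vectors in the norm
`max (‖c‖₂, sup_i |ev i c|)`. -/
noncomputable def X : Submodule ℂ (Amb ι I) := S.base.topologicalClosure

end Fam

/-- Rigidity of the sign vectors `u h` (`h < M`) in dimension `N`. -/
def Rigid (N M : ℕ) (u : Fin M → Fin N → ℝ) (β η : ℝ) (w : ℕ) : Prop :=
  ∀ g : Fin N → Fin N → ℝ,
    (∀ x : Fin N → ℝ, ∑ i, (∑ j, g i j * x j) ^ 2 ≤ β ^ 2 * ∑ j, x j ^ 2) →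
    (∀ h k : Fin w → Fin M, Function.Injective h → Function.Injective k → (∀ s t, h s ≠ k t) →
      ∃ s, |∑ i, ∑ j, u (k s) i * g i j * u (h s) j| < η * N) ∧
    (∀ h : Fin w → Fin M, Function.Injective h →
      ∃ s, |∑ i, ∑ j, u (h s) i * g i j * u (h s) j - ∑ i, g i i| < η * N)

end HUC
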