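import Pool.Agent.Lib.MP_5c7eee_an.Chain

/-!
MP_5c7eee_an: the low and the far functionals of the chain, seen from level `n`.
-/

namespace HUC

namespace Chain

variable (D : Chain)

/-- The functionals which only see levels `> n`. -/
def Far (n : ℕ) : (ℕ × ℕ) ⊕ (ℕ × ℕ) → Prop
  | Sum.inl (m, _) => n < m
  | Sum.inr (m, _) => n < m

/-- The functionals of the levels `< n` and the linking blocks `L_0, …, L_n`. -/
def Low (n : ℕ) : (ℕ × ℕ) ⊕ (ℕ × ℕ) → Prop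
  | Sum.inl (m, _) => m < n
  | Sum.inr (m, _) => m ≤ n

/-- the first level seen by a functional -/
private def FOlev : (ℕ × ℕ) ⊕ (ℕ × ℕ) → ℕ
  | Sum.inl (m, _) => m
  | Sum.inr (m, _) => m

/-- `i` sees level `m` through the sign vector `s` with the weight `α` -/
private def FOsees (m : ℕ) (i : (ℕ × ℕ) ⊕ (ℕ × ℕ)) (s : ℕ → ℝ) (α : ℝ) : Prop :=
  (∃ h, i = Sum.inl (m, h) ∧ h < D.M m ∧ s = D.u m h ∧ α = D.b m) ∨
  (∃ k, i = Sum.inr (m, k) ∧ k < D.L m ∧ s = D.v m k ∧ α = D.a m) ∨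
  (∃ p k, m = p + 1 ∧ i = Sum.inr (p, k) ∧ k < D.L p ∧ s = D.z p k ∧ α = D.a p)

private theorem FO_cases (m : ℕ) (i : (ℕ × ℕ) ⊕ (ℕ × ℕ)) :
    (∀ j, D.fam.φ i (m, j) = 0) ∨ ∃ s α, FOsees D m i s α ∧
      ∀ j, j < D.N m → D.fam.φ i (m, j) = α * s j / √(D.N m) := by
  rcases i with ⟨n, h⟩ | ⟨n, k⟩
  · by_cases hm : m = n ∧ h < D.M n
    · obtain ⟨rfl, hh⟩ := hm
      refine Or.inr ⟨D.u m h, D.b m, Or.inl ⟨h, rfl, hh, rfl, rfl⟩, fun j hj => ?_⟩
      exact if_pos ⟨rfl, hh, hj⟩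
    · refine Or.inl fun j => ?_
      exact if_neg fun h' => hm ⟨h'.1, h'.2.1⟩
  · by_cases hm : m = n ∧ k < D.L n
    · obtain ⟨rfl, hk⟩ := hm
      refine Or.inr ⟨D.v m k, D.a m, Or.inr (Or.inl ⟨k, rfl, hk, rfl, rfl⟩), fun j hj => ?_⟩
      exact if_pos ⟨rfl, hk, hj⟩
    · by_cases hm' : m = n + 1 ∧ k < D.L n
      · obtain ⟨rfl, hk⟩ := hm'
        refine Or.inr ⟨D.z n k, D.a n, Or.inr (Or.inr ⟨n, k, rfl, rfl, hk, rfl, rfl⟩),
          fun j hj => ?_⟩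
        have e : D.fam.φ (Sum.inr (n, k)) (n + 1, j) = _ := phi_inr D n k (n + 1) j
        rw [e, if_neg fun h' => hm ⟨h'.1, h'.2.1⟩, if_pos ⟨rfl, hk, hj⟩]
      · refine Or.inl fun j => ?_
        have e : D.fam.φ (Sum.inr (n, k)) (m, j) = _ := phi_inr D n k m j
        rw [e, if_neg fun h' => hm ⟨h'.1, h'.2.1⟩, if_neg fun h' => hm' ⟨h'.1, h'.2.1⟩]

private theorem FO_out (m : ℕ) (i : (ℕ × ℕ) ⊕ (ℕ × ℕ)) (j : ℕ) (hj : D.N m ≤ j) :
    D.fam.φ i (m, j) = 0 := by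
  rcases i with ⟨n, h⟩ | ⟨n, k⟩
  · have e : D.fam.φ (Sum.inl (n, h)) (m, j) = _ := phi_inl D n h m j
    rw [e, if_neg]
    rintro ⟨rfl, _, h3⟩
    omega
  · have e : D.fam.φ (Sum.inr (n, k)) (m, j) = _ := phi_inr D n k m j
    rw [e, if_neg, if_neg]
    · rintro ⟨rfl, _, h3⟩
      omega
    · rintro ⟨rfl, _, h3⟩
      omega

private theorem FO_lev (m : ℕ) (i : (ℕ × ℕ) ⊕ (ℕ × ℕ)) (h1 : m ≠ FOlev i)
    (h2 : m ≠ FOlev i + 1) (j : ℕ) : D.fam.φ i (m, j) = 0 := by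
  rcases i with ⟨n, h⟩ | ⟨n, k⟩
  · exact if_neg fun h' => h1 h'.1
  · have e : D.fam.φ (Sum.inr (n, k)) (m, j) = _ := phi_inr D n k m j
    rw [e, if_neg fun h' => h1 h'.1, if_neg fun h' => h2 h'.1]

private theorem FO_a_mono : Monotone D.a := monotone_nat_of_le_succ fun n => by
  have h1 := D.ha n
  have h2 := D.ha2 n
  linarith

private theorem FO_M_mono : Monotone D.M := monotone_nat_of_le_succ D.hMM

private theorem FO_ab (m : ℕ) : D.a m ≤ D.b m := by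
  have h1 := D.ha m
  have h2 := D.hab m
  have h3 : D.a m ≤ D.a m ^ 3 := by
    nlinarith [mul_nonneg (by linarith : 0 ≤ D.a m) (by nlinarith : 0 ≤ D.a m ^ 2 - 1)]
  linarith

private theorem FO_sign {m : ℕ} {i : (ℕ × ℕ) ⊕ (ℕ × ℕ)} {s : ℕ → ℝ} {α : ℝ}
    (h : FOsees D m i s α) (j : ℕ) : s j ^ 2 = 1 := by
  have key : ∀ x : ℝ, x = 1 ∨ x = -1 → x ^ 2 = 1 := by
    rintro x (rfl | rfl) <;> norm_num
  rcases h with ⟨h, -, -, rfl, -⟩ | ⟨k, -, -, rfl, -⟩ | ⟨p, k, -, -, -, rfl, -⟩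
  · exact key _ (D.su _ _ _)
  · exact key _ (D.sv _ _ _)
  · exact key _ (D.sz _ _ _)

private theorem FO_weight {m : ℕ} {i : (ℕ × ℕ) ⊕ (ℕ × ℕ)} {s : ℕ → ℝ} {α : ℝ}
    (h : FOsees D m i s α) : 1 ≤ α ∧ α ≤ D.b m := by
  rcases h with ⟨h, -, -, -, rfl⟩ | ⟨k, -, -, -, rfl⟩ | ⟨p, k, rfl, -, -, -, rfl⟩
  · have h1 := FO_ab D m
    have h2 := D.ha m
    exact ⟨by linarith, le_rfl⟩
  · have h2 := D.ha m
    exact ⟨by linarith, FO_ab D m⟩
  · have h2 := D.ha p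
    have h3 := D.ha2 p
    have h4 := FO_ab D (p + 1)
    exact ⟨by linarith, by linarith⟩

private theorem FO_coh {m : ℕ} {i i' : (ℕ × ℕ) ⊕ (ℕ × ℕ)} {s s' : ℕ → ℝ} {α α' : ℝ}
    (h : FOsees D m i s α) (h' : FOsees D m i' s' α') (hne : i ≠ i') :
    |∑ j : Fin (D.N m), s j * s' j| ≤ D.c m * D.N m := by
  rcases h with ⟨h, rfl, hh, rfl, -⟩ | ⟨k, rfl, hk, rfl, -⟩ | ⟨p, k, rfl, rfl, hk, rfl, -⟩
  · rcases h' with ⟨h', rfl, hh', rfl, -⟩ | ⟨k', rfl, hk', rfl, -⟩ | ⟨p', k', hp, rfl, hk', rfl, -⟩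
    · exact D.cuu m h h' hh hh' fun e => hne (by rw [e])
    · exact D.cuv m h k' hh hk'
    · subst hp
      exact D.cuz p' h k' hh hk'
  · rcases h' with ⟨h', rfl, hh', rfl, -⟩ | ⟨k', rfl, hk', rfl, -⟩ | ⟨p', k', hp, rfl, hk', rfl, -⟩
    · have e := D.cuv m h' k hh' hk
      simpa only [mul_comm] using e
    · exact D.cvv m k k' hk hk' fun e => hne (by rw [e])
    · subst hp
      exact D.cvz p' k k' hk hk'
  · rcases h' with ⟨h', rfl, hh', rfl, -⟩ | ⟨k', rfl, hk', rfl, -⟩ | ⟨p', k', hp, rfl, hk', rfl, -⟩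
    · have e := D.cuz p h' k hh' hk
      simpa only [mul_comm] using e
    · have e := D.cvz p k' k hk' hk
      simpa only [mul_comm] using e
    · obtain rfl : p = p' := by omega
      exact D.czz p k k' hk hk' fun e => hne (by rw [e])

private theorem FO_N (m : ℕ) : (0 : ℝ) < D.N m := by
  have := D.hN m
  exact_mod_cast this

/-- the square sum on one level -/
private theorem FO_sq {m : ℕ} {i : (ℕ × ℕ) ⊕ (ℕ × ℕ)} {s : ℕ → ℝ} {α : ℝ}
    (h : FOsees D m i s α) (hφ : ∀ j, j < D.N m → D.fam.φ i (m, j) = α * s j / √(D.N m)) :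
    ∑ j ∈ Finset.range (D.N m), D.fam.φ i (m, j) ^ 2 = α ^ 2 := by
  have hN := FO_N D m
  have h1 : ∀ j ∈ Finset.range (D.N m), D.fam.φ i (m, j) ^ 2 = α ^ 2 / D.N m := by
    intro j hj
    rw [hφ j (Finset.mem_range.1 hj), div_pow, mul_pow, FO_sign D h j, mul_one,
      Real.sq_sqrt hN.le]
  rw [Finset.sum_congr rfl h1, Finset.sum_const, Finset.card_range, nsmul_eq_mul]
  field_simp

/-- the inner product on one level -/
private theorem FO_inner (m : ℕ) (i i' : (ℕ × ℕ) ⊕ (ℕ × ℕ)) (hne : i ≠ i') :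
    |∑ j ∈ Finset.range (D.N m), D.fam.φ i (m, j) * D.fam.φ i' (m, j)| ≤ D.b m ^ 2 * D.c m := by
  have hc := D.hc0 m
  have h0 : 0 ≤ D.b m ^ 2 * D.c m := mul_nonneg (sq_nonneg _) hc.le
  rcases FO_cases D m i with hi | ⟨s, α, hs, hφ⟩
  · rw [Finset.sum_eq_zero fun j _ => by rw [hi j, zero_mul], abs_zero]
    exact h0
  rcases FO_cases D m i' with hi' | ⟨s', α', hs', hφ'⟩
  · rw [Finset.sum_eq_zero fun j _ => by rw [hi' j, mul_zero], abs_zero]
    exact h0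
  have hN := FO_N D m
  obtain ⟨ha1, ha2⟩ := FO_weight D hs
  obtain ⟨hb1, hb2⟩ := FO_weight D hs'
  have h1 : ∑ j ∈ Finset.range (D.N m), D.fam.φ i (m, j) * D.fam.φ i' (m, j) =
      α * α' / D.N m * ∑ j : Fin (D.N m), s j * s' j := by
    rw [Finset.sum_range, Finset.mul_sum]
    refine Finset.sum_congr rfl fun j _ => ?_
    rw [hφ j j.2, hφ' j j.2]
    have e : √(D.N m : ℝ) * √(D.N m : ℝ) = D.N m := Real.mul_self_sqrt hN.le
    have e0 : √(D.N m : ℝ) ≠ 0 := (Real.sqrt_pos.2 hN).ne'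
    rw [div_mul_div_comm, e]
    ring
  rw [h1, abs_mul]
  have h2 := FO_coh D hs hs' hne
  have h3 : |α * α' / D.N m| = α * α' / D.N m := abs_of_nonneg (by positivity)
  have h4 : α * α' ≤ D.b m ^ 2 := by
    rw [sq]
    exact mul_le_mul ha2 hb2 (by linarith) (by linarith)
  calc |α * α' / D.N m| * |∑ j : Fin (D.N m), s j * s' j|
      ≤ α * α' / D.N m * (D.c m * D.N m) := by
        rw [h3]
        exact mul_le_mul_of_nonneg_left h2 (by positivity)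
    _ = α * α' * D.c m := by field_simp
    _ ≤ D.b m ^ 2 * D.c m := mul_le_mul_of_nonneg_right h4 hc.le

/-- a sum over a set which contains the levels `≤ K` and no other seen coordinate -/
private theorem FO_split (F : Finset (ℕ × ℕ)) (g : ℕ × ℕ → ℝ) (l : ℕ)
    (hg : ∀ m j, m ≠ l → m ≠ l + 1 → g (m, j) = 0) (hg' : ∀ m j, D.N m ≤ j → g (m, j) = 0) (K : ℕ)
    (hF : ∀ p ∈ F, p.1 ≤ K) (hF' : ∀ m j, m ≤ K → j < D.N m → (m, j) ∈ F) :
    ∑ p ∈ F, g p = ∑ m ∈ ({l, l + 1} : Finset ℕ) with m ≤ K,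
      ∑ j ∈ Finset.range (D.N m), g (m, j) := by
  have h1 : ∑ m ∈ ({l, l + 1} : Finset ℕ) with m ≤ K, ∑ j ∈ Finset.range (D.N m), g (m, j) =
      ∑ p ∈ (({l, l + 1} : Finset ℕ).filter fun m => m ≤ K).sigma
        fun m => Finset.range (D.N m), g (p.1, p.2) :=
    (Finset.sum_sigma (({l, l + 1} : Finset ℕ).filter fun m => m ≤ K)
      (fun m => Finset.range (D.N m)) fun p => g (p.1, p.2)).symm
  rw [h1]
  symm
  refine Finset.sum_of_injOn (fun p => (p.1, p.2)) ?_ ?_ ?_ ?_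
  · rintro ⟨m, j⟩ _ ⟨m', j'⟩ _ h
    simp only [Prod.mk.injEq] at h
    obtain ⟨rfl, rfl⟩ := h
    rfl
  · rintro ⟨m, j⟩ h
    simp only [Finset.coe_sigma, Set.mem_sigma_iff, Finset.coe_filter, Set.mem_ofPred_eq,
      Finset.coe_range, Set.mem_Iio] at h
    exact hF' m j h.1.2 h.2
  · rintro ⟨m, j⟩ h hn
    by_contra hne
    apply hn
    refine ⟨⟨m, j⟩, ?_, rfl⟩
    simp only [Finset.coe_sigma, Set.mem_sigma_iff, Finset.coe_filter, Set.mem_ofPred_eq,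
      Finset.coe_range, Set.mem_Iio, Finset.mem_insert, Finset.mem_singleton]
    refine ⟨⟨?_, hF _ h⟩, ?_⟩
    · by_contra h'
      push Not at h'
      exact hne (hg m j h'.1 h'.2)
    · by_contra h'
      exact hne (hg' m j (not_lt.1 h'))
  · rintro ⟨m, j⟩ _
    rfl

/-- an exhausting family -/
private theorem FO_exh (F₀ : Finset (ℕ × ℕ)) : ∃ (F : Finset (ℕ × ℕ)) (K : ℕ), F₀ ⊆ F ∧
    (∀ p ∈ F, p.1 ≤ K) ∧ ∀ m j, m ≤ K → j < D.N m → (m, j) ∈ F := by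
  classical
  refine ⟨F₀ ∪ ((Finset.range (F₀.sup Prod.fst + 1)).sigma fun m => Finset.range (D.N m)).image
    fun p => (p.1, p.2), F₀.sup Prod.fst, Finset.subset_union_left, ?_, ?_⟩
  · intro p hp
    rcases Finset.mem_union.1 hp with hp | hp
    · exact Finset.le_sup (f := Prod.fst) hp
    · obtain ⟨⟨m, j⟩, hq, rfl⟩ := Finset.mem_image.1 hp
      simp only [Finset.mem_sigma, Finset.mem_range] at hq
      simp only
      omega
  · intro m j hm hj
    refine Finset.mem_union_right _ (Finset.mem_image.2 ⟨⟨m, j⟩, ?_, rfl⟩)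
    simp only [Finset.mem_sigma, Finset.mem_range]
    exact ⟨by omega, hj⟩

private theorem FO_card (l K : ℕ) :
    ((({l, l + 1} : Finset ℕ).filter fun m => m ≤ K).card : ℝ) ≤ 2 := by
  have h1 : (({l, l + 1} : Finset ℕ).filter fun m => m ≤ K).card ≤ 2 :=
    (Finset.card_filter_le _ _).trans (Finset.card_le_two)
  exact_mod_cast h1

/-- Low functionals have Hilbert norm at most `2 a_n`. -/
theorem low_norm (n : ℕ) (i) (hi : Low n i) (F : Finset (ℕ × ℕ)) :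
    ∑ j ∈ F, D.fam.φ i j ^ 2 ≤ (2 * D.a n) ^ 2 := by
  obtain ⟨F', K, h1, h2, h3⟩ := FO_exh D F
  refine (Finset.sum_le_sum_of_subset_of_nonneg h1 fun _ _ _ => sq_nonneg _).trans ?_
  rw [FO_split D F' (fun p => D.fam.φ i p ^ 2) (FOlev i)
    (fun m j h h' => by rw [FO_lev D m i h h' j]; norm_num)
    (fun m j h => by rw [FO_out D m i j h]; norm_num) K h2 h3]
  have ha := D.ha n
  have h4 : ∀ m, ∑ j ∈ Finset.range (D.N m), D.fam.φ i (m, j) ^ 2 ≤ D.a n ^ 2 := by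
    intro m
    rcases FO_cases D m i with h0 | ⟨s, α, hs, hφ⟩
    · rw [Finset.sum_eq_zero fun j _ => by rw [h0 j]; norm_num]
      positivity
    · rw [FO_sq D hs hφ]
      have h5 := (FO_weight D hs).1
      have h6 : α ≤ D.a n := by
        rcases hs with ⟨h, rfl, -, -, rfl⟩ | ⟨k, rfl, -, -, rfl⟩ | ⟨p, k, rfl, rfl, -, -, rfl⟩
        · have hm : m + 1 ≤ n := hi
          exact (D.hba m).trans (FO_a_mono D hm)
        · exact FO_a_mono D hi
        · exact FO_a_mono D hi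
      exact pow_le_pow_left₀ (by linarith) h6 2
  refine (Finset.sum_le_card_nsmul _ _ _ fun m _ => h4 m).trans ?_
  rw [nsmul_eq_mul]
  have h5 := FO_card (FOlev i) K
  have h6 : (((({FOlev i, FOlev i + 1} : Finset ℕ).filter fun m => m ≤ K).card : ℝ)) * D.a n ^ 2 ≤
      2 * D.a n ^ 2 := mul_le_mul_of_nonneg_right h5 (sq_nonneg _)
  nlinarith [sq_nonneg (D.a n)]

/-- Far functionals vanish on level `n`. -/
theorem far_zero (n : ℕ) (i) (hi : Far n i) (j : ℕ) : D.fam.φ i (n, j) = 0 := by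
  rcases i with ⟨m, h⟩ | ⟨m, k⟩
  · have hm : n < m := hi
    exact FO_lev D n _ (by simp only [FOlev]; omega) (by simp only [FOlev]; omega) j
  · have hm : n < m := hi
    exact FO_lev D n _ (by simp only [FOlev]; omega) (by simp only [FOlev]; omega) j

/-- Near orthogonality of the far functionals, along an exhausting family of finite sets. -/
theorem far_orth (n : ℕ) (F₀ : Finset (ℕ × ℕ)) : ∃ F : Finset (ℕ × ℕ), F₀ ⊆ F ∧
    (∀ i i', Far n i → Far n i' → i ≠ i' →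
      |∑ j ∈ F, D.fam.φ i j * D.fam.φ i' j| ≤ 1 / (1 + √(D.M n)) ^ 2) ∧
    (∀ i, Far n i → (∃ j ∈ F, D.fam.φ i j ≠ 0) → 1 ≤ ∑ j ∈ F, D.fam.φ i j ^ 2) := by
  obtain ⟨F, K, h1, h2, h3⟩ := FO_exh D F₀
  refine ⟨F, h1, fun i i' hi _ hne => ?_, ?_⟩
  · rw [FO_split D F (fun p => D.fam.φ i p * D.fam.φ i' p) (FOlev i)
      (fun m j h h' => by rw [FO_lev D m i h h' j, zero_mul])
      (fun m j h => by rw [FO_out D m i j h, zero_mul]) K h2 h3]
    have hl : n < FOlev i := by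
      rcases i with ⟨m, h⟩ | ⟨m, k⟩ <;> exact hi
    have hM : 0 < (1 + √(D.M n)) ^ 2 := by positivity
    have h4 : ∀ m ∈ ({FOlev i, FOlev i + 1} : Finset ℕ).filter fun m => m ≤ K,
        |∑ j ∈ Finset.range (D.N m), D.fam.φ i (m, j) * D.fam.φ i' (m, j)| ≤
          1 / (1 + √(D.M n)) ^ 2 / 2 := by
      intro m hm
      have hm' : n < m := by
        have := (Finset.mem_filter.1 hm).1
        simp only [Finset.mem_insert, Finset.mem_singleton] at this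
        omega
      refine (FO_inner D m i i' hne).trans ?_
      obtain ⟨p, rfl⟩ : ∃ p, m = p + 1 := ⟨m - 1, by omega⟩
      have h5 := D.hfar p
      have h6 : √(D.M n : ℝ) ≤ √(D.M p : ℝ) :=
        Real.sqrt_le_sqrt (by exact_mod_cast FO_M_mono D (by omega : n ≤ p))
      have h7 : (1 + √(D.M n : ℝ)) ^ 2 ≤ (1 + √(D.M p : ℝ)) ^ 2 :=
        pow_le_pow_left₀ (by positivity) (by linarith) 2
      have h8 : 0 ≤ 2 * D.b (p + 1) ^ 2 * D.c (p + 1) := by
        have := D.hc0 (p + 1)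
        positivity
      have h9 : 2 * D.b (p + 1) ^ 2 * D.c (p + 1) * (1 + √(D.M n : ℝ)) ^ 2 ≤ 1 :=
        (mul_le_mul_of_nonneg_left h7 h8).trans h5
      rw [div_div, le_div_iff₀ (by positivity)]
      linarith
    refine (Finset.abs_sum_le_sum_abs _ _).trans ((Finset.sum_le_card_nsmul _ _ _ h4).trans ?_)
    rw [nsmul_eq_mul]
    have h5 := FO_card (FOlev i) K
    have h6 : 0 ≤ 1 / (1 + √(D.M n : ℝ)) ^ 2 / 2 := by positivity
    have h7 := mul_le_mul_of_nonneg_right h5 h6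
    linarith
  · rintro i hi ⟨⟨m, j⟩, hj, hne⟩
    rcases FO_cases D m i with h0 | ⟨s, α, hs, hφ⟩
    · exact absurd (h0 j) hne
    · have h4 := FO_sq D hs hφ
      have h5 := (FO_weight D hs).1
      have h6 : ∑ j ∈ Finset.range (D.N m), D.fam.φ i (m, j) ^ 2 ≤ ∑ j ∈ F, D.fam.φ i j ^ 2 := by
        have h7 : ∑ j ∈ Finset.range (D.N m), D.fam.φ i (m, j) ^ 2 =
            ∑ p ∈ (Finset.range (D.N m)).map ⟨fun j => (m, j), fun a b h => by
              simpa using h⟩, D.fam.φ i p ^ 2 := by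
          rw [Finset.sum_map]
          rfl
        rw [h7]
        refine Finset.sum_le_sum_of_subset_of_nonneg ?_ fun _ _ _ => sq_nonneg _
        intro p hp
        obtain ⟨j', hj', rfl⟩ := Finset.mem_map.1 hp
        exact h3 m j' (h2 _ hj) (Finset.mem_range.1 hj')
      rw [h4] at h6
      nlinarith

end Chain

end HUC
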