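import Pool.Agent.Lib.MP_5c7eee_an.Main
import Pool.Agent.Lib.MP_5c7eee_an.Neg.End

/-!
MP_5c7eee_an: a Banach space `X` such that neither `K(X)` nor `F(X)` is H-unital.
-/

open Filter Topology Pool.Agent.BarCx

namespace HUC

namespace Chain

variable (D : Chain)

theorem a_ge (n : ℕ) : (n : ℝ) + 1 ≤ D.a n := by
  induction n with
  | zero => have := D.ha 0; simp; linarith
  | succ n ih =>
    have h1 := D.ha2 n
    have h2 := D.ha n
    push_cast
    linarith

theorem a_tendsto : Tendsto D.a atTop atTop := by
  refine tendsto_atTop_mono D.a_ge ?_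
  exact tendsto_atTop_add_const_right _ _ tendsto_natCast_atTop_atTop

/-- `λ_n` as a continuous linear functional on the bounded operators. -/
noncomputable def lamL (n : ℕ) : (D.fam.X →L[ℂ] D.fam.X) →L[ℂ] ℂ :=
  LinearMap.mkContinuous
    { toFun := fun A => D.lam n A
      map_add' := fun A B => by
        simp only [Chain.lam, Fam.lam, add_apply, map_add,
          Finset.sum_add_distrib, add_div]
      map_smul' := fun r A => by
        simp only [Chain.lam, Fam.lam, smul_apply, map_smul, smul_eq_mul,
          ← Finset.mul_sum, RingHom.id_apply, mul_div_assoc] } 1 (fun A => by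
        rw [one_mul]
        show ‖D.lam n A‖ ≤ ‖A‖
        have hN : (0 : ℝ) < D.N n := by
          have := D.hN n
          exact_mod_cast this
        unfold Chain.lam Fam.lam
        rw [norm_div, Complex.norm_natCast, div_le_iff₀ hN]
        calc ‖∑ j : Fin (D.N n), D.fam.coord (n, (j : ℕ)) (A (D.fam.J (Finsupp.single (n, (j : ℕ)) 1)))‖
            ≤ ∑ j : Fin (D.N n),
                ‖D.fam.coord (n, (j : ℕ)) (A (D.fam.J (Finsupp.single (n, (j : ℕ)) 1)))‖ :=
              norm_sum_le _ _
          _ ≤ ∑ j : Fin (D.N n), ‖A‖ := by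
              refine Finset.sum_le_sum fun j _ => ?_
              refine (D.fam.norm_coord_le _ _).trans ?_
              refine (A.le_opNorm _).trans ?_
              have := D.norm_single_le n j j.2
              have h0 := norm_nonneg A
              nlinarith
          _ = ‖A‖ * D.N n := by
              rw [Finset.sum_const, Finset.card_univ, Fintype.card_fin, nsmul_eq_mul]
              ring)

theorem lamL_apply (n : ℕ) (A : D.fam.X →L[ℂ] D.fam.X) : D.lamL n A = D.lam n A := rfl

/-- Some approximable operator on the chain space is not in the span of the products of two compact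
operators. -/
theorem exists_not_mem_span : ∃ T : D.fam.X →L[ℂ] D.fam.X, T ∈ opApprox D.fam.X ∧
    T ∉ Submodule.span ℂ (HUN.cptProds D.fam.X) := by
  have hc : CompleteSpace D.fam.X := D.fam.completeX
  choose T hT1 hT2 hT3 using D.exists_T
  refine HUN.exists_not_mem_span (W := D.fam.X) D.lamL D.a D.a_tendsto T hT1 hT2 hT3 ?_
  intro A B hA hB
  refine ⟨300000 * ‖A‖ * ‖B‖, fun n => ?_⟩
  have h1 := D.lam_mul_compact_le n A B hA hB
  have h2 := D.a_pos n
  rw [lamL_apply]
  rw [le_div_iff₀ (by positivity)] at h1
  linarith [mul_comm (‖D.lam n (A * B)‖) (D.a n ^ 2)]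

end Chain

/-- There is a complex Banach space `E` such that some approximable operator on `E` is not a linear
combination of products of two compact operators; neither `K(E)` nor `F(E)` is H-unital. -/
theorem final : ∃ (E : Type) (_ : NormedAddCommGroup E) (_ : NormedSpace ℂ E)
    (_ : CompleteSpace E),
    (∃ T : E →L[ℂ] E, T ∈ opApprox E ∧ T ∉ Submodule.span ℂ (HUN.cptProds E)) ∧
      ¬ CompactHUnital E ∧ ¬ ApproxHUnital E := by
  obtain ⟨D⟩ := exists_chain
  have hc : CompleteSpace D.fam.X := D.fam.completeX
  obtain ⟨T, h1, h2⟩ := D.exists_not_mem_span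
  exact ⟨D.fam.X, inferInstance, inferInstance, hc, ⟨T, h1, h2⟩, HUN.not_hunital h1 h2⟩

end HUC
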