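import Pool.Agent.Lib.MP_5c7eee_an.Space

/-!
MP_5c7eee_an: representation of the functionals of `X` (Hahn-Banach in the ambient space).
-/

open scoped ENNReal

namespace HUC

variable {ι I : Type} (S : Fam ι I)

namespace Fam

/-- Value of a functional of the ambient space on a finitely supported pair. -/
private theorem amb_apply_sum [DecidableEq ι] [DecidableEq I] (Ψ : Amb ι I →L[ℂ] ℂ)
    (F : Finset ι) (G : Finset I) (α : ι → ℂ) (β : I → ℂ) :
    Ψ (∑ j ∈ F, lp.single (E := fun _ : ι => ℂ) 2 j (α j),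
        ∑ i ∈ G, lp.single (E := fun _ : I => ℂ) ∞ i (β i))
      = ∑ j ∈ F, Ψ (lp.single (E := fun _ : ι => ℂ) 2 j 1, 0) * α j
        + ∑ i ∈ G, Ψ (0, lp.single (E := fun _ : I => ℂ) ∞ i 1) * β i := by
  have h1 : (∑ j ∈ F, lp.single (E := fun _ : ι => ℂ) 2 j (α j),
        ∑ i ∈ G, lp.single (E := fun _ : I => ℂ) ∞ i (β i))
      = (∑ j ∈ F, α j • ((lp.single (E := fun _ : ι => ℂ) 2 j 1, 0) : Amb ι I))
        + ∑ i ∈ G, β i • ((0, lp.single (E := fun _ : I => ℂ) ∞ i 1) : Amb ι I) := by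
    refine Prod.ext ?_ ?_
    · rw [Prod.fst_add, Prod.fst_sum, Prod.fst_sum]
      simp only [Prod.smul_fst, smul_zero, Finset.sum_const_zero, add_zero]
      refine Finset.sum_congr rfl fun j _ => ?_
      rw [← lp.single_smul, smul_eq_mul, mul_one]
    · rw [Prod.snd_add, Prod.snd_sum, Prod.snd_sum]
      simp only [Prod.smul_snd, smul_zero, Finset.sum_const_zero, zero_add]
      refine Finset.sum_congr rfl fun j _ => ?_
      rw [← lp.single_smul, smul_eq_mul, mul_one]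
  rw [h1, map_add, map_sum, map_sum]
  congr 1
  · refine Finset.sum_congr rfl fun j _ => ?_
    rw [map_smul, smul_eq_mul, mul_comm]
  · refine Finset.sum_congr rfl fun j _ => ?_
    rw [map_smul, smul_eq_mul, mul_comm]

private theorem norm_single_sum_two [DecidableEq ι] (F : Finset ι) (α : ι → ℂ)
    (h : ∑ j ∈ F, ‖α j‖ ^ 2 ≤ 1) :
    ‖∑ j ∈ F, lp.single (E := fun _ : ι => ℂ) 2 j (α j)‖ ≤ 1 := by
  have h1 := lp.norm_sum_single (E := fun _ : ι => ℂ) (p := 2) (by norm_num) α F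
  simp only [ENNReal.toReal_ofNat, Real.rpow_ofNat] at h1
  have h2 : ‖∑ j ∈ F, lp.single (E := fun _ : ι => ℂ) 2 j (α j)‖ ^ 2 ≤ 1 := h1.trans_le h
  nlinarith [norm_nonneg (∑ j ∈ F, lp.single (E := fun _ : ι => ℂ) 2 j (α j))]

private theorem norm_single_sum_top [DecidableEq I] (G : Finset I) (β : I → ℂ)
    (h : ∀ i, ‖β i‖ ≤ 1) :
    ‖∑ i ∈ G, lp.single (E := fun _ : I => ℂ) ∞ i (β i)‖ ≤ 1 := by
  refine lp.norm_le_of_forall_le zero_le_one fun i => ?_
  rw [lp.coeFn_sum, Finset.sum_apply]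
  simp only [lp.coeFn_single]
  rw [Finset.sum_pi_single]
  split_ifs
  · exact h i
  · rw [norm_zero]; exact zero_le_one

/-- Every functional of norm at most one on `X` is `x + ∑ ν_i ev_i` with `‖x‖₂ + ∑ |ν_i| ≤ 1`.
Proof: `exists_extension_norm_eq` gives an extension `Ψ` to `Amb ι I`; put
`x j = Ψ (e_j, 0)` and `ν i = Ψ (0, e_i)`. -/
theorem hahn_banach (ψ : S.X →L[ℂ] ℂ) (hψ : ‖ψ‖ ≤ 1) :
    ∃ (x : ι → ℂ) (ν : I → ℂ),
      (∀ (F : Finset ι) (G : Finset I), √(∑ j ∈ F, ‖x j‖ ^ 2) + ∑ i ∈ G, ‖ν i‖ ≤ 1) ∧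
      ∀ (c : ι →₀ ℂ) (F : Finset ι) (G : Finset I), c.support ⊆ F →
        (∀ i, i ∉ G → S.ev i c = 0) →
        ψ (S.J c) = ∑ j ∈ F, x j * c j + ∑ i ∈ G, ν i * S.ev i c := by
  classical
  obtain ⟨Ψ, hΨ, hn⟩ := exists_extension_norm_eq S.X ψ
  have hΨ1 : ‖Ψ‖ ≤ 1 := hn.trans_le hψ
  refine ⟨fun j => Ψ (lp.single (E := fun _ : ι => ℂ) 2 j 1, 0),
    fun i => Ψ (0, lp.single (E := fun _ : I => ℂ) ∞ i 1), ?_, ?_⟩
  · intro F G
    set x : ι → ℂ := fun j => Ψ (lp.single (E := fun _ : ι => ℂ) 2 j 1, 0) with hx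
    set ν : I → ℂ := fun i => Ψ (0, lp.single (E := fun _ : I => ℂ) ∞ i 1) with hν
    set s : ℝ := √(∑ j ∈ F, ‖x j‖ ^ 2) with hs
    have hs0 : 0 ≤ s := Real.sqrt_nonneg _
    have hss : s ^ 2 = ∑ j ∈ F, ‖x j‖ ^ 2 :=
      Real.sq_sqrt (Finset.sum_nonneg fun j _ => by positivity)
    set α : ι → ℂ := fun j => (starRingEnd ℂ) (x j) / (s : ℂ) with hα
    set β : I → ℂ := fun i => (starRingEnd ℂ) (ν i) / (‖ν i‖ : ℂ) with hβ
    have hα1 : ∑ j ∈ F, ‖α j‖ ^ 2 ≤ 1 := by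
      have : ∀ j, ‖α j‖ ^ 2 = ‖x j‖ ^ 2 / s ^ 2 := by
        intro j
        simp only [hα]
        rw [norm_div, RCLike.norm_conj, Complex.norm_real, Real.norm_eq_abs, abs_of_nonneg hs0,
          div_pow]
      rw [Finset.sum_congr rfl fun j _ => this j, ← Finset.sum_div, ← hss]
      exact div_self_le_one _
    have hβ1 : ∀ i, ‖β i‖ ≤ 1 := by
      intro i
      simp only [hβ]
      rw [norm_div, RCLike.norm_conj, Complex.norm_real, norm_norm]
      exact div_self_le_one _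
    have h1 := amb_apply_sum Ψ F G α β
    have h2 : ∑ j ∈ F, Ψ (lp.single (E := fun _ : ι => ℂ) 2 j 1, 0) * α j = (s : ℂ) := by
      have h3 : ∀ j, Ψ (lp.single (E := fun _ : ι => ℂ) 2 j 1, 0) * α j
          = ((‖x j‖ ^ 2 / s : ℝ) : ℂ) := by
        intro j
        change x j * ((starRingEnd ℂ) (x j) / (s : ℂ)) = _
        rw [← mul_div_assoc, Complex.mul_conj']
        push_cast
        rfl
      rw [Finset.sum_congr rfl fun j _ => h3 j, ← Complex.ofReal_sum, ← Finset.sum_div, ← hss]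
      congr 1
      rcases hs0.eq_or_lt with h | h
      · rw [← h]; simp
      · field_simp
    have h4 : ∑ i ∈ G, Ψ (0, lp.single (E := fun _ : I => ℂ) ∞ i 1) * β i
        = ((∑ i ∈ G, ‖ν i‖ : ℝ) : ℂ) := by
      rw [Complex.ofReal_sum]
      refine Finset.sum_congr rfl fun i _ => ?_
      change ν i * ((starRingEnd ℂ) (ν i) / (‖ν i‖ : ℂ)) = _
      rw [← mul_div_assoc, Complex.mul_conj']
      by_cases h : ν i = 0
      · rw [h]; simp
      · have : (‖ν i‖ : ℂ) ≠ 0 := by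
          rw [Ne, Complex.ofReal_eq_zero, norm_eq_zero]; exact h
        field_simp
    rw [h2, h4] at h1
    have h5 : ‖(∑ j ∈ F, lp.single (E := fun _ : ι => ℂ) 2 j (α j),
        ∑ i ∈ G, lp.single (E := fun _ : I => ℂ) ∞ i (β i))‖ ≤ 1 := by
      rw [Prod.norm_def]
      exact max_le (norm_single_sum_two F α hα1) (norm_single_sum_top G β hβ1)
    have h6 : ‖(s : ℂ) + ((∑ i ∈ G, ‖ν i‖ : ℝ) : ℂ)‖ ≤ 1 := by
      rw [← h1]
      calc _ ≤ ‖Ψ‖ * ‖(∑ j ∈ F, lp.single (E := fun _ : ι => ℂ) 2 j (α j),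
          ∑ i ∈ G, lp.single (E := fun _ : I => ℂ) ∞ i (β i))‖ := Ψ.le_opNorm _
        _ ≤ 1 * 1 := by gcongr
        _ = 1 := one_mul 1
    rw [← Complex.ofReal_add, Complex.norm_real, Real.norm_eq_abs] at h6
    exact (le_abs_self _).trans h6
  · intro c F G hF hG
    rw [← hΨ (S.J c)]
    have h1 : ((S.J c : S.X) : Amb ι I)
        = (∑ j ∈ F, lp.single (E := fun _ : ι => ℂ) 2 j (c j),
          ∑ i ∈ G, lp.single (E := fun _ : I => ℂ) ∞ i (S.ev i c)) := by
      refine Prod.ext ?_ ?_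
      · apply lp.ext
        funext j
        rw [lp.coeFn_sum, Finset.sum_apply]
        simp only [lp.coeFn_single]
        rw [Finset.sum_pi_single, J_fst]
        split_ifs with h
        · rfl
        · by_contra h2
          exact h (hF (Finsupp.mem_support_iff.2 h2))
      · apply lp.ext
        funext i
        rw [lp.coeFn_sum, Finset.sum_apply]
        simp only [lp.coeFn_single]
        rw [Finset.sum_pi_single, J_snd]
        split_ifs with h
        · rfl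
        · exact hG i h
    rw [h1, amb_apply_sum]

end Fam

end HUC
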