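import Pool.Agent.Lib.MP_5c7eee_an.SpaceNorm
import Pool.Agent.Lib.MP_5c7eee_an.Chain
import Pool.Agent.Lib.MP_5c7eee_an.Neg.MainFin

/-!
MP_5c7eee_an: the main estimate (section 3 of the paper proof), for a general family.
-/

namespace HUC

open Finset

private theorem rigid_conv {N M w : ℕ} (hN : 1 ≤ N) (u : Fin M → Fin N → ℝ) {β η : ℝ}
    (h : Rigid N M u β η w) : HUN.Rigid (fun h a => u h a / √(N : ℝ)) w η β := by
  intro g hg
  obtain ⟨h1, h2⟩ := h g hg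
  have hN0 : (0 : ℝ) < N := by exact_mod_cast hN
  have hs : √(N : ℝ) * √(N : ℝ) = N := Real.mul_self_sqrt hN0.le
  have hs0 : 0 < √(N : ℝ) := Real.sqrt_pos.2 hN0
  have hqr : ∀ k h, HUN.qr (fun h a => u h a / √(N : ℝ)) g k h =
      (∑ i, ∑ j, u k i * g i j * u h j) / N := by
    intro k h
    unfold HUN.qr
    rw [Finset.sum_div]
    refine sum_congr rfl fun a _ => ?_
    rw [Finset.sum_div]
    refine sum_congr rfl fun a' _ => ?_
    have h3 : u k a / √(N : ℝ) * g a a' * (u h a' / √(N : ℝ)) =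
        (u k a * g a a' * u h a') / (√(N : ℝ) * √(N : ℝ)) := by
      field_simp
    rw [h3, hs]
  constructor
  · intro h k hinj
    obtain ⟨s, hs'⟩ := h1 h k (fun x y hxy => by
        have := @hinj (Sum.inl x) (Sum.inl y) (by simpa using hxy)
        simpa using this) (fun x y hxy => by
        have := @hinj (Sum.inr x) (Sum.inr y) (by simpa using hxy)
        simpa using this) (fun s t hst => by
        have := @hinj (Sum.inl s) (Sum.inr t) (by simpa using hst)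
        simp at this)
    refine ⟨s, ?_⟩
    rw [hqr, abs_div, abs_of_pos hN0, div_lt_iff₀ hN0]
    exact hs'
  · intro h hinj
    obtain ⟨s, hs'⟩ := h2 h hinj
    refine ⟨s, ?_⟩
    rw [hqr]
    unfold HUN.ntrR
    rw [Fintype.card_fin, ← sub_div, abs_div, abs_of_pos hN0, div_lt_iff₀ hN0]
    exact hs'

private theorem colbd_conv {N M : ℕ} (hN : 1 ≤ N) (hM : 1 ≤ M) (u : Fin M → Fin N → ℝ)
    (hu : ∀ h j, u h j = 1 ∨ u h j = -1) {τ : ℝ}
    (hcol : ∀ i j, i ≠ j → |∑ h, u h i * u h j| ≤ τ * M) :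
    HUN.ColBd (fun h a => u h a / √(N : ℝ)) τ := by
  have hN0 : (0 : ℝ) < N := by exact_mod_cast hN
  have hM0 : (0 : ℝ) < M := by exact_mod_cast hM
  have hs : √(N : ℝ) * √(N : ℝ) = N := Real.mul_self_sqrt hN0.le
  have hs0 : 0 < √(N : ℝ) := Real.sqrt_pos.2 hN0
  have hkey : ∀ i j, (∑ h, u h i / √(N : ℝ) * (u h j / √(N : ℝ))) = (∑ h, u h i * u h j) / N := by
    intro i j
    rw [Finset.sum_div]
    refine sum_congr rfl fun h _ => ?_
    have h3 : u h i / √(N : ℝ) * (u h j / √(N : ℝ)) =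
        (u h i * u h j) / (√(N : ℝ) * √(N : ℝ)) := by
      field_simp
    rw [h3, hs]
  constructor
  · intro i
    show (∑ h, u h i / √(N : ℝ) * (u h i / √(N : ℝ))) / _ = _
    rw [hkey]
    have : ∑ h, u h i * u h i = M := by
      have h1 : ∀ h, u h i * u h i = 1 := by
        intro h
        rcases hu h i with h1 | h1 <;> rw [h1] <;> norm_num
      simp [h1]
    rw [this]
    simp only [Fintype.card_fin]
    field_simp
  · intro i j hij
    show |(∑ h, u h i / √(N : ℝ) * (u h j / √(N : ℝ))) / _| ≤ _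
    rw [hkey]
    simp only [Fintype.card_fin]
    rw [abs_div, abs_div, abs_of_pos hN0, abs_of_pos hM0, div_div, div_le_div_iff₀ (by positivity) hN0]
    have := hcol i j hij
    nlinarith

/-- The finitely supported vector `∑ x_j e_{d j}`. -/
private noncomputable def vecD {ι : Type} {N : ℕ} (d : Fin N → ι) (x : Fin N → ℂ) : ι →₀ ℂ :=
  ∑ j, Finsupp.single (d j) (x j)

private theorem J_comb {ι I : Type} (S : Fam ι I) {N : ℕ} (C : Fin N → ι →₀ ℂ) (x : Fin N → ℂ) :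
    S.J (∑ a, x a • C a) = ∑ a, x a • S.J (C a) := by
  rw [map_sum]
  exact sum_congr rfl fun a _ => by rw [map_smul]

private theorem vecD_eq {ι : Type} {N : ℕ} (d : Fin N → ι) (x : Fin N → ℂ) :
    vecD d x = ∑ a, x a • Finsupp.single (d a) (1 : ℂ) := by
  unfold vecD
  exact sum_congr rfl fun a _ => by simp

/-- Approximation of `B` on the level by an exact contraction into the finitely supported
vectors. -/
private theorem exists_approx {ι I : Type} (S : Fam ι I) {N : ℕ} (hN : 1 ≤ N) (d : Fin N → ι)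
    {b c : ℝ} (hb : 1 ≤ b) (hc : 0 < c) (hc1 : c ≤ 1)
    (hnorm1 : ∀ j, ‖S.J (Finsupp.single (d j) 1)‖ ≤ 1)
    (hnormb : ∀ x : Fin N → ℂ,
      ‖S.J (∑ j, Finsupp.single (d j) (x j))‖ ≤ b * √(∑ j, ‖x j‖ ^ 2))
    (B : S.X →L[ℂ] S.X) (hB : ‖B‖ ≤ 1) :
    ∃ C : Fin N → ι →₀ ℂ, (∀ a, ‖S.J (C a)‖ ≤ 1) ∧
      (∀ x : Fin N → ℂ, ‖S.J (∑ a, x a • C a)‖ ≤ b * √(∑ j, ‖x j‖ ^ 2)) ∧
      ∀ a, ‖B (S.J (Finsupp.single (d a) 1)) - S.J (C a)‖ ≤ √c := by
  have hN0 : (1 : ℝ) ≤ N := by exact_mod_cast hN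
  have hsN : 1 ≤ √(N : ℝ) := Real.one_le_sqrt.2 hN0
  have hsc : 0 < √c := Real.sqrt_pos.2 hc
  have hsc1 : √c ≤ 1 := Real.sqrt_le_one.2 hc1
  set ε : ℝ := √c / (3 * √(N : ℝ)) with hε
  have hε0 : 0 < ε := by positivity
  have hεN : ε * √(N : ℝ) = √c / 3 := by
    rw [hε]
    field_simp
  have hε1 : ε ≤ ε * √(N : ℝ) := by nlinarith
  choose C hC using fun a => S.exists_J_near (B (S.J (Finsupp.single (d a) 1))) hε0
  set s : ℝ := 1 / (1 + ε * √(N : ℝ)) with hs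
  have hs0 : 0 < s := by positivity
  have hs1 : s * (1 + ε * √(N : ℝ)) = 1 := by
    rw [hs]
    field_simp
  have hsle : s ≤ 1 := by nlinarith [mul_pos hε0 (lt_of_lt_of_le one_pos hsN)]
  have hns : ‖(s : ℂ)‖ = s := by rw [Complex.norm_real, Real.norm_of_nonneg hs0.le]
  have hBe : ∀ a, ‖B (S.J (Finsupp.single (d a) 1))‖ ≤ 1 := fun a =>
    (B.le_opNorm _).trans (by
      have := hnorm1 a
      have h0 := norm_nonneg B
      nlinarith [norm_nonneg (S.J (Finsupp.single (d a) 1))])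
  have hJC : ∀ a, ‖S.J (C a)‖ ≤ 1 + ε := fun a => by
    have h1 : S.J (C a) = B (S.J (Finsupp.single (d a) 1)) -
        (B (S.J (Finsupp.single (d a) 1)) - S.J (C a)) := by abel
    rw [h1]
    exact (norm_sub_le _ _).trans (add_le_add (hBe a) (hC a).le)
  refine ⟨fun a => (s : ℂ) • C a, fun a => ?_, fun x => ?_, fun a => ?_⟩
  · rw [map_smul, norm_smul, hns]
    calc s * ‖S.J (C a)‖ ≤ s * (1 + ε * √(N : ℝ)) :=
          mul_le_mul_of_nonneg_left ((hJC a).trans (by linarith)) hs0.le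
      _ = 1 := hs1
  · have h1 : ∑ a, x a • (s : ℂ) • C a = (s : ℂ) • ∑ a, x a • C a := by
      rw [smul_sum]
      exact sum_congr rfl fun a _ => smul_comm _ _ _
    rw [h1, map_smul, norm_smul, hns]
    have h2 : S.J (∑ a, x a • C a) = B (S.J (vecD d x)) -
        ∑ a, x a • (B (S.J (Finsupp.single (d a) 1)) - S.J (C a)) := by
      rw [J_comb, vecD_eq, J_comb, map_sum]
      simp only [map_smul, smul_sub, sum_sub_distrib]
      abel
    have h3 : ‖B (S.J (vecD d x))‖ ≤ b * √(∑ j, ‖x j‖ ^ 2) := by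
      refine (B.le_opNorm _).trans ?_
      have h4 := hnormb x
      have h5 : ‖S.J (vecD d x)‖ ≤ b * √(∑ j, ‖x j‖ ^ 2) := h4
      nlinarith [norm_nonneg B, norm_nonneg (S.J (vecD d x))]
    have h6 : ‖∑ a, x a • (B (S.J (Finsupp.single (d a) 1)) - S.J (C a))‖ ≤
        ε * √(N : ℝ) * √(∑ j, ‖x j‖ ^ 2) := by
      calc ‖∑ a, x a • (B (S.J (Finsupp.single (d a) 1)) - S.J (C a))‖
          ≤ ∑ a, ‖x a‖ * ε := by
            refine (norm_sum_le _ _).trans (sum_le_sum fun a _ => ?_)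
            rw [norm_smul]
            exact mul_le_mul_of_nonneg_left (hC a).le (norm_nonneg _)
        _ = (∑ a, ‖x a‖ * 1) * ε := by rw [sum_mul]; simp
        _ ≤ (√(∑ a, ‖x a‖ ^ 2) * √(∑ _a : Fin N, (1 : ℝ) ^ 2)) * ε :=
            mul_le_mul_of_nonneg_right (Real.sum_mul_le_sqrt_mul_sqrt _ _ _) hε0.le
        _ = ε * √(N : ℝ) * √(∑ j, ‖x j‖ ^ 2) := by
            simp
            ring
    rw [h2]
    have h7 : 0 ≤ √(∑ j, ‖x j‖ ^ 2) := Real.sqrt_nonneg _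
    calc s * ‖B (S.J (vecD d x)) - ∑ a, x a • (B (S.J (Finsupp.single (d a) 1)) - S.J (C a))‖
        ≤ s * (b * √(∑ j, ‖x j‖ ^ 2) + ε * √(N : ℝ) * √(∑ j, ‖x j‖ ^ 2)) :=
          mul_le_mul_of_nonneg_left ((norm_sub_le _ _).trans (add_le_add h3 h6)) hs0.le
      _ ≤ s * (b * √(∑ j, ‖x j‖ ^ 2) + b * (ε * √(N : ℝ)) * √(∑ j, ‖x j‖ ^ 2)) := by
          refine mul_le_mul_of_nonneg_left ?_ hs0.le
          have h8 : 0 ≤ ε * √(N : ℝ) * √(∑ j, ‖x j‖ ^ 2) := by positivity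
          nlinarith
      _ = (s * (1 + ε * √(N : ℝ))) * (b * √(∑ j, ‖x j‖ ^ 2)) := by ring
      _ = b * √(∑ j, ‖x j‖ ^ 2) := by rw [hs1, one_mul]
  · rw [map_smul]
    have h1 : B (S.J (Finsupp.single (d a) 1)) - (s : ℂ) • S.J (C a) =
        (B (S.J (Finsupp.single (d a) 1)) - S.J (C a)) + ((1 - s : ℝ) : ℂ) • S.J (C a) := by
      push_cast
      module
    rw [h1]
    refine (norm_add_le _ _).trans ?_
    rw [norm_smul, Complex.norm_real, Real.norm_of_nonneg (by linarith)]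
    have h2 : 1 - s ≤ ε * √(N : ℝ) := by nlinarith [mul_pos hε0 (lt_of_lt_of_le one_pos hsN)]
    have h3 := hJC a
    have h4 := (hC a).le
    have h5 : (1 - s) * ‖S.J (C a)‖ ≤ (√c / 3) * (1 + ε) := by
      rw [← hεN]
      exact mul_le_mul h2 h3 (norm_nonneg _) (by positivity)
    have h6 : ε ≤ 1 / 3 := by rw [hεN] at hε1; linarith
    nlinarith

/-- MAIN ESTIMATE. `d` enumerates the coordinates of the level, `p` the private functionals. -/
theorem level_estimate {ι I : Type} (S : Fam ι I) {N M w : ℕ} (hN : 1 ≤ N) (hM : 1 ≤ M)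
    (d : Fin N → ι) (hd : Function.Injective d) (p : Fin M → I) (hp : Function.Injective p)
    (u : Fin M → Fin N → ℝ) (hu : ∀ h j, u h j = 1 ∨ u h j = -1)
    {b c τ η R γ : ℝ} (hb : 1 ≤ b) (hc : 0 < c) (hη : 0 < η) (hη1 : η ≤ 1) (hR : 1 ≤ R)
    (hRb : R ≤ b) (hτ0 : 0 ≤ τ) (hγ0 : 0 ≤ γ) (hcη : c ≤ η ^ 2 / 2) (hτ : N * τ ≤ 1 / 4)
    (hMc : 16 * (N : ℝ) ≤ c * M) (hγ : γ * (1 + √M) ^ 2 ≤ 1)
    (hpriv : ∀ h j, S.φ (p h) (d j) = b * u h j / √N)
    (hpriv0 : ∀ h j, j ∉ Set.range d → S.φ (p h) j = 0)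
    (low far : I → Prop) (hcase : ∀ i, (∃ h, p h = i) ∨ low i ∨ far i ∨ ∀ j, S.φ i j = 0)
    (hfarp : ∀ h, ¬ far (p h))
    (hlow : ∀ i, low i → ∀ F : Finset ι, ∑ j ∈ F, S.φ i j ^ 2 ≤ R ^ 2)
    (hfar0 : ∀ i, far i → ∀ j, S.φ i (d j) = 0)
    (hfar : ∀ F₀ : Finset ι, ∃ F : Finset ι, F₀ ⊆ F ∧
      (∀ i i', far i → far i' → i ≠ i' → |∑ j ∈ F, S.φ i j * S.φ i' j| ≤ γ) ∧
      (∀ i, far i → (∃ j ∈ F, S.φ i j ≠ 0) → 1 ≤ ∑ j ∈ F, S.φ i j ^ 2))
    (hcoh : ∀ h h', h ≠ h' → |∑ j, u h j * u h' j| ≤ c * N)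
    (hcol : ∀ i j, i ≠ j → |∑ h, u h i * u h j| ≤ τ * M)
    (hrig : Rigid N M u b η w)
    (hnorm1 : ∀ j, ‖S.J (Finsupp.single (d j) 1)‖ ≤ 1)
    (hnormb : ∀ x : Fin N → ℂ,
      ‖S.J (∑ j, Finsupp.single (d j) (x j))‖ ≤ b * √(∑ j, ‖x j‖ ^ 2))
    (A B : S.X →L[ℂ] S.X) (hA : ‖A‖ ≤ 1) (hB : ‖B‖ ≤ 1) {δ : ℝ}
    (hδ : δ = N * τ + 40 * R / b + 200 * √c + 8 * η + 200 * (b * w / (η ^ 2 * M))) :
    ‖S.lam d (A * B)‖ ≤ (‖S.lam d A‖ + δ) * (‖S.lam d B‖ + δ) + δ := by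
  classical
  have hN0 : (0 : ℝ) < N := by exact_mod_cast hN
  have hM0 : (0 : ℝ) < M := by exact_mod_cast hM
  have hsq : √(N : ℝ) * √(N : ℝ) = N := Real.mul_self_sqrt hN0.le
  have hs0 : 0 < √(N : ℝ) := Real.sqrt_pos.2 hN0
  have hη2 : η ^ 2 ≤ 1 := by nlinarith
  have hc1 : c ≤ 1 := by linarith
  have hsc : 0 < √c := Real.sqrt_pos.2 hc
  have hsc2 : √c * √c = c := Real.mul_self_sqrt hc.le
  have hsc1 : √c ≤ 1 := Real.sqrt_le_one.2 hc1
  have hcs : c ≤ √c := by nlinarith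
  have hb0 : 0 < b := by linarith
  obtain ⟨C, hC1, hC2, hC3⟩ := exists_approx S hN d hb hc hc1 hnorm1 hnormb B hB
  -- the finite set of coordinates
  obtain ⟨F, hF0, hF1, -⟩ := hfar ((univ : Finset (Fin N)).image d ∪ univ.biUnion fun a => (C a).support)
  have hdF : ∀ a, d a ∈ F := fun a => hF0 (mem_union_left _ (mem_image_of_mem _ (mem_univ a)))
  have hCF : ∀ a, (C a).support ⊆ F := fun a j hj =>
    hF0 (mem_union_right _ (mem_biUnion.2 ⟨a, mem_univ a, hj⟩))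
  -- the finite set of functionals
  have hGfin : {i | ∃ j ∈ F, S.φ i j ≠ 0}.Finite := by
    refine Set.Finite.subset (Set.Finite.biUnion F.finite_toSet fun j _ => S.fin j) ?_
    rintro i ⟨j, hj, hij⟩
    exact Set.mem_biUnion (Finset.mem_coe.2 hj) hij
  set G : Finset I := hGfin.toFinset with hG
  have hGmem : ∀ i, i ∉ G → ∀ j ∈ F, S.φ i j = 0 := by
    intro i hi j hj
    by_contra h
    exact hi (hGfin.mem_toFinset.2 ⟨j, hj, h⟩)
  let Il : Type := {i : I // i ∈ G.filter low}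
  let If : Type := {i : I // i ∈ G.filter far}
  let e : Fin N → F := fun a => ⟨d a, hdF a⟩
  have he : Function.Injective e := fun a a' h => hd (by simpa [e] using h)
  let f : Fin M → Fin N → ℝ := fun h a => u h a / √(N : ℝ)
  let vl : Il → F → ℝ := fun i j => S.φ i.1 j.1
  let vf : If → F → ℝ := fun i j => S.φ i.1 j.1
  let Am : Fin N → F → ℂ := fun a j => S.coord (d a) (A (S.J (Finsupp.single j.1 1)))
  let Bm : F → Fin N → ℂ := fun j a => C a j.1
  -- vectors supported on `F`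
  let vec : (F → ℂ) → ι →₀ ℂ := fun x => ∑ j, x j • Finsupp.single j.1 (1 : ℂ)
  have hvec : ∀ (x : F → ℂ) (j : F), vec x j.1 = x j := by
    intro x j
    simp only [vec, Finsupp.finsetSum_apply, Finsupp.smul_apply, smul_eq_mul]
    rw [Finset.sum_eq_single j]
    · simp
    · intro k _ hk
      rw [Finsupp.single_apply, if_neg (fun h => hk (Subtype.ext h))]
      simp
    · simp
  have hvec0 : ∀ (x : F → ℂ) (j : ι), j ∉ F → vec x j = 0 := by
    intro x j hj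
    simp only [vec, Finsupp.finsetSum_apply, Finsupp.smul_apply, smul_eq_mul]
    refine Finset.sum_eq_zero fun k _ => ?_
    rw [Finsupp.single_apply, if_neg (fun h => hj (by rw [← h]; exact k.2))]
    simp
  have hvecs : ∀ x : F → ℂ, (vec x).support ⊆ F := by
    intro x j hj
    by_contra h
    exact (Finsupp.mem_support_iff.1 hj) (hvec0 x j h)
  have hevvec : ∀ (i : I) (x : F → ℂ), S.ev i (vec x) = ∑ j : F, (S.φ i j.1 : ℂ) * x j := by
    intro i x
    rw [S.ev_eq_sum i (vec x) F (hvecs x), ← Finset.sum_coe_sort F]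
    exact sum_congr rfl fun j _ => by rw [hvec]
  have hvecC : ∀ a, vec (fun j => Bm j a) = C a := by
    intro a
    ext j
    by_cases hj : j ∈ F
    · exact hvec _ ⟨j, hj⟩
    · rw [hvec0 _ j hj]
      by_contra h
      exact hj (hCF a (Finsupp.mem_support_iff.2 (Ne.symm h)))
  have hAvec : ∀ (a : Fin N) (x : F → ℂ), ∑ j, Am a j * x j = S.coord (d a) (A (S.J (vec x))) := by
    intro a x
    simp only [vec, map_sum, map_smul, smul_eq_mul, Am]
    exact sum_congr rfl fun j _ => mul_comm _ _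
  -- private functionals
  have hprivev : ∀ (h : Fin M) (x : S.X), S.evX (p h) x = ∑ a, ((b * f h a : ℝ) : ℂ) * S.coord (d a) x := by
    intro h x
    rw [S.evX_eq_sum (p h) (univ.image d) (fun j hj => hpriv0 h j (by
      intro hj'
      obtain ⟨a, rfl⟩ := hj'
      exact hj (mem_image_of_mem _ (mem_univ a)))) x, Finset.sum_image (fun a _ a' _ h => hd h)]
    refine sum_congr rfl fun a _ => ?_
    rw [hpriv]
    simp only [f]
    congr 2
    ring
  have hnormB : ∀ x : Fin N → ℂ, ‖S.J (∑ a, x a • C a)‖ ≤ b * √(∑ j, ‖x j‖ ^ 2) := hC2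
  have hf1 : ∀ h, ∑ a, f h a ^ 2 = 1 := by
    intro h
    have h1 : ∀ a, f h a ^ 2 = 1 / N := by
      intro a
      simp only [f]
      rw [div_pow, Real.sq_sqrt hN0.le]
      rcases hu h a with h2 | h2 <;> rw [h2] <;> norm_num
    simp only [h1, sum_const, card_univ, Fintype.card_fin, nsmul_eq_mul]
    field_simp
  have hff : ∀ h k, ∑ a, f h a * f k a = (∑ a, u h a * u k a) / N := by
    intro h k
    rw [sum_div]
    refine sum_congr rfl fun a _ => ?_
    have h3 : u h a / √(N : ℝ) * (u k a / √(N : ℝ)) = (u h a * u k a) / (√(N : ℝ) * √(N : ℝ)) := by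
      field_simp
    simp only [f]
    rw [h3, hsq]
  have hfc : ∀ h k, h ≠ k → |∑ a, f h a * f k a| ≤ c := by
    intro h k hhk
    rw [hff, abs_div, abs_of_pos hN0, div_le_iff₀ hN0]
    exact hcoh h k hhk
  have h16 : 16 * (Fintype.card (Fin N) : ℝ) ≤ Fintype.card (Fin M) := by
    simp only [Fintype.card_fin]
    nlinarith
  have hvl : ∀ i : Il, ∑ j, vl i j ^ 2 ≤ R ^ 2 := by
    intro i
    have h1 := hlow i.1 (mem_filter.1 i.2).2 F
    rw [← Finset.sum_coe_sort F] at h1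
    exact h1
  have hvf0 : ∀ (i : If) (j : F), ¬ (∀ a, j ≠ e a) → vf i j = 0 := by
    intro i j hj
    push Not at hj
    obtain ⟨a, rfl⟩ := hj
    exact hfar0 i.1 (mem_filter.1 i.2).2 a
  have hvf : ∀ i i' : If, i ≠ i' → |∑ j, vf i j * vf i' j| ≤ γ := by
    intro i i' hii
    have h1 := hF1 i.1 i'.1 (mem_filter.1 i.2).2 (mem_filter.1 i'.2).2
      (fun h => hii (Subtype.ext h))
    rw [← Finset.sum_coe_sort F] at h1
    exact h1
  have hgM : γ * (1 + √(Fintype.card (Fin M) : ℝ)) ^ 2 ≤ 1 := by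
    simpa only [Fintype.card_fin] using hγ
  -- norm of `J (vec x)` from the finite data
  have hnormvec : ∀ (x : F → ℂ) (r : ℝ), 0 ≤ r → ∑ j, ‖x j‖ ^ 2 ≤ r ^ 2 →
      (∀ i : Il, ‖∑ j, (vl i j : ℂ) * x j‖ ≤ r) → (∀ i : If, ‖∑ j, (vf i j : ℂ) * x j‖ ≤ r) →
      (∀ k, ‖∑ a, ((b * f k a : ℝ) : ℂ) * x (e a)‖ ≤ r) → ‖S.J (vec x)‖ ≤ r := by
    intro x r hr h2 hl hf' hk
    refine S.norm_J_le hr F (hvecs x) ?_ ?_
    · rw [← Finset.sum_coe_sort F]
      refine le_trans (le_of_eq ?_) h2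
      exact sum_congr rfl fun j _ => by rw [hvec]
    · intro i
      by_cases hiG : i ∈ G
      · rcases hcase i with ⟨h, rfl⟩ | h | h | h
        · have h1 := hprivev h (S.J (vec x))
          rw [S.evX_J] at h1
          rw [h1]
          have h3 := hk h
          simp only [S.coord_J]
          refine le_trans (le_of_eq ?_) h3
          congr 1
          exact sum_congr rfl fun a _ => by
            rw [show vec x (d a) = x (e a) from hvec x (e a)]
        · rw [hevvec]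
          exact hl ⟨i, mem_filter.2 ⟨hiG, h⟩⟩
        · rw [hevvec]
          exact hf' ⟨i, mem_filter.2 ⟨hiG, h⟩⟩
        · rw [hevvec]
          simp [h, hr]
      · rw [hevvec]
        have h1 : ∀ j : F, (S.φ i j.1 : ℂ) * x j = 0 := fun j => by
          rw [hGmem i hiG j.1 j.2]
          simp
        simp [h1, hr]
  have hcA : ∀ x : S.X, ‖A x‖ ≤ ‖x‖ := fun x => (A.le_opNorm x).trans (by
    nlinarith [norm_nonneg x])
  have hcB : ∀ x : S.X, ‖B x‖ ≤ ‖x‖ := fun x => (B.le_opNorm x).trans (by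
    nlinarith [norm_nonneg x])
  have hAdom : ∀ (x : F → ℂ) (r : ℝ), 0 ≤ r → ∑ j, ‖x j‖ ^ 2 ≤ r ^ 2 →
      (∀ i : Il, ‖∑ j, (vl i j : ℂ) * x j‖ ≤ r) → (∀ i : If, ‖∑ j, (vf i j : ℂ) * x j‖ ≤ r) →
      (∀ k, ‖∑ a, ((b * f k a : ℝ) : ℂ) * x (e a)‖ ≤ r) →
      ∀ h, ‖∑ a, ((b * f h a : ℝ) : ℂ) * ∑ j, Am a j * x j‖ ≤ r := by
    intro x r hr h2 hl hf' hk h
    have h1 := hnormvec x r hr h2 hl hf' hk
    have h3 : ∑ a, ((b * f h a : ℝ) : ℂ) * ∑ j, Am a j * x j = S.evX (p h) (A (S.J (vec x))) := by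
      rw [hprivev]
      exact sum_congr rfl fun a _ => by rw [hAvec]
    rw [h3]
    exact (S.norm_evX_le _ _).trans ((hcA _).trans h1)
  -- vectors on the level
  have hsumd : ∀ x : S.X, ∑ a, ‖S.coord (d a) x‖ ^ 2 ≤ ‖x‖ ^ 2 := by
    intro x
    have h1 := S.sum_coord_sq_le x (univ.image d)
    rwa [Finset.sum_image (fun a _ a' _ h => hd h)] at h1
  have hA2 : ∀ v : Fin N → ℝ, ∑ a, ‖∑ a', Am a (e a') * (v a' : ℂ)‖ ^ 2 ≤ b ^ 2 * ∑ a, v a ^ 2 := by
    intro v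
    have h1 : ∀ a, ∑ a', Am a (e a') * (v a' : ℂ) =
        S.coord (d a) (A (S.J (∑ j, Finsupp.single (d j) (v j : ℂ)))) := by
      intro a
      rw [show (∑ j, Finsupp.single (d j) (v j : ℂ)) = vecD d (fun j => (v j : ℂ)) from rfl,
        vecD_eq, J_comb]
      simp only [map_sum, map_smul, smul_eq_mul, Am, e]
      exact sum_congr rfl fun j _ => mul_comm _ _
    simp only [h1]
    refine (hsumd _).trans ?_
    have h2 := (hcA _).trans (hnormb (fun j => (v j : ℂ)))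
    have h3 : ∑ j, ‖(v j : ℂ)‖ ^ 2 = ∑ j, v j ^ 2 :=
      sum_congr rfl fun j _ => by rw [Complex.norm_real, Real.norm_eq_abs, sq_abs]
    rw [h3] at h2
    calc ‖A (S.J (∑ j, Finsupp.single (d j) (v j : ℂ)))‖ ^ 2
        ≤ (b * √(∑ j, v j ^ 2)) ^ 2 := pow_le_pow_left₀ (norm_nonneg _) h2 2
      _ = b ^ 2 * ∑ a, v a ^ 2 := by
          rw [mul_pow, Real.sq_sqrt (sum_nonneg fun j _ => sq_nonneg _)]
  have hBcol : ∀ a, ∑ j, ‖Bm j a‖ ^ 2 ≤ 1 := by
    intro a
    have h1 := S.sum_coord_sq_le (S.J (C a)) F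
    rw [← Finset.sum_coe_sort F] at h1
    refine le_trans (le_of_eq ?_) (h1.trans ?_)
    · exact sum_congr rfl fun j _ => rfl
    · have := hC1 a
      nlinarith [norm_nonneg (S.J (C a))]
  have hcombd : ∀ (w' : Fin N → ℂ) (a : Fin N), ∑ a', Bm (e a) a' * w' a' =
      S.coord (d a) (S.J (∑ a', w' a' • C a')) := by
    intro w' a
    rw [J_comb]
    simp only [map_sum, map_smul, smul_eq_mul, S.coord_J, Bm, e]
    exact sum_congr rfl fun j _ => mul_comm _ _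
  have hB2 : ∀ v : Fin N → ℝ, ∑ a, ‖∑ a', Bm (e a) a' * (v a' : ℂ)‖ ^ 2 ≤
      b ^ 2 * ∑ a, v a ^ 2 := by
    intro v
    simp only [hcombd]
    refine (hsumd _).trans ?_
    have h2 := hC2 (fun j => (v j : ℂ))
    have h3 : ∑ j, ‖(v j : ℂ)‖ ^ 2 = ∑ j, v j ^ 2 :=
      sum_congr rfl fun j _ => by rw [Complex.norm_real, Real.norm_eq_abs, sq_abs]
    rw [h3] at h2
    calc ‖S.J (∑ a, (v a : ℂ) • C a)‖ ^ 2
        ≤ (b * √(∑ j, v j ^ 2)) ^ 2 := pow_le_pow_left₀ (norm_nonneg _) h2 2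
      _ = b ^ 2 * ∑ a, v a ^ 2 := by
          rw [mul_pow, Real.sq_sqrt (sum_nonneg fun j _ => sq_nonneg _)]
  have hBf : ∀ (i : If) (w' : Fin N → ℂ), ‖∑ j, (vf i j : ℂ) * ∑ a, Bm j a * w' a‖
      ≤ b * √(∑ a, ‖w' a‖ ^ 2) := by
    intro i w'
    have h1 : ∑ j, (vf i j : ℂ) * ∑ a, Bm j a * w' a = S.evX i.1 (S.J (∑ a, w' a • C a)) := by
      rw [S.evX_J, S.ev_eq_sum i.1 (∑ a, w' a • C a) F, ← Finset.sum_coe_sort F]
      · refine sum_congr rfl fun j _ => ?_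
        simp only [Finsupp.finsetSum_apply, Finsupp.smul_apply, smul_eq_mul, vf, Bm]
        congr 1
        exact sum_congr rfl fun a _ => mul_comm _ _
      · intro j hj
        by_contra h
        apply Finsupp.mem_support_iff.1 hj
        simp only [Finsupp.finsetSum_apply, Finsupp.smul_apply, smul_eq_mul]
        refine sum_eq_zero fun a _ => ?_
        rw [Finsupp.notMem_support_iff.1 (fun h' => h (hCF a h')), mul_zero]
    rw [h1]
    exact (S.norm_evX_le _ _).trans (hC2 w')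
  have hBrow : ∀ (k : Fin M) (v : Fin N → ℝ),
      ‖∑ a, ∑ a', (f k a : ℂ) * Bm (e a) a' * (v a' : ℂ)‖ ^ 2 ≤ ∑ a, v a ^ 2 := by
    intro k v
    have h1 : (b : ℂ) * ∑ a, ∑ a', (f k a : ℂ) * Bm (e a) a' * (v a' : ℂ) =
        S.evX (p k) (S.J (∑ a', (v a' : ℂ) • C a')) := by
      rw [hprivev, mul_sum]
      refine sum_congr rfl fun a _ => ?_
      rw [← hcombd, mul_sum, mul_sum]
      refine sum_congr rfl fun a' _ => ?_
      push_cast
      ring
    have h2 := (S.norm_evX_le (p k) (S.J (∑ a', (v a' : ℂ) • C a'))).trans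
      (hC2 (fun j => (v j : ℂ)))
    have h3 : ∑ j, ‖(v j : ℂ)‖ ^ 2 = ∑ j, v j ^ 2 :=
      sum_congr rfl fun j _ => by rw [Complex.norm_real, Real.norm_eq_abs, sq_abs]
    rw [h3, ← h1, norm_mul, Complex.norm_real, Real.norm_of_nonneg hb0.le] at h2
    have h4 : ‖∑ a, ∑ a', (f k a : ℂ) * Bm (e a) a' * (v a' : ℂ)‖ ≤ √(∑ j, v j ^ 2) :=
      le_of_mul_le_mul_left h2 hb0
    calc _ ≤ (√(∑ j, v j ^ 2)) ^ 2 := pow_le_pow_left₀ (norm_nonneg _) h4 2
      _ = _ := Real.sq_sqrt (sum_nonneg fun j _ => sq_nonneg _)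
  have hABe : ∀ a a', ∑ j, Am a j * Bm j a' = S.coord (d a) (A (S.J (C a'))) := by
    intro a a'
    rw [hAvec a (fun j => Bm j a'), hvecC]
  have hAB : ∀ a a', ‖∑ j, Am a j * Bm j a'‖ ≤ 1 := by
    intro a a'
    rw [hABe]
    exact (S.norm_coord_le _ _).trans ((hcA _).trans (hC1 a'))
  have key := HUN.main_fin (H := Fin M) (N := Fin N) (J := F) (Il := Il) (If := If) e he
    (fun j => ∀ a, j ≠ e a) (fun a h => h a rfl) f w c (√(2 * c)) η τ γ R b hc
    (Real.sqrt_pos.2 (by linarith)) (Real.sq_sqrt (by linarith)) hη hη1 hcη hb hR hτ0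
    (by simp only [Fintype.card_fin]; linarith) hf1 hfc (rigid_conv hN u hrig)
    (colbd_conv hN hM u hu hcol) h16 (by simpa using Nat.lt_of_lt_of_le Nat.zero_lt_one hM) vl hvl
    vf hvf0 hγ0 hvf hgM Am hAdom hA2 Bm hBcol hB2 hBf hBrow hAB
  have hl1 : HUN.ntr (fun a a' => Am a (e a')) = S.lam d A := by
    unfold HUN.ntr Fam.lam
    simp only [Am, e, Fintype.card_fin]
  have hdiff : ∀ D : S.X →L[ℂ] S.X, (∀ x, ‖D x‖ ≤ ‖x‖) →
      ‖(∑ a, S.coord (d a) (D (S.J (C a)))) / (N : ℂ) -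
        (∑ a, S.coord (d a) (D (B (S.J (Finsupp.single (d a) 1))))) / (N : ℂ)‖ ≤ √c := by
    intro D hD
    rw [← sub_div, ← sum_sub_distrib, norm_div, Complex.norm_natCast, div_le_iff₀ hN0]
    calc ‖∑ a, (S.coord (d a) (D (S.J (C a))) -
          S.coord (d a) (D (B (S.J (Finsupp.single (d a) 1)))))‖
        ≤ ∑ _a : Fin N, √c := by
          refine (norm_sum_le _ _).trans (sum_le_sum fun a _ => ?_)
          rw [← map_sub, ← map_sub]
          refine (S.norm_coord_le _ _).trans ((hD _).trans ?_)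
          rw [norm_sub_rev]
          exact hC3 a
      _ = √c * N := by simp [mul_comm]
  have hlB : ‖HUN.ntr (fun a a' => Bm (e a) a')‖ ≤ ‖S.lam d B‖ + √c := by
    have h1 := hdiff (ContinuousLinearMap.id ℂ S.X) (fun x => le_rfl)
    have h2 : HUN.ntr (fun a a' => Bm (e a) a') =
        (∑ a, S.coord (d a) ((ContinuousLinearMap.id ℂ S.X) (S.J (C a)))) / (N : ℂ) := by
      unfold HUN.ntr
      simp only [Fintype.card_fin, Bm, e, ContinuousLinearMap.id_apply, S.coord_J]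
    have h3 : S.lam d B = (∑ a, S.coord (d a) ((ContinuousLinearMap.id ℂ S.X)
        (B (S.J (Finsupp.single (d a) 1))))) / (N : ℂ) := by
      unfold Fam.lam
      simp only [ContinuousLinearMap.id_apply]
    rw [← h2, ← h3] at h1
    linarith [norm_sub_norm_le (HUN.ntr (fun a a' => Bm (e a) a')) (S.lam d B)]
  have hlAB : ‖S.lam d (A * B)‖ ≤ ‖HUN.ntr (fun a a' => ∑ j, Am a j * Bm j a')‖ + √c := by
    have h1 := hdiff A hcA
    have h2 : HUN.ntr (fun a a' => ∑ j, Am a j * Bm j a') =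
        (∑ a, S.coord (d a) (A (S.J (C a)))) / (N : ℂ) := by
      unfold HUN.ntr
      simp only [Fintype.card_fin, hABe]
    have h3 : S.lam d (A * B) = (∑ a, S.coord (d a) (A (B (S.J (Finsupp.single (d a) 1))))) /
        (N : ℂ) := rfl
    rw [← h2, ← h3, norm_sub_rev] at h1
    linarith [norm_sub_norm_le (S.lam d (A * B)) (HUN.ntr (fun a a' => ∑ j, Am a j * Bm j a'))]
  rw [hl1] at key
  simp only [Fintype.card_fin] at key
  refine hlAB.trans ?_
  have hA0 := norm_nonneg (S.lam d A)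
  have hB0 := norm_nonneg (S.lam d B)
  have ht : √(2 * c) ≤ 3 / 2 * √c := by
    rw [Real.sqrt_le_left (by positivity)]
    nlinarith
  set P := b * w / (η ^ 2 * M) with hP
  have hP0 : 0 ≤ P := by positivity
  have hw : 16 * (w : ℝ) / (η ^ 2 * M) ≤ 16 * P := by
    rw [hP, mul_div_assoc, ← mul_div_assoc]
    rw [show (16 : ℝ) * (b * w / (η ^ 2 * M)) = b * (16 * w / (η ^ 2 * M)) by ring]
    have : 0 ≤ 16 * (w : ℝ) / (η ^ 2 * M) := by positivity
    nlinarith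
  have hRb0 : 0 < R / b := by positivity
  have hTb : (64 * √(2 * c) * b + 5 * (R + 1)) / b ≤ 96 * √c + 10 * (R / b) := by
    rw [add_div, show 64 * √(2 * c) * b / b = 64 * √(2 * c) by field_simp]
    have : 5 * (R + 1) / b ≤ 10 * (R / b) := by
      rw [← mul_div_assoc]
      exact div_le_div_of_nonneg_right (by linarith) hb0.le
    linarith
  have hNτ : 0 ≤ N * τ := by positivity
  have h40 : 40 * R / b = 40 * (R / b) := by ring
  have h2b : 2 * R / b = 2 * (R / b) := by ring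
  rw [h40] at hδ
  have hδ1 : 2 * η + R / b + c ≤ δ := by
    linarith
  have hδ2 : √c + 2 * η ≤ δ := by
    linarith
  have hsum : 2 * η + 16 * w / (η ^ 2 * M) + (64 * √(2 * c) * b + 5 * (R + 1)) / b + 2 * R / b +
      τ * N + √c ≤ δ := by
    rw [h2b, mul_comm τ]
    linarith
  have hprod : (‖S.lam d A‖ + 2 * η + R / b + c) *
      (‖HUN.ntr (fun a a' => Bm (e a) a')‖ + 2 * η) ≤ (‖S.lam d A‖ + δ) * (‖S.lam d B‖ + δ) := by
    refine mul_le_mul (by linarith) (by linarith) (by positivity) (by linarith [hδ1, hRb0])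
  linarith

end HUC
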