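import Pool.Agent.Lib.MP_5c7eee_an.Chain
import Pool.Agent.Lib.MP_5c7eee_an.Neg.SignsLevel

/-!
MP_5c7eee_an: existence of the chain (section 5 of the paper proof).
-/

namespace HUC

open Filter Topology

/-- The numerical fact behind the union bound. -/
theorem exists_large : ∃ A₀ : ℕ, 1000 ≤ A₀ ∧ ∀ A : ℕ, A₀ ≤ A →
    (A : ℝ) ^ 3400 * Real.exp (-((A : ℝ) ^ 2 / 2)) ≤ 1 / 1000 := by
  have h1 := Real.tendsto_pow_mul_exp_neg_atTop_nhds_zero 1700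
  obtain ⟨k, hk⟩ : ∃ k : ℕ, k = 1700 := ⟨_, rfl⟩
  have h2k : (3400 : ℕ) = 2 * k := by rw [hk]
  rw [← hk] at h1
  rw [h2k]
  have hpos : (0 : ℝ) < (1 / 1000) / 2 ^ k := by positivity
  have h2 : ∀ᶠ x : ℝ in atTop, x ^ k * Real.exp (-x) < (1 / 1000) / 2 ^ k :=
    h1.eventually_lt_const hpos
  obtain ⟨y, hy⟩ := eventually_atTop.mp h2
  refine ⟨max 1000 (⌈y⌉₊), le_max_left _ _, fun A hA => ?_⟩
  have hA1 : (1000 : ℝ) ≤ A := by exact_mod_cast (le_max_left _ _).trans hA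
  have hA2 : y ≤ A := by
    have : (⌈y⌉₊ : ℝ) ≤ A := by exact_mod_cast (le_max_right _ _).trans hA
    exact (Nat.le_ceil y).trans this
  have hA3 : y ≤ (A : ℝ) ^ 2 / 2 := by nlinarith
  have h3 := hy _ hA3
  have h4 : (A : ℝ) ^ (2 * k) = 2 ^ k * ((A : ℝ) ^ 2 / 2) ^ k := by
    rw [← mul_pow, pow_mul]
    congr 1
    ring
  rw [h4, mul_assoc]
  have h5 : (0 : ℝ) < 2 ^ k := by positivity
  have h6 := mul_lt_mul_of_pos_left h3 h5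
  have h7 : (2 : ℝ) ^ k * ((1 / 1000) / 2 ^ k) = 1 / 1000 := by field_simp
  rw [h7] at h6
  exact h6.le

/-- The sequence of the weights. -/
def seqA (A₀ : ℕ) : ℕ → ℕ
  | 0 => A₀
  | n + 1 => seqA A₀ n ^ 20

theorem seqA_ge (A₀ : ℕ) (_hA₀ : 1000 ≤ A₀) (n : ℕ) : A₀ ≤ seqA A₀ n := by
  induction n with
  | zero => exact le_refl _
  | succ n ih =>
    show A₀ ≤ seqA A₀ n ^ 20
    exact ih.trans (Nat.le_self_pow (by norm_num) _)

/-- What is needed of the signs of one level. -/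
def LevelOK (A Mi : ℕ) (z0 : ℕ → ℕ → ℝ) (x : (ℕ → ℕ → ℝ) × (ℕ → ℕ → ℝ) × (ℕ → ℕ → ℝ)) : Prop :=
  (∀ h j, x.1 h j = 1 ∨ x.1 h j = -1) ∧ (∀ k j, x.2.1 k j = 1 ∨ x.2.1 k j = -1) ∧
  (∀ k j, x.2.2 k j = 1 ∨ x.2.2 k j = -1) ∧
  (∀ h h', h < A ^ 120 → h' < A ^ 120 → h ≠ h' →
    |∑ j : Fin (A ^ 40), x.1 h j * x.1 h' j| ≤ ((A : ℝ) ^ 19)⁻¹ * ((A ^ 40 : ℕ) : ℝ)) ∧
  (∀ k k', k < A ^ 1700 → k' < A ^ 1700 → k ≠ k' →
    |∑ j : Fin (A ^ 40), x.2.1 k j * x.2.1 k' j| ≤ ((A : ℝ) ^ 19)⁻¹ * ((A ^ 40 : ℕ) : ℝ)) ∧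
  (∀ h k, h < A ^ 120 → k < A ^ 1700 →
    |∑ j : Fin (A ^ 40), x.1 h j * x.2.1 k j| ≤ ((A : ℝ) ^ 19)⁻¹ * ((A ^ 40 : ℕ) : ℝ)) ∧
  (∀ k k', k < A ^ 1700 → k' < A ^ 1700 → k ≠ k' →
    |∑ j : Fin ((A ^ 20) ^ 40), x.2.2 k j * x.2.2 k' j| ≤
      (((A ^ 20 : ℕ) : ℝ) ^ 19)⁻¹ * (((A ^ 20) ^ 40 : ℕ) : ℝ)) ∧
  (∀ h k, h < A ^ 120 → k < Mi →
    |∑ j : Fin (A ^ 40), x.1 h j * z0 k j| ≤ ((A : ℝ) ^ 19)⁻¹ * ((A ^ 40 : ℕ) : ℝ)) ∧
  (∀ k k', k < A ^ 1700 → k' < Mi →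
    |∑ j : Fin (A ^ 40), x.2.1 k j * z0 k' j| ≤ ((A : ℝ) ^ 19)⁻¹ * ((A ^ 40 : ℕ) : ℝ)) ∧
  (∀ i j, i < A ^ 40 → j < A ^ 40 → i ≠ j →
    |∑ h : Fin (A ^ 120), x.1 h i * x.1 h j| ≤ ((A : ℝ) ^ 59)⁻¹ * ((A ^ 120 : ℕ) : ℝ)) ∧
  (∀ i j, i < A ^ 40 → j < A ^ 40 → i ≠ j →
    |∑ k : Fin (A ^ 1700), x.2.1 k i * x.2.1 k j| ≤ ((A : ℝ) ^ 849)⁻¹ * ((A ^ 1700 : ℕ) : ℝ)) ∧
  (∀ i j, i < (A ^ 20) ^ 40 → j < (A ^ 20) ^ 40 → i ≠ j →
    |∑ k : Fin (A ^ 1700), x.2.2 k i * x.2.2 k j| ≤ ((A : ℝ) ^ 849)⁻¹ * ((A ^ 1700 : ℕ) : ℝ)) ∧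
  (∀ i j, i < A ^ 40 → j < (A ^ 20) ^ 40 →
    |∑ k : Fin (A ^ 1700), x.2.1 k i * x.2.2 k j| ≤ ((A : ℝ) ^ 849)⁻¹ * ((A ^ 1700 : ℕ) : ℝ)) ∧
  Rigid (A ^ 40) (A ^ 120) (fun h j => x.1 h j) ((A : ℝ) ^ 4) (((A : ℝ) ^ 3)⁻¹) ((A ^ 40) ^ 2)

theorem exists_levelOK (A Mi : ℕ) (hA : 1000 ≤ A)
    (hbig : (A : ℝ) ^ 3400 * Real.exp (-((A : ℝ) ^ 2 / 2)) ≤ 1 / 1000) (hMi : Mi ≤ A ^ 1700)
    (z0 : ℕ → ℕ → ℝ) (hz0 : ∀ k j, z0 k j = 1 ∨ z0 k j = -1) :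
    ∃ x, LevelOK A Mi z0 x := by
  have hA1 : (1000 : ℝ) ≤ A := by exact_mod_cast hA
  have hA0 : (0 : ℝ) < A := by linarith
  have hA1' : (1 : ℝ) ≤ A := by linarith
  have hA0n : 0 < A := by omega
  have hne : (A : ℝ) ≠ 0 := hA0.ne'
  have hp : ∀ p q : ℕ, p ≤ q → (A : ℝ) ^ p ≤ (A : ℝ) ^ q := fun p q h => pow_le_pow_right₀ hA1' h
  obtain ⟨u, v, z, h⟩ := HUN.level_exists (A ^ 40) ((A ^ 20) ^ 40) (A ^ 120) (A ^ 1700) Mi
    (by positivity) (by positivity) (by positivity) (by positivity) z0 hz0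
    (c := ((A : ℝ) ^ 19)⁻¹) (c' := (((A ^ 20 : ℕ) : ℝ) ^ 19)⁻¹) (τu := ((A : ℝ) ^ 59)⁻¹)
    (τl := ((A : ℝ) ^ 849)⁻¹) (η := ((A : ℝ) ^ 3)⁻¹) (β := (A : ℝ) ^ 4) (Λ := (A : ℝ) ^ 2 / 2)
    (X := (A : ℝ) ^ 26 / 512) (W := (A : ℝ) ^ 1700)
    (by positivity) (by positivity) (by positivity) (by positivity)
    (by
      push_cast
      have : ((A : ℝ) ^ 19)⁻¹ ^ 2 * (A : ℝ) ^ 40 = (A : ℝ) ^ 2 := by
        rw [inv_pow, ← pow_mul, inv_mul_eq_div, div_eq_iff (by positivity), ← pow_add]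
      rw [this]; linarith)
    (by
      push_cast
      have : (((A : ℝ) ^ 20) ^ 19)⁻¹ ^ 2 * ((A : ℝ) ^ 20) ^ 40 = (A : ℝ) ^ 40 := by
        rw [inv_pow, ← pow_mul, ← pow_mul, ← pow_mul, inv_mul_eq_div, div_eq_iff (by positivity),
          ← pow_add]
      rw [this]
      have := hp 2 40 (by norm_num)
      linarith)
    (by
      push_cast
      have : ((A : ℝ) ^ 59)⁻¹ ^ 2 * (A : ℝ) ^ 120 = (A : ℝ) ^ 2 := by
        rw [inv_pow, ← pow_mul, inv_mul_eq_div, div_eq_iff (by positivity), ← pow_add]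
      rw [this]; linarith)
    (by
      push_cast
      have : ((A : ℝ) ^ 849)⁻¹ ^ 2 * (A : ℝ) ^ 1700 = (A : ℝ) ^ 2 := by
        rw [inv_pow, ← pow_mul, inv_mul_eq_div, div_eq_iff (by positivity), ← pow_add]
      rw [this]; linarith)
    (by push_cast; exact hp _ _ (by norm_num))
    (by push_cast; exact le_refl _)
    (by exact_mod_cast hMi)
    (by push_cast; exact hp _ _ (by norm_num))
    (by push_cast; rw [← pow_mul]; exact hp _ _ (by norm_num))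
    (by
      rw [← pow_mul]
      have : (1700 * 2 : ℕ) = 3400 := by norm_num
      rw [this]
      linarith)
    (by positivity)
    (by
      have h1 : ((A : ℝ) ^ 3)⁻¹ ≤ 1 := inv_le_one_of_one_le₀ (one_le_pow₀ hA1')
      have h2 : (1 : ℝ) ≤ (A : ℝ) ^ 4 := one_le_pow₀ hA1'
      linarith)
    (4 * A ^ 47 + 1)
    (by
      push_cast
      have : (A : ℝ) ^ 4 / (((A : ℝ) ^ 3)⁻¹ / (4 * (A : ℝ) ^ 40)) = 4 * (A : ℝ) ^ 47 := by
        field_simp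
      rw [this])
    (by
      push_cast
      have : (((A : ℝ) ^ 3)⁻¹) ^ 2 * (A : ℝ) ^ 40 / (512 * ((A : ℝ) ^ 4) ^ 2)
          = (A : ℝ) ^ 26 / 512 := by
        field_simp
      rw [this])
    (by
      push_cast
      have h1 : (2 * (4 * (A : ℝ) ^ 47 + 1) + 1) * ((A : ℝ) ^ 120) ^ 2 * 2 ≤ 22 * (A : ℝ) ^ 3400 := by
        have h2 : (1 : ℝ) ≤ (A : ℝ) ^ 47 := one_le_pow₀ hA1'
        calc (2 * (4 * (A : ℝ) ^ 47 + 1) + 1) * ((A : ℝ) ^ 120) ^ 2 * 2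
            ≤ (11 * (A : ℝ) ^ 47) * ((A : ℝ) ^ 120) ^ 2 * 2 := by
              have : 2 * (4 * (A : ℝ) ^ 47 + 1) + 1 ≤ 11 * (A : ℝ) ^ 47 := by linarith
              have h3 : (0 : ℝ) ≤ ((A : ℝ) ^ 120) ^ 2 := by positivity
              nlinarith
          _ = 22 * (A : ℝ) ^ 287 := by
              rw [← pow_mul]
              have : (A : ℝ) ^ 287 = (A : ℝ) ^ 47 * (A : ℝ) ^ (120 * 2) := by rw [← pow_add]
              rw [this]; ring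
          _ ≤ 22 * (A : ℝ) ^ 3400 := by
              have := hp 287 3400 (by norm_num)
              linarith
      have h2 : Real.exp (-((A : ℝ) ^ 26 / 512)) ≤ Real.exp (-((A : ℝ) ^ 2 / 2)) := by
        apply Real.exp_le_exp.mpr
        have h3 : (A : ℝ) ^ 26 = (A : ℝ) ^ 2 * (A : ℝ) ^ 24 := by rw [← pow_add]
        have h4 : (256 : ℝ) ≤ (A : ℝ) ^ 24 := by
          calc (256 : ℝ) ≤ A ^ 1 := by rw [pow_one]; linarith
            _ ≤ (A : ℝ) ^ 24 := hp 1 24 (by norm_num)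
        have h5 : (0 : ℝ) ≤ (A : ℝ) ^ 2 := by positivity
        rw [h3]
        nlinarith
      calc (2 * (4 * (A : ℝ) ^ 47 + 1) + 1) * ((A : ℝ) ^ 120) ^ 2 * 2 *
            Real.exp (-((A : ℝ) ^ 26 / 512))
          ≤ (22 * (A : ℝ) ^ 3400) * Real.exp (-((A : ℝ) ^ 2 / 2)) :=
            mul_le_mul h1 h2 (Real.exp_pos _).le (by positivity)
        _ = 22 * ((A : ℝ) ^ 3400 * Real.exp (-((A : ℝ) ^ 2 / 2))) := by ring
        _ ≤ 1 / 8 := by linarith)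
  exact ⟨(u, v, z), h⟩

theorem exists_chain : Nonempty Chain := by
  classical
  obtain ⟨A₀, hA₀, hbig⟩ := exists_large
  set A := seqA A₀ with hAdef
  have hAs : ∀ n, A (n + 1) = A n ^ 20 := fun n => rfl
  have hAge : ∀ n, A₀ ≤ A n := seqA_ge A₀ hA₀
  have hA3 : ∀ n, 1000 ≤ A n := fun n => hA₀.trans (hAge n)
  have hAr : ∀ n, (1000 : ℝ) ≤ A n := fun n => by exact_mod_cast hA3 n
  have hA0 : ∀ n, (0 : ℝ) < A n := fun n => by linarith [hAr n]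
  have hA1 : ∀ n, (1 : ℝ) ≤ A n := fun n => by linarith [hAr n]
  -- number of in-vectors at level n
  let Mi : ℕ → ℕ := fun n => match n with
    | 0 => 0
    | m + 1 => A m ^ 1700
  have hMi : ∀ n, Mi n ≤ A n ^ 1700 := by
    intro n
    cases n with
    | zero => exact Nat.zero_le _
    | succ m =>
      show A m ^ 1700 ≤ A (m + 1) ^ 1700
      apply Nat.pow_le_pow_left
      rw [hAs]
      exact Nat.le_self_pow (by norm_num) _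
  -- choice at every level, for every previous in-part
  have hstep : ∀ (n : ℕ) (z0 : {z : ℕ → ℕ → ℝ // ∀ k j, z k j = 1 ∨ z k j = -1}),
      ∃ x, LevelOK (A n) (Mi n) z0.1 x := fun n z0 =>
    exists_levelOK (A n) (Mi n) (hA3 n) (hbig _ (hAge n)) (hMi n) z0.1 z0.2
  choose F hF using hstep
  let prev : ℕ → {z : ℕ → ℕ → ℝ // ∀ k j, z k j = 1 ∨ z k j = -1} := fun n =>
    Nat.rec ⟨fun _ _ => 1, fun _ _ => Or.inl rfl⟩ (fun m zm => ⟨(F m zm).2.2, (hF m zm).2.2.1⟩) n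
  have hprev : ∀ n, prev (n + 1) = ⟨(F n (prev n)).2.2, (hF n (prev n)).2.2.1⟩ := fun n => rfl
  have H : ∀ n, LevelOK (A n) (Mi n) (prev n).1 (F n (prev n)) := fun n => hF n (prev n)
  have H' : ∀ n, LevelOK (A (n + 1)) (A n ^ 1700) (F n (prev n)).2.2
      (F (n + 1) (prev (n + 1))) := fun n => H (n + 1)
  have hp : ∀ n (p q : ℕ), p ≤ q → (A n : ℝ) ^ p ≤ (A n : ℝ) ^ q :=
    fun n p q h => pow_le_pow_right₀ (hA1 n) h
  -- `1000 x^p ≤ x^q` for `p < q`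
  have hp' : ∀ n (p q : ℕ), p + 1 ≤ q → 1000 * (A n : ℝ) ^ p ≤ (A n : ℝ) ^ q := by
    intro n p q h
    calc 1000 * (A n : ℝ) ^ p ≤ (A n : ℝ) * (A n : ℝ) ^ p :=
          mul_le_mul_of_nonneg_right (hAr n) (by have := hA0 n; positivity)
      _ = (A n : ℝ) ^ (p + 1) := by rw [pow_succ]; ring
      _ ≤ _ := hp n _ _ h
  have hAsr : ∀ n, (A (n + 1) : ℝ) = (A n : ℝ) ^ 20 := fun n => by rw [hAs]; push_cast; rfl
  refine ⟨{
    a := fun n => A n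
    b := fun n => (A n : ℝ) ^ 4
    c := fun n => ((A n : ℝ) ^ 19)⁻¹
    η := fun n => ((A n : ℝ) ^ 3)⁻¹
    τu := fun n => ((A n : ℝ) ^ 59)⁻¹
    τl := fun n => ((A n : ℝ) ^ 849)⁻¹
    N := fun n => A n ^ 40
    M := fun n => A n ^ 120
    L := fun n => A n ^ 1700
    w := fun n => (A n ^ 40) ^ 2
    u := fun n => (F n (prev n)).1
    v := fun n => (F n (prev n)).2.1
    z := fun n => (F n (prev n)).2.2
    su := fun n => (H n).1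
    sv := fun n => (H n).2.1
    sz := fun n => (H n).2.2.1
    cuu := fun n => (H n).2.2.2.1
    cvv := fun n => (H n).2.2.2.2.1
    cuv := fun n => (H n).2.2.2.2.2.1
    czz := fun n => (H n).2.2.2.2.2.2.1
    cuz := fun n => (H' n).2.2.2.2.2.2.2.1
    cvz := fun n => (H' n).2.2.2.2.2.2.2.2.1
    colu := fun n => (H n).2.2.2.2.2.2.2.2.2.1
    colv := fun n => (H n).2.2.2.2.2.2.2.2.2.2.1
    colz := fun n => (H n).2.2.2.2.2.2.2.2.2.2.2.1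
    colvz := fun n => (H n).2.2.2.2.2.2.2.2.2.2.2.2.1
    rigid := fun n => (H n).2.2.2.2.2.2.2.2.2.2.2.2.2
    hN := fun n => Nat.one_le_pow _ _ (by have := hA3 n; omega)
    hM := fun n => Nat.one_le_pow _ _ (by have := hA3 n; omega)
    hL := fun n => Nat.one_le_pow _ _ (by have := hA3 n; omega)
    hNN := fun n => Nat.pow_le_pow_left (by rw [hAs]; exact Nat.le_self_pow (by norm_num) _) _
    hMM := fun n => Nat.pow_le_pow_left (by rw [hAs]; exact Nat.le_self_pow (by norm_num) _) _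
    ha := fun n => by linarith [hAr n]
    ha2 := fun n => ?_
    hab := fun n => hp n 3 4 (by norm_num)
    hba := fun n => ?_
    hbN := fun n => ?_
    hc0 := fun n => by have := hA0 n; positivity
    hbc := fun n => ?_
    hca := fun n => ?_
    hη0 := fun n => by have := hA0 n; positivity
    hηa := fun n => ?_
    hcη := fun n => ?_
    hfar := fun n => ?_
    hMc := fun n => ?_
    hw := fun n => ?_
    hτu0 := fun n => by have := hA0 n; positivity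
    hτu := fun n => ?_
    hτl0 := fun n => by have := hA0 n; positivity
    hτl := fun n => ?_ }⟩
  · -- ha2
    show 2 * (A n : ℝ) ≤ A (n + 1)
    rw [hAsr]
    have := hp' n 1 20 (by norm_num)
    rw [pow_one] at this
    linarith [hA0 n]
  · -- hba
    show (A n : ℝ) ^ 4 ≤ A (n + 1)
    rw [hAsr]
    exact hp n 4 20 (by norm_num)
  · -- hbN
    show (A n : ℝ) ^ 4 ≤ √((A n ^ 40 : ℕ) : ℝ)
    have h1 : ((A n ^ 40 : ℕ) : ℝ) = ((A n : ℝ) ^ 20) ^ 2 := by push_cast; rw [← pow_mul]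
    rw [h1, Real.sqrt_sq (by have := hA0 n; positivity)]
    exact hp n 4 20 (by norm_num)
  · -- hbc
    show (A n : ℝ) ^ 4 * ((A n : ℝ) ^ 19)⁻¹ ≤ 1
    have h0 : (0 : ℝ) < (A n : ℝ) ^ 19 := by have := hA0 n; positivity
    rw [← div_eq_mul_inv, div_le_one h0]
    exact hp n 4 19 (by norm_num)
  · -- hca
    show √(((A n : ℝ) ^ 19)⁻¹) ≤ 1 / (A n : ℝ) ^ 2
    have h0 := hA0 n
    rw [Real.sqrt_le_left (by positivity), one_div, inv_pow, ← pow_mul]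
    exact inv_anti₀ (by positivity) (hp n _ _ (by norm_num))
  · -- hηa
    show ((A n : ℝ) ^ 3)⁻¹ ≤ 1 / (A n : ℝ) ^ 2
    have h0 := hA0 n
    rw [one_div]
    exact inv_anti₀ (by positivity) (hp n _ _ (by norm_num))
  · -- hcη
    show ((A n : ℝ) ^ 19)⁻¹ ≤ (((A n : ℝ) ^ 3)⁻¹) ^ 2 / 2
    have h0 := hA0 n
    rw [inv_pow, ← pow_mul, div_eq_mul_inv, ← mul_inv]
    apply inv_anti₀ (by positivity)
    have := hp' n (3 * 2) 19 (by norm_num)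
    have h1 : (0 : ℝ) ≤ (A n : ℝ) ^ (3 * 2) := by positivity
    linarith
  · -- hfar
    show 2 * ((A (n + 1) : ℝ) ^ 4) ^ 2 * ((A (n + 1) : ℝ) ^ 19)⁻¹ *
      (1 + √((A n ^ 120 : ℕ) : ℝ)) ^ 2 ≤ 1
    have h0 := hA0 n
    have h1 : ((A n ^ 120 : ℕ) : ℝ) = ((A n : ℝ) ^ 60) ^ 2 := by push_cast; rw [← pow_mul]
    rw [h1, Real.sqrt_sq (by positivity), hAsr]
    have h2 : (1 : ℝ) ≤ (A n : ℝ) ^ 60 := one_le_pow₀ (hA1 n)
    have h3 : (1 + (A n : ℝ) ^ 60) ^ 2 ≤ 4 * (A n : ℝ) ^ 120 := by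
      have : (A n : ℝ) ^ 120 = (A n : ℝ) ^ 60 * (A n : ℝ) ^ 60 := by rw [← pow_add]
      rw [this]
      nlinarith
    have h4 : 0 ≤ 2 * (((A n : ℝ) ^ 20) ^ 4) ^ 2 * (((A n : ℝ) ^ 20) ^ 19)⁻¹ := by positivity
    calc 2 * (((A n : ℝ) ^ 20) ^ 4) ^ 2 * (((A n : ℝ) ^ 20) ^ 19)⁻¹ * (1 + (A n : ℝ) ^ 60) ^ 2
        ≤ 2 * (((A n : ℝ) ^ 20) ^ 4) ^ 2 * (((A n : ℝ) ^ 20) ^ 19)⁻¹ * (4 * (A n : ℝ) ^ 120) :=
          mul_le_mul_of_nonneg_left h3 h4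
      _ = 8 * (A n : ℝ) ^ 280 / (A n : ℝ) ^ 380 := by
          rw [← pow_mul, ← pow_mul, ← pow_mul]
          have : (A n : ℝ) ^ 280 = (A n : ℝ) ^ (20 * 4 * 2) * (A n : ℝ) ^ 120 := by rw [← pow_add]
          rw [this]
          have h5 : (20 * 19 : ℕ) = 380 := by norm_num
          rw [h5]
          ring
      _ ≤ 1 := by
          rw [div_le_one (by positivity)]
          have := hp' n 280 380 (by norm_num)
          have h6 : (0 : ℝ) ≤ (A n : ℝ) ^ 280 := by positivity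
          linarith
  · -- hMc
    show 16 * ((A n ^ 40 : ℕ) : ℝ) ≤ ((A n : ℝ) ^ 19)⁻¹ * ((A n ^ 120 : ℕ) : ℝ)
    have h0 := hA0 n
    push_cast
    have h1 : ((A n : ℝ) ^ 19)⁻¹ * (A n : ℝ) ^ 120 = (A n : ℝ) ^ 101 := by
      rw [inv_mul_eq_div, div_eq_iff (by positivity), ← pow_add]
    rw [h1]
    have := hp' n 40 101 (by norm_num)
    have h2 : (0 : ℝ) ≤ (A n : ℝ) ^ 40 := by positivity
    linarith
  · -- hw
    show (A n : ℝ) ^ 4 * (((A n ^ 40) ^ 2 : ℕ) : ℝ) /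
      ((((A n : ℝ) ^ 3)⁻¹) ^ 2 * ((A n ^ 120 : ℕ) : ℝ)) ≤ 1 / (A n : ℝ) ^ 2
    have h0 := hA0 n
    push_cast
    have h1 : (((A n : ℝ) ^ 3)⁻¹) ^ 2 * (A n : ℝ) ^ 120 = (A n : ℝ) ^ 114 := by
      rw [inv_pow, ← pow_mul, inv_mul_eq_div, div_eq_iff (by positivity), ← pow_add]
    have h2 : (A n : ℝ) ^ 4 * ((A n : ℝ) ^ 40) ^ 2 = (A n : ℝ) ^ 84 := by
      rw [← pow_mul, ← pow_add]
    rw [h1, h2, div_le_div_iff₀ (by positivity) (by positivity), one_mul, ← pow_add]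
    exact hp n _ _ (by norm_num)
  · -- hτu
    show ((A n ^ 40 : ℕ) : ℝ) * ((A n : ℝ) ^ 59)⁻¹ ≤ 1 / (4 * (A n : ℝ) ^ 2)
    have h0 := hA0 n
    push_cast
    rw [← div_eq_mul_inv, div_le_div_iff₀ (by positivity) (by positivity), one_mul]
    have h1 : (A n : ℝ) ^ 40 * (4 * (A n : ℝ) ^ 2) = 4 * (A n : ℝ) ^ 42 := by
      have : (A n : ℝ) ^ 42 = (A n : ℝ) ^ 40 * (A n : ℝ) ^ 2 := by rw [← pow_add]
      rw [this]; ring
    rw [h1]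
    have := hp' n 42 59 (by norm_num)
    have h2 : (0 : ℝ) ≤ (A n : ℝ) ^ 42 := by positivity
    linarith
  · -- hτl
    show ((A (n + 1) ^ 40 : ℕ) : ℝ) * ((A n : ℝ) ^ 849)⁻¹ ≤ 1 / (4 * (A n : ℝ))
    have h0 := hA0 n
    push_cast
    rw [hAsr, ← pow_mul, ← div_eq_mul_inv, div_le_div_iff₀ (by positivity) (by positivity),
      one_mul]
    have h1 : (A n : ℝ) ^ (20 * 40) * (4 * (A n : ℝ)) = 4 * (A n : ℝ) ^ 801 := by
      have : (A n : ℝ) ^ 801 = (A n : ℝ) ^ (20 * 40) * (A n : ℝ) := by rw [← pow_succ]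
      rw [this]; ring
    rw [h1]
    have := hp' n 801 849 (by norm_num)
    have h2 : (0 : ℝ) ≤ (A n : ℝ) ^ 801 := by positivity
    linarith

end HUC
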