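import Pool.Agent.Lib.MP_5c7eee_an.Telescope
import Pool.Agent.Lib.MP_5c7eee_an.FarOrth
import Pool.Agent.Lib.MP_5c7eee_an.Level
import Pool.Agent.Lib.MP_5c7eee_an.Signs

/-!
MP_5c7eee_an: products of compact operators have small normalised traces.
-/

namespace HUC

namespace Chain

variable (D : Chain)

private theorem inv_sq_le_one (n : ℕ) : 1 / D.a n ^ 2 ≤ 1 / 4 := by
  have ha := D.ha n
  apply one_div_le_one_div_of_le (by norm_num)
  nlinarith

private theorem cube_le (n : ℕ) : 2 * D.a n ≤ D.b n := by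
  have ha := D.ha n
  have hab := D.hab n
  nlinarith [mul_nonneg (by linarith : (0 : ℝ) ≤ D.a n) (by nlinarith : (0 : ℝ) ≤ D.a n ^ 2 - 4)]

private theorem delta_le (n : ℕ) :
    (D.N n : ℝ) * D.τu n + 40 * (2 * D.a n) / D.b n + 200 * √(D.c n) + 8 * D.η n +
      200 * (D.b n * D.w n / (D.η n ^ 2 * D.M n)) ≤ 500 / D.a n ^ 2 := by
  have ha := D.ha n
  have hapos : (0 : ℝ) < D.a n := by linarith
  have ha2 : (0 : ℝ) < D.a n ^ 2 := by positivity
  have hab := D.hab n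
  have h1 := D.hτu n
  have h3 := D.hca n
  have h4 := D.hηa n
  have h5 := D.hw n
  have h1' : (1 : ℝ) / (4 * D.a n ^ 2) = (1 / 4) * (1 / D.a n ^ 2) := by
    field_simp
  have h2 : 40 * (2 * D.a n) / D.b n ≤ 80 * (1 / D.a n ^ 2) := by
    have h21 : 40 * (2 * D.a n) / D.b n ≤ 40 * (2 * D.a n) / D.a n ^ 3 :=
      div_le_div_of_nonneg_left (by positivity) (by positivity) hab
    have h22 : 40 * (2 * D.a n) / D.a n ^ 3 = 80 * (1 / D.a n ^ 2) := by
      field_simp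
      norm_num
    linarith
  have h6 : (500 : ℝ) / D.a n ^ 2 = 500 * (1 / D.a n ^ 2) := by ring
  have h7 : (0 : ℝ) < 1 / D.a n ^ 2 := by positivity
  rw [h6]
  rw [h1'] at h1
  linarith

/-- The main estimate for the chain. -/
theorem lam_mul_le (n : ℕ) (A B : D.fam.X →L[ℂ] D.fam.X) (hA : ‖A‖ ≤ 1) (hB : ‖B‖ ≤ 1) :
    ‖D.lam n (A * B)‖ ≤ (‖D.lam n A‖ + 500 / D.a n ^ 2) * (‖D.lam n B‖ + 500 / D.a n ^ 2) +
      500 / D.a n ^ 2 := by
  have ha := D.ha n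
  have hapos : (0 : ℝ) < D.a n := by linarith
  have hRb := cube_le D n
  have hinv := inv_sq_le_one D n
  have hMpos : (0 : ℝ) < (1 + √(D.M n : ℝ)) ^ 2 := by
    have := Real.sqrt_nonneg (D.M n : ℝ)
    positivity
  have hτ4 : (D.N n : ℝ) * D.τu n ≤ 1 / 4 := by
    refine (D.hτu n).trans ?_
    have : (1 : ℝ) / (4 * D.a n ^ 2) = (1 / 4) * (1 / D.a n ^ 2) := by
      field_simp
    rw [this]
    linarith
  have hmain := level_estimate D.fam (D.hN n) (D.hM n)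
    (fun j : Fin (D.N n) => ((n, (j : ℕ)) : ℕ × ℕ))
    (fun i j hij => by
      simp only [Prod.mk.injEq, true_and] at hij
      exact Fin.ext hij)
    (fun h : Fin (D.M n) => (Sum.inl (n, (h : ℕ)) : (ℕ × ℕ) ⊕ (ℕ × ℕ)))
    (fun i j hij => by
      simp only [Sum.inl.injEq, Prod.mk.injEq, true_and] at hij
      exact Fin.ext hij)
    (fun h j => D.u n h j) (fun h j => D.su n h j)
    (b := D.b n) (c := D.c n) (τ := D.τu n) (η := D.η n) (R := 2 * D.a n)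
    (γ := 1 / (1 + √(D.M n : ℝ)) ^ 2) (w := D.w n)
    (by linarith) (D.hc0 n) (D.hη0 n) ((D.hηa n).trans (by linarith)) (by linarith)
    hRb (D.hτu0 n) (by positivity) (D.hcη n) hτ4 (D.hMc n)
    (by rw [one_div_mul_cancel hMpos.ne'])
    (fun h j => by
      show D.phi (Sum.inl (n, (h : ℕ))) (n, (j : ℕ)) = _
      rw [phi_inl, if_pos ⟨rfl, h.2, j.2⟩])
    (fun h j hj => by
      show D.phi (Sum.inl (n, (h : ℕ))) j = 0
      obtain ⟨m, j⟩ := j
      rw [phi_inl, if_neg]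
      rintro ⟨rfl, -, h3⟩
      exact hj ⟨⟨j, h3⟩, rfl⟩)
    (Low n) (Far n)
    (fun i => by
      rcases i with ⟨m, h⟩ | ⟨m, k⟩
      · rcases lt_trichotomy m n with hmn | hmn | hmn
        · right; left; exact hmn
        · subst hmn
          by_cases hh : h < D.M m
          · left
            exact ⟨⟨h, hh⟩, rfl⟩
          · right; right; right
            rintro ⟨m', j⟩
            show D.phi (Sum.inl (m, h)) (m', j) = 0
            rw [phi_inl, if_neg]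
            rintro ⟨-, h2, -⟩
            exact hh h2
        · right; right; left; exact hmn
      · rcases le_or_gt m n with hmn | hmn
        · right; left; exact hmn
        · right; right; left; exact hmn)
    (fun h hf => lt_irrefl n hf)
    (fun i hi F => D.low_norm n i hi F)
    (fun i hi j => D.far_zero n i hi j)
    (fun F₀ => D.far_orth n F₀)
    (fun h h' hh => D.cuu n h h' h.2 h'.2 (fun e => hh (Fin.ext e)))
    (fun i j hij => D.colu n i j i.2 j.2 (fun e => hij (Fin.ext e)))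
    (D.rigid n)
    (fun j => D.norm_single_le n j j.2)
    (fun x => D.norm_vec_le n x)
    A B hA hB rfl
  have hδ := delta_le D n
  have hδ0 : 0 ≤ (D.N n : ℝ) * D.τu n + 40 * (2 * D.a n) / D.b n + 200 * √(D.c n) + 8 * D.η n +
      200 * (D.b n * D.w n / (D.η n ^ 2 * D.M n)) := by
    have h1 := D.hτu0 n
    have h2 : 0 ≤ D.b n := by linarith
    have h3 := (D.hη0 n).le
    positivity
  refine hmain.trans ?_
  have hn1 : 0 ≤ ‖D.lam n A‖ := norm_nonneg _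
  have hn2 : 0 ≤ ‖D.lam n B‖ := norm_nonneg _
  have e1 : ‖D.lam n A‖ + ((D.N n : ℝ) * D.τu n + 40 * (2 * D.a n) / D.b n +
      200 * √(D.c n) + 8 * D.η n + 200 * (D.b n * D.w n / (D.η n ^ 2 * D.M n))) ≤
      ‖D.lam n A‖ + 500 / D.a n ^ 2 := by linarith
  have e2 : ‖D.lam n B‖ + ((D.N n : ℝ) * D.τu n + 40 * (2 * D.a n) / D.b n +
      200 * √(D.c n) + 8 * D.η n + 200 * (D.b n * D.w n / (D.η n ^ 2 * D.M n))) ≤
      ‖D.lam n B‖ + 500 / D.a n ^ 2 := by linarith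
  exact add_le_add (mul_le_mul e1 e2 (add_nonneg hn2 hδ0) (add_nonneg hn1 (hδ0.trans hδ))) hδ

private theorem lam_smul (n : ℕ) (r : ℂ) (A : D.fam.X →L[ℂ] D.fam.X) :
    D.lam n (r • A) = r * D.lam n A := by
  unfold Chain.lam Fam.lam
  rw [mul_div_assoc', Finset.mul_sum]
  rfl

private theorem lam_zero (n : ℕ) : D.lam n (0 : D.fam.X →L[ℂ] D.fam.X) = 0 := by
  unfold Chain.lam Fam.lam
  simp

private theorem pos_of_ne (A : D.fam.X →L[ℂ] D.fam.X) (h : A ≠ 0) : 0 < ‖A‖ := by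
  have h0 : (0 : ℝ) ≤ ‖A‖ := A.opNorm_nonneg
  refine lt_of_le_of_ne h0 (fun h1 => h ?_)
  ext1 x
  have h2 := A.le_opNorm x
  rw [← h1, zero_mul] at h2
  have h3 : A x = 0 := norm_le_zero_iff.mp h2
  rw [h3]
  rfl

/-- For compact operators. -/
theorem lam_mul_compact_le (n : ℕ) (A B : D.fam.X →L[ℂ] D.fam.X) (hA : IsCompactOperator A)
    (hB : IsCompactOperator B) : ‖D.lam n (A * B)‖ ≤ 300000 * ‖A‖ * ‖B‖ / D.a n ^ 2 := by
  have ha := D.ha n
  have hapos : (0 : ℝ) < D.a n := by linarith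
  have ha2 : (0 : ℝ) < D.a n ^ 2 := by positivity
  by_cases hA0 : A = 0
  · subst hA0
    rw [zero_mul, lam_zero, norm_zero, ContinuousLinearMap.opNorm_zero]
    simp
  by_cases hB0 : B = 0
  · subst hB0
    rw [mul_zero, lam_zero, norm_zero, ContinuousLinearMap.opNorm_zero]
    simp
  have hAn : 0 < ‖A‖ := pos_of_ne D A hA0
  have hBn : 0 < ‖B‖ := pos_of_ne D B hB0
  set A' : D.fam.X →L[ℂ] D.fam.X := ((‖A‖⁻¹ : ℝ) : ℂ) • A with hA'
  set B' : D.fam.X →L[ℂ] D.fam.X := ((‖B‖⁻¹ : ℝ) : ℂ) • B with hB'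
  have hA1 : ‖A'‖ ≤ 1 := by
    have := ContinuousLinearMap.opNorm_smul_le ((‖A‖⁻¹ : ℝ) : ℂ) A
    rwa [Complex.norm_real, Real.norm_of_nonneg (inv_nonneg.mpr hAn.le),
      inv_mul_cancel₀ hAn.ne'] at this
  have hB1 : ‖B'‖ ≤ 1 := by
    have := ContinuousLinearMap.opNorm_smul_le ((‖B‖⁻¹ : ℝ) : ℂ) B
    rwa [Complex.norm_real, Real.norm_of_nonneg (inv_nonneg.mpr hBn.le),
      inv_mul_cancel₀ hBn.ne'] at this
  have hAc : IsCompactOperator A' := by
    have := hA.smul ((‖A‖⁻¹ : ℝ) : ℂ)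
    exact this
  have hBc : IsCompactOperator B' := by
    have := hB.smul ((‖B‖⁻¹ : ℝ) : ℂ)
    exact this
  have h1 := D.lam_mul_le n A' B' hA1 hB1
  have h2 := D.lam_compact_le n A' hA1 hAc
  have h3 := D.lam_compact_le n B' hB1 hBc
  have hprod : D.lam n (A * B) = ((‖A‖ * ‖B‖ : ℝ) : ℂ) * D.lam n (A' * B') := by
    have hAB : A' * B' = (((‖A‖⁻¹ : ℝ) : ℂ) * ((‖B‖⁻¹ : ℝ) : ℂ)) • (A * B) := by
      ext1 x
      show ((‖A‖⁻¹ : ℝ) : ℂ) • A (((‖B‖⁻¹ : ℝ) : ℂ) • B x) =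
        (((‖A‖⁻¹ : ℝ) : ℂ) * ((‖B‖⁻¹ : ℝ) : ℂ)) • A (B x)
      rw [A.map_smul, smul_smul]
    rw [hAB, lam_smul, ← mul_assoc]
    have : (((‖A‖ * ‖B‖ : ℝ) : ℂ)) * (((‖A‖⁻¹ : ℝ) : ℂ) * ((‖B‖⁻¹ : ℝ) : ℂ)) = 1 := by
      rw [← Complex.ofReal_mul, ← Complex.ofReal_mul]
      have : ‖A‖ * ‖B‖ * (‖A‖⁻¹ * ‖B‖⁻¹) = 1 := by
        field_simp
      rw [this, Complex.ofReal_one]
    rw [this, one_mul]
  have h4 : (500 : ℝ) / D.a n ^ 2 ≤ 250 / D.a n := by
    rw [div_le_div_iff₀ ha2 hapos]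
    nlinarith
  have h40 : (0 : ℝ) ≤ 500 / D.a n ^ 2 := by positivity
  have h6 : (6 : ℝ) / D.a n + 250 / D.a n = 256 / D.a n := by
    rw [← add_div]
    norm_num
  have hA2 : ‖D.lam n A'‖ + 500 / D.a n ^ 2 ≤ 256 / D.a n := by linarith
  have hB2 : ‖D.lam n B'‖ + 500 / D.a n ^ 2 ≤ 256 / D.a n := by linarith
  have h5 : ‖D.lam n (A' * B')‖ ≤ 300000 / D.a n ^ 2 := by
    refine h1.trans ?_
    have h7 : (‖D.lam n A'‖ + 500 / D.a n ^ 2) * (‖D.lam n B'‖ + 500 / D.a n ^ 2) ≤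
        (256 / D.a n) * (256 / D.a n) :=
      mul_le_mul hA2 hB2 (add_nonneg (norm_nonneg _) h40) (by positivity)
    have h8 : (256 / D.a n) * (256 / D.a n) + 500 / D.a n ^ 2 = 66036 / D.a n ^ 2 := by
      field_simp
      norm_num
    have h9 : (66036 : ℝ) / D.a n ^ 2 ≤ 300000 / D.a n ^ 2 :=
      div_le_div_of_nonneg_right (by norm_num) ha2.le
    linarith
  rw [hprod, norm_mul, Complex.norm_real, Real.norm_of_nonneg (mul_nonneg hAn.le hBn.le)]
  calc ‖A‖ * ‖B‖ * ‖D.lam n (A' * B')‖ ≤ ‖A‖ * ‖B‖ * (300000 / D.a n ^ 2) :=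
        mul_le_mul_of_nonneg_left h5 (mul_nonneg hAn.le hBn.le)
    _ = 300000 * ‖A‖ * ‖B‖ / D.a n ^ 2 := by ring

end Chain

end HUC
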