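import Pool.Agent.Lib.MP_5c7eee_an.SpaceNorm
import Pool.Agent.Lib.MP_5c7eee_an.Chain

/-!
MP_5c7eee_an: norms of simple vectors and operators of the chain space.
-/

namespace HUC

namespace Chain

variable (D : Chain)

/-- `∑_{j < N_n} x_j e_{(n,j)}`. -/
noncomputable def vec (n : ℕ) (x : Fin (D.N n) → ℂ) : ℕ × ℕ →₀ ℂ :=
  ∑ j : Fin (D.N n), Finsupp.single (n, (j : ℕ)) (x j)

private theorem ev_vec (i : (ℕ × ℕ) ⊕ (ℕ × ℕ)) (n : ℕ) (x : Fin (D.N n) → ℂ) :
    D.fam.ev i (D.vec n x) = ∑ j : Fin (D.N n), (D.fam.φ i (n, (j : ℕ)) : ℂ) * x j := by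
  rw [← Fam.evX_J, vec, map_sum, map_sum]
  refine Finset.sum_congr rfl fun j _ => ?_
  rw [Fam.evX_J, Fam.ev_single]

private theorem vec_apply (n : ℕ) (x : Fin (D.N n) → ℂ) (p : ℕ × ℕ) :
    D.vec n x p = ∑ j : Fin (D.N n), if (n, (j : ℕ)) = p then x j else 0 := by
  classical
  rw [vec, Finsupp.finsetSum_apply]
  refine Finset.sum_congr rfl fun j _ => ?_
  rw [Finsupp.single_apply]

private theorem vec_apply_self (n : ℕ) (x : Fin (D.N n) → ℂ) (j : Fin (D.N n)) :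
    D.vec n x (n, (j : ℕ)) = x j := by
  rw [vec_apply, Finset.sum_eq_single j]
  · rw [if_pos rfl]
  · intro b _ hb
    rw [if_neg]
    intro h
    exact hb (Fin.ext (Prod.mk.inj h).2)
  · intro h
    exact absurd (Finset.mem_univ j) h

private theorem vec_apply_ne (n : ℕ) (x : Fin (D.N n) → ℂ) (m j : ℕ) (h : m ≠ n) :
    D.vec n x (m, j) = 0 := by
  rw [vec_apply]
  refine Finset.sum_eq_zero fun i _ => ?_
  rw [if_neg]
  intro h'
  exact h (Prod.mk.inj h').1.symm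

private def lev (n : ℕ) : Finset (ℕ × ℕ) :=
  Finset.univ.map ⟨fun j : Fin (D.N n) => (n, (j : ℕ)), fun a b h => Fin.ext (Prod.mk.inj h).2⟩

private theorem mem_lev (n m j : ℕ) : (m, j) ∈ D.lev n ↔ m = n ∧ j < D.N n := by
  simp only [lev, Finset.mem_map, Finset.mem_univ, true_and, Function.Embedding.coeFn_mk,
    Prod.mk.injEq]
  constructor
  · rintro ⟨a, rfl, rfl⟩
    exact ⟨rfl, a.2⟩
  · rintro ⟨rfl, h⟩
    exact ⟨⟨j, h⟩, rfl, rfl⟩

private theorem supp_vec (n : ℕ) (x : Fin (D.N n) → ℂ) : (D.vec n x).support ⊆ D.lev n := by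
  rintro ⟨m, j⟩ h
  rw [mem_lev]
  rw [Finsupp.mem_support_iff, vec_apply] at h
  obtain ⟨i, -, hi⟩ := Finset.exists_ne_zero_of_sum_ne_zero h
  have h1 : (n, (i : ℕ)) = (m, j) := by
    by_contra hcon
    rw [if_neg hcon] at hi
    exact hi rfl
  obtain ⟨rfl, rfl⟩ := Prod.mk.inj h1
  exact ⟨rfl, i.2⟩

private theorem sum_lev (n : ℕ) (f : ℕ × ℕ → ℝ) :
    ∑ p ∈ D.lev n, f p = ∑ j : Fin (D.N n), f (n, (j : ℕ)) := by
  rw [lev, Finset.sum_map]
  rfl

private theorem a_pos (n : ℕ) : 0 < D.a n := by linarith [D.ha n]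

private theorem ab (n : ℕ) : D.a n ≤ D.b n := by
  have h1 := D.ha n
  have h2 := D.hab n
  nlinarith [mul_nonneg (by linarith : (0:ℝ) ≤ D.a n - 2) (by linarith : (0:ℝ) ≤ D.a n), sq_nonneg (D.a n)]

private theorem b_pos (n : ℕ) : 0 < D.b n := lt_of_lt_of_le (D.a_pos n) (D.ab n)

private theorem b_one (n : ℕ) : 1 ≤ D.b n := by linarith [D.ha n, D.ab n]

private theorem a_succ (n : ℕ) : D.a n ≤ D.a (n + 1) := by
  linarith [D.ha n, D.ha2 n]

private theorem ab_succ (n : ℕ) : D.a n ≤ D.b (n + 1) := le_trans (D.a_succ n) (D.ab (n + 1))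

private theorem N_pos (n : ℕ) : (0:ℝ) < D.N n := by
  have := D.hN n
  exact_mod_cast this

private theorem sN_pos (n : ℕ) : 0 < √(D.N n : ℝ) := Real.sqrt_pos.mpr (D.N_pos n)

private theorem sN_mul (n : ℕ) : √(D.N n : ℝ) * √(D.N n : ℝ) = D.N n :=
  Real.mul_self_sqrt (D.N_pos n).le

private theorem abs_sign {s : ℝ} (h : s = 1 ∨ s = -1) : |s| = 1 := by
  rcases h with rfl | rfl <;> norm_num

private theorem phi_le (i : (ℕ × ℕ) ⊕ (ℕ × ℕ)) (n j : ℕ) :
    |D.phi i (n, j)| ≤ D.b n / √(D.N n) := by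
  have hb := (D.b_pos n).le
  have hs := D.sN_pos n
  rcases i with ⟨m, h⟩ | ⟨m, k⟩
  · rw [phi_inl]
    split_ifs with h1
    · obtain ⟨rfl, -, -⟩ := h1
      rw [abs_div, abs_mul, abs_sign (D.su n h j), abs_of_pos (D.b_pos n), abs_of_pos hs, mul_one]
    · rw [abs_zero]
      positivity
  · rw [phi_inr]
    split_ifs with h1 h2
    · obtain ⟨rfl, -, -⟩ := h1
      rw [abs_div, abs_mul, abs_sign (D.sv n k j), abs_of_pos (D.a_pos n), abs_of_pos hs, mul_one]
      exact div_le_div_of_nonneg_right (D.ab n) hs.le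
    · obtain ⟨rfl, -, -⟩ := h2
      rw [abs_div, abs_mul, abs_sign (D.sz m k j), abs_of_pos (D.a_pos m), abs_of_pos hs, mul_one]
      exact div_le_div_of_nonneg_right (D.ab_succ m) hs.le
    · rw [abs_zero]
      positivity

private theorem cs_le {n : ℕ} (x : Fin n → ℂ) :
    ∑ j, ‖x j‖ ≤ √(n : ℝ) * √(∑ j, ‖x j‖ ^ 2) := by
  have h := Finset.sum_mul_sq_le_sq_mul_sq Finset.univ (fun _ : Fin n => (1:ℝ)) (fun j => ‖x j‖)
  simp only [one_mul, one_pow, Finset.sum_const, Finset.card_univ, Fintype.card_fin,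
    nsmul_eq_mul, mul_one] at h
  rw [← Real.sqrt_mul (Nat.cast_nonneg n)]
  exact Real.le_sqrt_of_sq_le h

/-- The unit vectors of the levels have norm at most one. -/
theorem norm_single_le (n j : ℕ) (hj : j < D.N n) :
    ‖D.fam.J (Finsupp.single (n, j) 1)‖ ≤ 1 := by
  refine D.fam.norm_J_le zero_le_one {(n, j)} ?_ ?_ ?_
  · exact Finsupp.support_single_subset
  · simp
  · intro i
    rw [Fam.ev_single, mul_one, Complex.norm_real, Real.norm_eq_abs]
    refine le_trans (D.phi_le i n j) ?_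
    rw [div_le_one (D.sN_pos n)]
    exact D.hbN n

/-- On level `n` the norm is at most `b_n` times the Hilbert norm. -/
theorem norm_vec_le (n : ℕ) (x : Fin (D.N n) → ℂ) :
    ‖D.fam.J (D.vec n x)‖ ≤ D.b n * √(∑ j, ‖x j‖ ^ 2) := by
  have hb := (D.b_pos n).le
  refine D.fam.norm_J_le (mul_nonneg hb (Real.sqrt_nonneg _)) (D.lev n) (D.supp_vec n x) ?_ ?_
  · rw [sum_lev, mul_pow, Real.sq_sqrt (Finset.sum_nonneg fun j _ => sq_nonneg _)]
    simp only [vec_apply_self]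
    have h1 : 0 ≤ ∑ j, ‖x j‖ ^ 2 := Finset.sum_nonneg fun j _ => sq_nonneg _
    have h2 : 1 ≤ D.b n ^ 2 := one_le_pow₀ (D.b_one n)
    nlinarith
  · intro i
    rw [ev_vec]
    calc ‖∑ j : Fin (D.N n), (D.fam.φ i (n, (j : ℕ)) : ℂ) * x j‖
        ≤ ∑ j : Fin (D.N n), ‖(D.fam.φ i (n, (j : ℕ)) : ℂ) * x j‖ := norm_sum_le _ _
      _ ≤ ∑ j : Fin (D.N n), D.b n / √(D.N n) * ‖x j‖ := by
          refine Finset.sum_le_sum fun j _ => ?_
          rw [norm_mul, Complex.norm_real, Real.norm_eq_abs]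
          exact mul_le_mul_of_nonneg_right (D.phi_le i n j) (norm_nonneg _)
      _ = D.b n / √(D.N n) * ∑ j : Fin (D.N n), ‖x j‖ := by rw [Finset.mul_sum]
      _ ≤ D.b n / √(D.N n) * (√(D.N n : ℝ) * √(∑ j, ‖x j‖ ^ 2)) := by
          refine mul_le_mul_of_nonneg_left (cs_le x) ?_
          exact div_nonneg hb (D.sN_pos n).le
      _ = D.b n * √(∑ j, ‖x j‖ ^ 2) := by
          have := (D.sN_pos n).ne'
          field_simp

private noncomputable def Tn (n : ℕ) (x : D.fam.X) : D.fam.X :=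
  D.fam.J (D.vec n (fun j => D.fam.coord (n, (j : ℕ)) x / (D.a n : ℂ)))

private theorem Tn_eq (n : ℕ) (x : D.fam.X) :
    D.Tn n x = ∑ j : Fin (D.N n), (D.fam.coord (n, (j : ℕ)) x / (D.a n : ℂ)) •
      D.fam.J (Finsupp.single (n, (j : ℕ)) 1) := by
  rw [Tn, vec, map_sum]
  refine Finset.sum_congr rfl fun j _ => ?_
  rw [← map_smul, Finsupp.smul_single, smul_eq_mul, mul_one]

private theorem Tn_norm (n : ℕ) (x : D.fam.X) : ‖D.Tn n x‖ ≤ ‖x‖ := by
  have ha := D.a_pos n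
  have ha1 : 1 ≤ D.a n := by linarith [D.ha n]
  have hx := norm_nonneg x
  have hsum : ∑ j : Fin (D.N n), ‖D.fam.coord (n, (j : ℕ)) x‖ ^ 2 ≤ ‖x‖ ^ 2 := by
    have := D.fam.sum_coord_sq_le x (D.lev n)
    rwa [sum_lev] at this
  have hl2 : √(∑ j : Fin (D.N n), ‖D.fam.coord (n, (j : ℕ)) x‖ ^ 2) ≤ ‖x‖ :=
    Real.sqrt_le_iff.mpr ⟨hx, hsum⟩
  -- the linking functionals
  have hlink : ∀ (r : ℝ) (s : ℕ → ℝ), 0 ≤ r → r ≤ D.a n → (∀ j, s j = 1 ∨ s j = -1) →
      ‖∑ j : Fin (D.N n), ((r * s j / √(D.N n) : ℝ) : ℂ) *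
        (D.fam.coord (n, (j : ℕ)) x / (D.a n : ℂ))‖ ≤ ‖x‖ := by
    intro r s hr hra hs
    calc ‖∑ j : Fin (D.N n), ((r * s j / √(D.N n) : ℝ) : ℂ) *
          (D.fam.coord (n, (j : ℕ)) x / (D.a n : ℂ))‖
        ≤ ∑ j : Fin (D.N n), ‖((r * s j / √(D.N n) : ℝ) : ℂ) *
          (D.fam.coord (n, (j : ℕ)) x / (D.a n : ℂ))‖ := norm_sum_le _ _
      _ ≤ ∑ j : Fin (D.N n), (1 / √(D.N n)) * ‖D.fam.coord (n, (j : ℕ)) x‖ := by
          refine Finset.sum_le_sum fun j _ => ?_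
          rw [norm_mul, Complex.norm_real, Real.norm_eq_abs, norm_div, Complex.norm_real,
            Real.norm_eq_abs, abs_div, abs_mul, abs_sign (hs j), abs_of_nonneg hr,
            abs_of_pos ha, abs_of_pos (D.sN_pos n), mul_one]
          have h1 : r / √(D.N n) * (‖D.fam.coord (n, (j : ℕ)) x‖ / D.a n) =
              (r / D.a n) * ((1 / √(D.N n)) * ‖D.fam.coord (n, (j : ℕ)) x‖) := by
            have := (D.sN_pos n).ne'
            field_simp
          rw [h1]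
          have h2 : r / D.a n ≤ 1 := (div_le_one ha).mpr hra
          have h3 : 0 ≤ (1 / √(D.N n)) * ‖D.fam.coord (n, (j : ℕ)) x‖ :=
            mul_nonneg (by positivity) (norm_nonneg _)
          calc r / D.a n * ((1 / √(D.N n)) * ‖D.fam.coord (n, (j : ℕ)) x‖)
              ≤ 1 * ((1 / √(D.N n)) * ‖D.fam.coord (n, (j : ℕ)) x‖) :=
                mul_le_mul_of_nonneg_right h2 h3
            _ = _ := one_mul _
      _ = (1 / √(D.N n)) * ∑ j : Fin (D.N n), ‖D.fam.coord (n, (j : ℕ)) x‖ := by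
          rw [Finset.mul_sum]
      _ ≤ (1 / √(D.N n)) * (√(D.N n : ℝ) *
          √(∑ j : Fin (D.N n), ‖D.fam.coord (n, (j : ℕ)) x‖ ^ 2)) := by
          refine mul_le_mul_of_nonneg_left (cs_le _) (by positivity)
      _ = √(∑ j : Fin (D.N n), ‖D.fam.coord (n, (j : ℕ)) x‖ ^ 2) := by
          have := (D.sN_pos n).ne'
          field_simp
      _ ≤ ‖x‖ := hl2
  refine D.fam.norm_J_le hx (D.lev n) (D.supp_vec n _) ?_ ?_
  · rw [sum_lev]
    simp only [vec_apply_self]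
    refine le_trans (Finset.sum_le_sum fun j _ => ?_) hsum
    rw [norm_div, Complex.norm_real, Real.norm_eq_abs, abs_of_pos ha]
    refine pow_le_pow_left₀ (by positivity) ?_ 2
    exact div_le_self (norm_nonneg _) ha1
  · intro i
    rw [ev_vec]
    rcases i with ⟨m, h⟩ | ⟨m, k⟩
    · by_cases hmn : n = m
      · subst hmn
        have h1 : ∑ j : Fin (D.N n), (D.fam.φ (Sum.inl (n, h)) (n, (j : ℕ)) : ℂ) *
            (D.fam.coord (n, (j : ℕ)) x / (D.a n : ℂ)) =
            D.fam.evX (Sum.inl (n, h)) x / (D.a n : ℂ) := by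
          rw [D.fam.evX_eq_sum (Sum.inl (n, h)) (D.lev n) ?_ x]
          · rw [lev, Finset.sum_map, Finset.sum_div]
            refine Finset.sum_congr rfl fun j _ => ?_
            simp only [Function.Embedding.coeFn_mk]
            ring
          · rintro ⟨m, j⟩ hj
            rw [mem_lev] at hj
            change D.phi (Sum.inl (n, h)) (m, j) = 0
            rw [phi_inl, if_neg]
            rintro ⟨h1, -, h2⟩
            exact hj ⟨h1, h2⟩
        rw [h1, norm_div, Complex.norm_real, Real.norm_eq_abs, abs_of_pos ha]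
        exact le_trans (div_le_self (norm_nonneg _) ha1) (D.fam.norm_evX_le _ x)
      · have h1 : ∑ j : Fin (D.N n), (D.fam.φ (Sum.inl (m, h)) (n, (j : ℕ)) : ℂ) *
            (D.fam.coord (n, (j : ℕ)) x / (D.a n : ℂ)) = 0 := by
          refine Finset.sum_eq_zero fun j _ => ?_
          have : D.fam.φ (Sum.inl (m, h)) (n, (j : ℕ)) = 0 := by
            change D.phi (Sum.inl (m, h)) (n, (j : ℕ)) = 0
            rw [phi_inl, if_neg]
            rintro ⟨h1, -, -⟩
            exact hmn h1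
          rw [this]
          simp
        rw [h1, norm_zero]
        exact hx
    · by_cases h1 : n = m ∧ k < D.L m
      · obtain ⟨rfl, hk⟩ := h1
        have h2 : ∀ j : Fin (D.N n), D.fam.φ (Sum.inr (n, k)) (n, (j : ℕ)) =
            D.a n * D.v n k j / √(D.N n) := by
          intro j
          change D.phi (Sum.inr (n, k)) (n, (j : ℕ)) = _
          rw [phi_inr, if_pos ⟨rfl, hk, j.2⟩]
        simp only [h2]
        exact hlink (D.a n) (fun j => D.v n k j) ha.le le_rfl (fun j => D.sv n k j)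
      · by_cases h3 : n = m + 1 ∧ k < D.L m
        · obtain ⟨rfl, hk⟩ := h3
          have h2 : ∀ j : Fin (D.N (m + 1)), D.fam.φ (Sum.inr (m, k)) (m + 1, (j : ℕ)) =
              D.a m * D.z m k j / √(D.N (m + 1)) := by
            intro j
            change D.phi (Sum.inr (m, k)) (m + 1, (j : ℕ)) = _
            rw [phi_inr, if_neg (fun h => h1 ⟨h.1, h.2.1⟩), if_pos ⟨rfl, hk, j.2⟩]
          simp only [h2]
          exact hlink (D.a m) (fun j => D.z m k j) (D.a_pos m).le (D.a_succ m)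
            (fun j => D.sz m k j)
        · have h2 : ∀ j : Fin (D.N n), D.fam.φ (Sum.inr (m, k)) (n, (j : ℕ)) = 0 := by
            intro j
            change D.phi (Sum.inr (m, k)) (n, (j : ℕ)) = _
            rw [phi_inr, if_neg (fun h => h1 ⟨h.1, h.2.1⟩), if_neg (fun h => h3 ⟨h.1, h.2.1⟩)]
          simp only [h2]
          simpa using hx

/-- `P_n / a_n` is a finite rank operator of norm at most one with normalised trace `1 / a_n`.
(`T x = (1 / a_n) ∑_{j < N_n} coord (n,j) x • J e_{(n,j)}`.) -/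
theorem exists_T (n : ℕ) : ∃ T : D.fam.X →L[ℂ] D.fam.X,
    FiniteDimensional ℂ (LinearMap.range (T : D.fam.X →ₗ[ℂ] D.fam.X)) ∧ ‖T‖ ≤ 1 ∧
      D.lam n T = 1 / (D.a n : ℂ) := by
  have ha := D.a_pos n
  have haC : (D.a n : ℂ) ≠ 0 := by exact_mod_cast ha.ne'
  let Tl : D.fam.X →ₗ[ℂ] D.fam.X :=
    { toFun := D.Tn n
      map_add' := by
        intro x y
        rw [Tn_eq, Tn_eq, Tn_eq, ← Finset.sum_add_distrib]
        refine Finset.sum_congr rfl fun j _ => ?_
        rw [map_add, add_div, add_smul]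
      map_smul' := by
        intro r x
        rw [Tn_eq, Tn_eq, Finset.smul_sum]
        refine Finset.sum_congr rfl fun j _ => ?_
        rw [map_smul, smul_smul, smul_eq_mul, RingHom.id_apply, mul_div_assoc] }
  let T : D.fam.X →L[ℂ] D.fam.X := Tl.mkContinuous 1 (fun x => by
    rw [one_mul]
    exact D.Tn_norm n x)
  have hT : ∀ x, T x = D.Tn n x := fun x => rfl
  refine ⟨T, ?_, ?_, ?_⟩
  · have hle : LinearMap.range (T : D.fam.X →ₗ[ℂ] D.fam.X) ≤ Submodule.span ℂ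
        (Set.range fun j : Fin (D.N n) => D.fam.J (Finsupp.single (n, (j : ℕ)) 1)) := by
      rintro y ⟨x, rfl⟩
      change T x ∈ _
      rw [hT, Tn_eq]
      refine Submodule.sum_mem _ fun j _ => Submodule.smul_mem _ _ ?_
      exact Submodule.subset_span ⟨j, rfl⟩
    have : FiniteDimensional ℂ (Submodule.span ℂ
        (Set.range fun j : Fin (D.N n) => D.fam.J (Finsupp.single (n, (j : ℕ)) 1))) :=
      FiniteDimensional.span_of_finite ℂ (Set.finite_range _)
    exact Submodule.finiteDimensional_of_le hle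
  · exact LinearMap.mkContinuous_norm_le _ zero_le_one _
  · rw [lam, Fam.lam]
    have h1 : ∀ j : Fin (D.N n), D.fam.coord (n, (j : ℕ))
        (T (D.fam.J (Finsupp.single (n, (j : ℕ)) 1))) = 1 / (D.a n : ℂ) := by
      intro j
      rw [hT, Tn, Fam.coord_J, vec_apply_self, Fam.coord_J, Finsupp.single_eq_same]
    simp only [h1]
    rw [Finset.sum_const, Finset.card_univ, Fintype.card_fin, nsmul_eq_mul]
    have hN : (D.N n : ℂ) ≠ 0 := by
      have := D.hN n
      exact_mod_cast (by omega : D.N n ≠ 0)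
    field_simp

/-- The vector `y_k = (f_k - g_k) / a_n`, `k < L n`. -/
noncomputable def yv (n k : ℕ) : ℕ × ℕ →₀ ℂ :=
  D.vec n (fun j => ((D.v n k j / (√(D.N n) * D.a n) : ℝ) : ℂ)) -
    D.vec (n + 1) (fun j => ((D.z n k j / (√(D.N (n + 1)) * D.a n) : ℝ) : ℂ))

private theorem pair_eq {N : ℕ} (hN : 0 < N) (r a : ℝ) (s t : Fin N → ℝ) :
    ∑ j, (r * s j / √(N : ℝ)) * (t j / (√(N : ℝ) * a)) = r / a * ((∑ j, s j * t j) / N) := by
  have hN' : (0:ℝ) < N := by exact_mod_cast hN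
  have h2 : √(N : ℝ) * √(N : ℝ) = N := Real.mul_self_sqrt hN'.le
  rw [Finset.sum_div, Finset.mul_sum]
  refine Finset.sum_congr rfl fun j _ => ?_
  obtain ⟨q, hq⟩ : ∃ q, q = √(N : ℝ) := ⟨_, rfl⟩
  rw [← hq] at h2 ⊢
  rw [← h2]
  ring

private theorem pair_le {N : ℕ} (hN : 0 < N) {r a c : ℝ} (hr : 0 ≤ r) (ha : 0 < a)
    (hrc : r * c ≤ 1) (s t : Fin N → ℝ) (h : |∑ j, s j * t j| ≤ c * N) :
    |∑ j, (r * s j / √(N : ℝ)) * (t j / (√(N : ℝ) * a))| ≤ 1 / a := by
  have hN' : (0:ℝ) < N := by exact_mod_cast hN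
  rw [pair_eq hN, abs_mul, abs_div, abs_div, abs_of_nonneg hr, abs_of_pos ha, abs_of_pos hN']
  have h1 : |∑ j, s j * t j| / N ≤ c := by
    rw [div_le_iff₀ hN']
    exact h
  calc r / a * (|∑ j, s j * t j| / N) ≤ r / a * c :=
        mul_le_mul_of_nonneg_left h1 (div_nonneg hr ha.le)
    _ = (r * c) / a := by ring
    _ ≤ 1 / a := div_le_div_of_nonneg_right hrc ha.le

private theorem ev_yv (i : (ℕ × ℕ) ⊕ (ℕ × ℕ)) (n k : ℕ) : D.fam.ev i (D.yv n k) =
    ((∑ j : Fin (D.N n), D.phi i (n, (j : ℕ)) * (D.v n k j / (√(D.N n) * D.a n)) -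
      ∑ j : Fin (D.N (n + 1)), D.phi i (n + 1, (j : ℕ)) *
        (D.z n k j / (√(D.N (n + 1)) * D.a n)) : ℝ) : ℂ) := by
  rw [yv, ← Fam.evX_J, map_sub, map_sub, Fam.evX_J, Fam.evX_J, ev_vec, ev_vec]
  push_cast
  rfl

private theorem ac (n : ℕ) : D.a n * D.c n ≤ 1 :=
  le_trans (mul_le_mul_of_nonneg_right (D.ab n) (D.hc0 n).le) (D.hbc n)

private theorem ac_succ (n : ℕ) : D.a n * D.c (n + 1) ≤ 1 :=
  le_trans (mul_le_mul_of_nonneg_right (D.ab_succ n) (D.hc0 (n + 1)).le) (D.hbc (n + 1))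

private theorem zero_le_inv (n : ℕ) : (0:ℝ) ≤ 1 / D.a n := (one_div_pos.mpr (D.a_pos n)).le

private theorem yv_P (i : (ℕ × ℕ) ⊕ (ℕ × ℕ)) (n k : ℕ) (hk : k < D.L n)
    (hi : i ≠ Sum.inr (n, k)) :
    |∑ j : Fin (D.N n), D.phi i (n, (j : ℕ)) * (D.v n k j / (√(D.N n) * D.a n))| ≤
      1 / D.a n := by
  have ha := D.a_pos n
  have hN0 : 0 < D.N n := D.hN n
  have hzero : (∀ j : Fin (D.N n), D.phi i (n, (j : ℕ)) = 0) →
      |∑ j : Fin (D.N n), D.phi i (n, (j : ℕ)) * (D.v n k j / (√(D.N n) * D.a n))| ≤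
      1 / D.a n := by
    intro h
    simp only [h, zero_mul, Finset.sum_const_zero, abs_zero]
    exact D.zero_le_inv n
  rcases i with ⟨m, h⟩ | ⟨m, k'⟩
  · by_cases h1 : n = m ∧ h < D.M m
    · obtain ⟨rfl, hh⟩ := h1
      have h2 : ∀ j : Fin (D.N n), D.phi (Sum.inl (n, h)) (n, (j : ℕ)) =
          D.b n * D.u n h j / √(D.N n) := by
        intro j
        rw [phi_inl, if_pos ⟨rfl, hh, j.2⟩]
      simp only [h2]
      exact pair_le hN0 (D.b_pos n).le ha (D.hbc n) (fun j => D.u n h j) (fun j => D.v n k j)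
        (D.cuv n h k hh hk)
    · refine hzero fun j => ?_
      rw [phi_inl, if_neg (fun h' => h1 ⟨h'.1, h'.2.1⟩)]
  · by_cases h1 : n = m ∧ k' < D.L m
    · obtain ⟨rfl, hk'⟩ := h1
      have h2 : ∀ j : Fin (D.N n), D.phi (Sum.inr (n, k')) (n, (j : ℕ)) =
          D.a n * D.v n k' j / √(D.N n) := by
        intro j
        rw [phi_inr, if_pos ⟨rfl, hk', j.2⟩]
      simp only [h2]
      refine pair_le hN0 ha.le ha (D.ac n) (fun j => D.v n k' j) (fun j => D.v n k j)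
        (D.cvv n k' k hk' hk ?_)
      rintro rfl
      exact hi rfl
    · by_cases h3 : n = m + 1 ∧ k' < D.L m
      · obtain ⟨rfl, hk'⟩ := h3
        have h2 : ∀ j : Fin (D.N (m + 1)), D.phi (Sum.inr (m, k')) (m + 1, (j : ℕ)) =
            D.a m * D.z m k' j / √(D.N (m + 1)) := by
          intro j
          rw [phi_inr, if_neg (fun h => h1 ⟨h.1, h.2.1⟩), if_pos ⟨rfl, hk', j.2⟩]
        simp only [h2]
        refine pair_le hN0 (D.a_pos m).le ha (D.ac_succ m) (fun j => D.z m k' j)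
          (fun j => D.v (m + 1) k j) ?_
        have := D.cvz m k k' hk hk'
        simpa only [mul_comm] using this
      · refine hzero fun j => ?_
        rw [phi_inr, if_neg (fun h => h1 ⟨h.1, h.2.1⟩), if_neg (fun h => h3 ⟨h.1, h.2.1⟩)]

private theorem yv_Q (i : (ℕ × ℕ) ⊕ (ℕ × ℕ)) (n k : ℕ) (hk : k < D.L n)
    (hi : i ≠ Sum.inr (n, k)) :
    |∑ j : Fin (D.N (n + 1)), D.phi i (n + 1, (j : ℕ)) *
        (D.z n k j / (√(D.N (n + 1)) * D.a n))| ≤ 1 / D.a n := by
  have ha := D.a_pos n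
  have hN0 : 0 < D.N (n + 1) := D.hN (n + 1)
  have hzero : (∀ j : Fin (D.N (n + 1)), D.phi i (n + 1, (j : ℕ)) = 0) →
      |∑ j : Fin (D.N (n + 1)), D.phi i (n + 1, (j : ℕ)) *
        (D.z n k j / (√(D.N (n + 1)) * D.a n))| ≤ 1 / D.a n := by
    intro h
    simp only [h, zero_mul, Finset.sum_const_zero, abs_zero]
    exact D.zero_le_inv n
  rcases i with ⟨m, h⟩ | ⟨m, k'⟩
  · by_cases h1 : n + 1 = m ∧ h < D.M m
    · obtain ⟨rfl, hh⟩ := h1
      have h2 : ∀ j : Fin (D.N (n + 1)), D.phi (Sum.inl (n + 1, h)) (n + 1, (j : ℕ)) =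
          D.b (n + 1) * D.u (n + 1) h j / √(D.N (n + 1)) := by
        intro j
        rw [phi_inl, if_pos ⟨rfl, hh, j.2⟩]
      simp only [h2]
      exact pair_le hN0 (D.b_pos (n + 1)).le ha (D.hbc (n + 1)) (fun j => D.u (n + 1) h j)
        (fun j => D.z n k j) (D.cuz n h k hh hk)
    · refine hzero fun j => ?_
      rw [phi_inl, if_neg (fun h' => h1 ⟨h'.1, h'.2.1⟩)]
  · by_cases h1 : n + 1 = m ∧ k' < D.L m
    · obtain ⟨rfl, hk'⟩ := h1
      have h2 : ∀ j : Fin (D.N (n + 1)), D.phi (Sum.inr (n + 1, k')) (n + 1, (j : ℕ)) =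
          D.a (n + 1) * D.v (n + 1) k' j / √(D.N (n + 1)) := by
        intro j
        rw [phi_inr, if_pos ⟨rfl, hk', j.2⟩]
      simp only [h2]
      exact pair_le hN0 (D.a_pos (n + 1)).le ha (D.ac (n + 1)) (fun j => D.v (n + 1) k' j)
        (fun j => D.z n k j) (D.cvz n k' k hk' hk)
    · by_cases h3 : n + 1 = m + 1 ∧ k' < D.L m
      · obtain ⟨h4, hk'⟩ := h3
        have h5 : n = m := by omega
        subst h5
        have h2 : ∀ j : Fin (D.N (n + 1)), D.phi (Sum.inr (n, k')) (n + 1, (j : ℕ)) =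
            D.a n * D.z n k' j / √(D.N (n + 1)) := by
          intro j
          rw [phi_inr, if_neg (fun h => h1 ⟨h.1, h.2.1⟩), if_pos ⟨rfl, hk', j.2⟩]
        simp only [h2]
        refine pair_le hN0 ha.le ha (D.ac_succ n) (fun j => D.z n k' j)
          (fun j => D.z n k j) (D.czz n k' k hk' hk ?_)
        rintro rfl
        exact hi rfl
      · refine hzero fun j => ?_
        rw [phi_inr, if_neg (fun h => h1 ⟨h.1, h.2.1⟩), if_neg (fun h => h3 ⟨h.1, h.2.1⟩)]

private theorem sum_sign {N : ℕ} (s : Fin N → ℝ) (hs : ∀ j, s j = 1 ∨ s j = -1) :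
    ∑ j, s j * s j = N := by
  have : ∀ j, s j * s j = 1 := by
    intro j
    rcases hs j with h | h <;> rw [h] <;> norm_num
  simp [this]

theorem norm_yv_le (n k : ℕ) (hk : k < D.L n) : ‖D.fam.J (D.yv n k)‖ ≤ 2 / D.a n := by
  have ha := D.a_pos n
  have h2a : (0:ℝ) ≤ 2 / D.a n := (div_pos two_pos ha).le
  refine D.fam.norm_J_le h2a (D.lev n ∪ D.lev (n + 1)) ?_ ?_ ?_
  · intro p hp
    rw [Finset.mem_union]
    rw [yv, Finsupp.mem_support_iff, Finsupp.sub_apply] at hp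
    by_contra hcon
    push Not at hcon
    apply hp
    have h1 : D.vec n (fun j => ((D.v n k j / (√(D.N n) * D.a n) : ℝ) : ℂ)) p = 0 := by
      by_contra h
      exact hcon.1 (D.supp_vec n _ (Finsupp.mem_support_iff.mpr h))
    have h2 : D.vec (n + 1) (fun j => ((D.z n k j / (√(D.N (n + 1)) * D.a n) : ℝ) : ℂ)) p = 0 := by
      by_contra h
      exact hcon.2 (D.supp_vec (n + 1) _ (Finsupp.mem_support_iff.mpr h))
    rw [h1, h2, sub_zero]
  · have hdisj : Disjoint (D.lev n) (D.lev (n + 1)) := by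
      rw [Finset.disjoint_left]
      rintro ⟨m, j⟩ h1 h2
      rw [mem_lev] at h1 h2
      omega
    rw [Finset.sum_union hdisj, sum_lev, sum_lev]
    have e1 : ∀ j : Fin (D.N n), ‖D.yv n k (n, (j : ℕ))‖ ^ 2 =
        (1 / D.a n ^ 2) * ((D.v n k j * D.v n k j) / D.N n) := by
      intro j
      rw [yv, Finsupp.sub_apply, vec_apply_self, vec_apply_ne _ _ _ _ _ (by omega), sub_zero,
        Complex.norm_real, Real.norm_eq_abs, sq_abs, div_pow, mul_pow, sq (√(D.N n : ℝ)),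
        D.sN_mul n]
      have h1 := (D.N_pos n).ne'
      have h2 := ha.ne'
      field_simp
    have e2 : ∀ j : Fin (D.N (n + 1)), ‖D.yv n k (n + 1, (j : ℕ))‖ ^ 2 =
        (1 / D.a n ^ 2) * ((D.z n k j * D.z n k j) / D.N (n + 1)) := by
      intro j
      rw [yv, Finsupp.sub_apply, vec_apply_self, vec_apply_ne _ _ _ _ _ (by omega), zero_sub,
        norm_neg, Complex.norm_real, Real.norm_eq_abs, sq_abs, div_pow, mul_pow,
        sq (√(D.N (n + 1) : ℝ)), D.sN_mul (n + 1)]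
      have h1 := (D.N_pos (n + 1)).ne'
      have h2 := ha.ne'
      field_simp
    simp only [e1, e2]
    rw [← Finset.mul_sum, ← Finset.mul_sum, ← Finset.sum_div, ← Finset.sum_div,
      sum_sign _ (fun j => D.sv n k j), sum_sign _ (fun j => D.sz n k j),
      div_self (D.N_pos n).ne', div_self (D.N_pos (n + 1)).ne', div_pow]
    have : 0 < 1 / D.a n ^ 2 := by positivity
    have h4 : (2:ℝ) ^ 2 / D.a n ^ 2 = 4 * (1 / D.a n ^ 2) := by ring
    rw [h4]
    linarith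
  · intro i
    rw [ev_yv, Complex.norm_real, Real.norm_eq_abs]
    by_cases hi : i = Sum.inr (n, k)
    · subst hi
      have h1 : ∀ j : Fin (D.N n), D.phi (Sum.inr (n, k)) (n, (j : ℕ)) =
          D.a n * D.v n k j / √(D.N n) := by
        intro j
        rw [phi_inr, if_pos ⟨rfl, hk, j.2⟩]
      have h2 : ∀ j : Fin (D.N (n + 1)), D.phi (Sum.inr (n, k)) (n + 1, (j : ℕ)) =
          D.a n * D.z n k j / √(D.N (n + 1)) := by
        intro j
        rw [phi_inr, if_neg (fun h => by omega), if_pos ⟨rfl, hk, j.2⟩]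
      simp only [h1, h2]
      rw [pair_eq (D.hN n) (D.a n) (D.a n) (fun j => D.v n k j) (fun j => D.v n k j),
        pair_eq (D.hN (n + 1)) (D.a n) (D.a n) (fun j => D.z n k j) (fun j => D.z n k j),
        sum_sign _ (fun j => D.sv n k j), sum_sign _ (fun j => D.sz n k j),
        div_self (D.N_pos n).ne', div_self (D.N_pos (n + 1)).ne', sub_self, abs_zero]
      exact h2a
    · have h1 := D.yv_P i n k hk hi
      have h2 := D.yv_Q i n k hk hi
      refine le_trans (abs_sub _ _) ?_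
      have h3 : 2 / D.a n = 1 / D.a n + 1 / D.a n := by ring
      rw [h3]
      exact add_le_add h1 h2

end Chain

end HUC
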