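import Pool.Agent.Lib.MP_5c7eee_an.Defs

/-!
MP_5c7eee_an: the canonical maps of the space `X`: `J`, `coord`, `evX`.
-/

open scoped ENNReal

namespace HUC

variable {ι I : Type} (S : Fam ι I)

namespace Fam

theorem ev_add (i : I) (c d : ι →₀ ℂ) : S.ev i (c + d) = S.ev i c + S.ev i d := by
  unfold ev
  exact Finsupp.sum_add_index' (fun _ => by simp) (fun _ _ _ => by ring)

theorem ev_smul (i : I) (r : ℂ) (c : ι →₀ ℂ) : S.ev i (r • c) = r * S.ev i c := by
  unfold ev
  rw [Finsupp.sum_smul_index' (fun _ => by simp), Finsupp.mul_sum]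
  exact Finsupp.sum_congr fun _ _ => by simp only [smul_eq_mul]; ring

theorem ev_single (i : I) (j : ι) (x : ℂ) : S.ev i (Finsupp.single j x) = (S.φ i j : ℂ) * x := by
  unfold ev
  rw [Finsupp.sum_single_index (by simp)]

/-- For a finitely supported vector, the value of `ev i` as a sum over any finite set containing
the support. -/
theorem ev_eq_sum (i : I) (c : ι →₀ ℂ) (F : Finset ι) (hF : c.support ⊆ F) :
    S.ev i c = ∑ j ∈ F, (S.φ i j : ℂ) * c j := by
  unfold ev
  exact Finsupp.sum_of_support_subset _ hF _ (fun _ _ => by simp)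

theorem ev_finite (c : ι →₀ ℂ) : {i | S.ev i c ≠ 0}.Finite := by
  classical
  refine Set.Finite.subset (s := ⋃ j ∈ c.support, {i | S.φ i j ≠ 0})
    (Set.Finite.biUnion c.support.finite_toSet (fun j _ => S.fin j)) ?_
  intro i hi
  simp only [Set.mem_iUnion, exists_prop]
  by_contra hcon
  push Not at hcon
  apply hi
  unfold ev Finsupp.sum
  refine Finset.sum_eq_zero fun j hj => ?_
  have := hcon j hj
  have h0 : S.φ i j = 0 := by
    by_contra h1
    exact this h1
  simp [h0]

theorem memlp_two (c : ι →₀ ℂ) : Memℓp (fun j => c j : ι → ℂ) 2 := by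
  refine memℓp_gen ?_
  refine summable_of_hasFiniteSupport ?_
  refine Set.Finite.subset c.support.finite_toSet ?_
  intro j hj
  simp only [Function.mem_support, ne_eq] at hj
  simp only [Finset.mem_coe, Finsupp.mem_support_iff, ne_eq]
  intro h
  apply hj
  rw [h]
  simp

theorem memlp_top (c : ι →₀ ℂ) : Memℓp (fun i => S.ev i c : I → ℂ) ∞ := by
  refine memℓp_infty ?_
  have hfin : (Set.range fun i => ‖S.ev i c‖).Finite := by
    refine Set.Finite.subset ((S.ev_finite c).image (fun i => ‖S.ev i c‖) |>.union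
      (Set.finite_singleton (0 : ℝ))) ?_
    rintro _ ⟨i, rfl⟩
    by_cases h : S.ev i c = 0
    · right
      simp [h]
    · left
      exact ⟨i, h, rfl⟩
  exact hfin.bddAbove

/-- The point of the ambient space given by a finitely supported vector. -/
noncomputable def amb (c : ι →₀ ℂ) : Amb ι I := (⟨fun j => c j, memlp_two c⟩, ⟨fun i => S.ev i c, S.memlp_top c⟩)

theorem amb_mem_base (c : ι →₀ ℂ) : S.amb c ∈ S.base := ⟨c, fun _ => rfl, fun _ => rfl⟩

/-- The embedding of the finitely supported vectors into `X`. -/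
noncomputable def J : (ι →₀ ℂ) →ₗ[ℂ] S.X where
  toFun c := ⟨S.amb c, S.base.le_topologicalClosure (S.amb_mem_base c)⟩
  map_add' c d := by
    apply Subtype.ext
    refine Prod.ext ?_ ?_
    · apply lp.ext
      funext j
      rfl
    · apply lp.ext
      funext i
      exact S.ev_add i c d
  map_smul' r c := by
    apply Subtype.ext
    refine Prod.ext ?_ ?_
    · apply lp.ext
      funext j
      rfl
    · apply lp.ext
      funext i
      exact S.ev_smul i r c

theorem J_fst (c : ι →₀ ℂ) (j : ι) : (S.J c : Amb ι I).1 j = c j := rfl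

theorem J_snd (c : ι →₀ ℂ) (i : I) : (S.J c : Amb ι I).2 i = S.ev i c := rfl

/-- The `j`-th coordinate functional on `X`. -/
noncomputable def coord (j : ι) : S.X →L[ℂ] ℂ :=
  LinearMap.mkContinuous
    { toFun := fun x => (x : Amb ι I).1 j
      map_add' := fun x y => by simp
      map_smul' := fun r x => by simp } 1 (fun x => by
        rw [one_mul]
        exact (lp.norm_apply_le_norm (by norm_num) (x : Amb ι I).1 j).trans (norm_fst_le _))

/-- The functional `ev i` extended to `X`. -/
noncomputable def evX (i : I) : S.X →L[ℂ] ℂ :=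
  LinearMap.mkContinuous
    { toFun := fun x => (x : Amb ι I).2 i
      map_add' := fun x y => by simp
      map_smul' := fun r x => by simp } 1 (fun x => by
        rw [one_mul]
        exact (lp.norm_apply_le_norm (by norm_num) (x : Amb ι I).2 i).trans (norm_snd_le _))

theorem coord_apply (j : ι) (x : S.X) : S.coord j x = (x : Amb ι I).1 j := rfl

theorem evX_apply (i : I) (x : S.X) : S.evX i x = (x : Amb ι I).2 i := rfl

@[simp] theorem coord_J (j : ι) (c : ι →₀ ℂ) : S.coord j (S.J c) = c j := rfl

@[simp] theorem evX_J (i : I) (c : ι →₀ ℂ) : S.evX i (S.J c) = S.ev i c := rfl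

theorem norm_coord_le (j : ι) (x : S.X) : ‖S.coord j x‖ ≤ ‖x‖ :=
  (lp.norm_apply_le_norm (by norm_num) (x : Amb ι I).1 j).trans (norm_fst_le _)

theorem norm_evX_le (i : I) (x : S.X) : ‖S.evX i x‖ ≤ ‖x‖ :=
  (lp.norm_apply_le_norm (by norm_num) (x : Amb ι I).2 i).trans (norm_snd_le _)

end Fam

end HUC
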