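import Pool.Agent.Lib.MP_5c7eee_an.Space

/-!
MP_5c7eee_an: norm estimates in the space `X`.
-/

open scoped ENNReal

namespace HUC

variable {ι I : Type} (S : Fam ι I)

namespace Fam

/-- Upper bound for the norm of a finitely supported vector. -/
theorem norm_J_le {c : ι →₀ ℂ} {K : ℝ} (hK : 0 ≤ K) (F : Finset ι) (hF : c.support ⊆ F)
    (h2 : ∑ j ∈ F, ‖c j‖ ^ 2 ≤ K ^ 2) (hi : ∀ i, ‖S.ev i c‖ ≤ K) : ‖S.J c‖ ≤ K := by
  classical
  have hn : ‖S.J c‖ = ‖S.amb c‖ := rfl
  rw [hn, Prod.norm_def]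
  refine max_le ?_ ?_
  · refine lp.norm_le_of_forall_sum_le (by norm_num) hK fun s => ?_
    have e : ∀ j, ‖(S.amb c).1 j‖ ^ (2 : ℝ≥0∞).toReal = ‖c j‖ ^ 2 := by
      intro j
      have : (2 : ℝ≥0∞).toReal = ((2 : ℕ) : ℝ) := by norm_num
      rw [this, Real.rpow_natCast]
      rfl
    have eK : K ^ (2 : ℝ≥0∞).toReal = K ^ 2 := by
      have : (2 : ℝ≥0∞).toReal = ((2 : ℕ) : ℝ) := by norm_num
      rw [this, Real.rpow_natCast]
    rw [eK, Finset.sum_congr rfl fun j _ => e j]
    refine le_trans ?_ h2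
    have h1 : ∑ j ∈ s, ‖c j‖ ^ 2 ≤ ∑ j ∈ s ∪ F, ‖c j‖ ^ 2 :=
      Finset.sum_le_sum_of_subset_of_nonneg Finset.subset_union_left
        (fun _ _ _ => by positivity)
    refine h1.trans (le_of_eq ?_)
    symm
    refine Finset.sum_subset Finset.subset_union_right fun j _ hj => ?_
    have : c j = 0 := by
      by_contra h
      exact hj (hF (Finsupp.mem_support_iff.mpr h))
    simp [this]
  · exact lp.norm_le_of_forall_le hK fun i => hi i

/-- The `ℓ₂` norm is dominated by the norm of `X`. -/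
theorem sum_coord_sq_le (x : S.X) (F : Finset ι) : ∑ j ∈ F, ‖S.coord j x‖ ^ 2 ≤ ‖x‖ ^ 2 := by
  have h := lp.sum_rpow_le_norm_rpow (p := 2) (by norm_num) (x : Amb ι I).1 F
  have e2 : (2 : ℝ≥0∞).toReal = ((2 : ℕ) : ℝ) := by norm_num
  rw [e2] at h
  simp only [Real.rpow_natCast] at h
  refine le_trans h ?_
  have h3 : ‖(x : Amb ι I).1‖ ≤ ‖x‖ := norm_fst_le (x : Amb ι I)
  exact pow_le_pow_left₀ (norm_nonneg _) h3 2

/-- The finitely supported vectors are dense. -/
theorem exists_J_near (x : S.X) {ε : ℝ} (hε : 0 < ε) : ∃ c : ι →₀ ℂ, ‖x - S.J c‖ < ε := by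
  have hx : (x : Amb ι I) ∈ closure (S.base : Set (Amb ι I)) := x.2
  rw [Metric.mem_closure_iff] at hx
  obtain ⟨p, hp, hd⟩ := hx ε hε
  obtain ⟨c, hc1, hc2⟩ := hp
  refine ⟨c, ?_⟩
  have hpe : p = S.amb c := by
    refine Prod.ext ?_ ?_
    · apply lp.ext
      funext j
      exact hc1 j
    · apply lp.ext
      funext i
      exact hc2 i
  rw [dist_eq_norm, hpe] at hd
  exact hd

private theorem denseRange_J : DenseRange S.J := by
  rw [Metric.denseRange_iff]
  intro x ε hε
  obtain ⟨c, hc⟩ := S.exists_J_near x hε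
  exact ⟨c, by rw [dist_eq_norm]; exact hc⟩

/-- A finitely supported functional is the obvious combination of coordinates, on all of `X`. -/
theorem evX_eq_sum (i : I) (F : Finset ι) (hF : ∀ j, j ∉ F → S.φ i j = 0) (x : S.X) :
    S.evX i x = ∑ j ∈ F, (S.φ i j : ℂ) * S.coord j x := by
  classical
  have hcont : Continuous fun x : S.X => ∑ j ∈ F, (S.φ i j : ℂ) * S.coord j x :=
    continuous_finsetSum _ fun j _ => continuous_const.mul (S.coord j).continuous
  have h := S.denseRange_J.equalizer (S.evX i).continuous hcont (by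
    funext c
    simp only [Function.comp_apply, evX_J, coord_J]
    rw [S.ev_eq_sum i c (F ∪ c.support) Finset.subset_union_right]
    symm
    refine Finset.sum_subset Finset.subset_union_left fun j _ hj => ?_
    simp [hF j hj])
  exact congrFun h x

/-- `X` is complete. -/
theorem completeX : CompleteSpace S.X := by
  have h : IsClosed (S.X : Set (Amb ι I)) := S.base.isClosed_topologicalClosure
  exact h.completeSpace_coe

end Fam

end HUC
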