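import Pool.Agent.Lib.MP_5c7eee_an.Norms
import Pool.Agent.Lib.MP_5c7eee_an.CompactDiag
import Pool.Agent.Lib.MP_5c7eee_an.Neg.Tele

/-!
MP_5c7eee_an: the normalised traces of a compact operator are small.
-/

namespace HUC

namespace Chain

open Filter Topology

variable (D : Chain)

theorem a_pos (n : ℕ) : 0 < D.a n := by linarith [D.ha n]

theorem N_pos (n : ℕ) : 0 < (D.N n : ℝ) := by exact_mod_cast D.hN n

/-- The linking functional on `X` in coordinates. -/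
theorem evX_link (n k : ℕ) (hk : k < D.L n) (x : D.fam.X) :
    D.fam.evX (Sum.inr (n, k)) x =
      (D.a n : ℂ) * ((∑ j : Fin (D.N n), ((D.v n k j / √(D.N n) : ℝ) : ℂ) *
          D.fam.coord (n, (j : ℕ)) x) +
        ∑ j : Fin (D.N (n + 1)), ((D.z n k j / √(D.N (n + 1)) : ℝ) : ℂ) *
          D.fam.coord (n + 1, (j : ℕ)) x) := by
  classical
  set F₁ : Finset (ℕ × ℕ) := (Finset.range (D.N n)).image (fun j => (n, j)) with hF₁
  set F₂ : Finset (ℕ × ℕ) := (Finset.range (D.N (n + 1))).image (fun j => (n + 1, j)) with hF₂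
  have hdis : Disjoint F₁ F₂ := by
    rw [Finset.disjoint_left]
    intro p hp1 hp2
    rw [hF₁, Finset.mem_image] at hp1
    rw [hF₂, Finset.mem_image] at hp2
    obtain ⟨j, -, rfl⟩ := hp1
    obtain ⟨j', -, h⟩ := hp2
    have := congrArg Prod.fst h
    simp at this
  have h0 : ∀ p, p ∉ F₁ ∪ F₂ → D.fam.φ (Sum.inr (n, k)) p = 0 := by
    rintro ⟨m, j⟩ hp
    rw [Finset.notMem_union] at hp
    show D.phi (Sum.inr (n, k)) (m, j) = 0
    rw [phi_inr, if_neg, if_neg]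
    · rintro ⟨rfl, -, hj⟩
      exact hp.2 (Finset.mem_image.2 ⟨j, Finset.mem_range.2 hj, rfl⟩)
    · rintro ⟨rfl, -, hj⟩
      exact hp.1 (Finset.mem_image.2 ⟨j, Finset.mem_range.2 hj, rfl⟩)
  rw [D.fam.evX_eq_sum _ (F₁ ∪ F₂) h0 x, Finset.sum_union hdis, mul_add]
  congr 1
  · rw [hF₁, Finset.sum_image (fun a _ b _ h => (Prod.ext_iff.1 h).2), Finset.mul_sum,
      ← Fin.sum_univ_eq_sum_range
        (fun j => (D.fam.φ (Sum.inr (n, k)) (n, j) : ℂ) * D.fam.coord (n, j) x)]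
    refine Finset.sum_congr rfl fun j _ => ?_
    have h1 : D.fam.φ (Sum.inr (n, k)) (n, (j : ℕ)) = D.a n * D.v n k j / √(D.N n) := by
      show D.phi (Sum.inr (n, k)) (n, (j : ℕ)) = _
      rw [phi_inr, if_pos ⟨rfl, hk, j.2⟩]
    rw [h1]
    push_cast
    ring
  · rw [hF₂, Finset.sum_image (fun a _ b _ h => (Prod.ext_iff.1 h).2), Finset.mul_sum,
      ← Fin.sum_univ_eq_sum_range
        (fun j => (D.fam.φ (Sum.inr (n, k)) (n + 1, j) : ℂ) * D.fam.coord (n + 1, j) x)]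
    refine Finset.sum_congr rfl fun j _ => ?_
    have h1 : D.fam.φ (Sum.inr (n, k)) (n + 1, (j : ℕ)) = D.a n * D.z n k j / √(D.N (n + 1)) := by
      show D.phi (Sum.inr (n, k)) (n + 1, (j : ℕ)) = _
      rw [phi_inr, if_neg (by rintro ⟨h, -⟩; omega), if_pos ⟨rfl, hk, j.2⟩]
    rw [h1]
    push_cast
    ring

/-- `A` on a vector of level `n`. -/
theorem coord_vec (A : D.fam.X →L[ℂ] D.fam.X) (n : ℕ) (x : Fin (D.N n) → ℂ) (p : ℕ × ℕ) :
    D.fam.coord p (A (D.fam.J (D.vec n x))) =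
      ∑ j : Fin (D.N n), D.fam.coord p (A (D.fam.J (Finsupp.single (n, (j : ℕ)) 1))) * x j := by
  unfold vec
  rw [map_sum, map_sum, map_sum]
  refine Finset.sum_congr rfl fun j _ => ?_
  have h1 : Finsupp.single (n, (j : ℕ)) (x j) = x j • Finsupp.single (n, (j : ℕ)) (1 : ℂ) := by
    rw [Finsupp.smul_single, smul_eq_mul, mul_one]
  rw [h1, map_smul, map_smul, map_smul, smul_eq_mul, mul_comm]

/-- Telescoping: average of `ev_k (A y_k)` over the linking block. -/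
theorem lam_sub_le (n : ℕ) (A : D.fam.X →L[ℂ] D.fam.X) (hA : ‖A‖ ≤ 1) :
    ‖D.lam n A - D.lam (n + 1) A‖ ≤ 3 / D.a n := by
  have : Nonempty (Fin (D.L n)) := ⟨⟨0, D.hL n⟩⟩
  have : Nonempty (Fin (D.N n)) := ⟨⟨0, D.hN n⟩⟩
  have : Nonempty (Fin (D.N (n + 1))) := ⟨⟨0, D.hN (n + 1)⟩⟩
  have ha := D.a_pos n
  set E : (m j m' j' : ℕ) → ℂ := fun m j m' j' =>
    D.fam.coord (m, j) (A (D.fam.J (Finsupp.single (m', j') 1))) with hE
  have hE1 : ∀ m j m' j', j' < D.N m' → ‖E m j m' j'‖ ≤ 1 := by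
    intro m j m' j' hj'
    calc ‖E m j m' j'‖ ≤ ‖A (D.fam.J (Finsupp.single (m', j') 1))‖ := D.fam.norm_coord_le _ _
      _ ≤ ‖A‖ * ‖D.fam.J (Finsupp.single (m', j') 1)‖ := A.le_opNorm _
      _ ≤ 1 * 1 := by gcongr; exact D.norm_single_le m' j' hj'
      _ = 1 := one_mul 1
  set f : Fin (D.L n) → Fin (D.N n) → ℝ := fun k j => D.v n k j / √(D.N n) with hf
  set g : Fin (D.L n) → Fin (D.N (n + 1)) → ℝ := fun k j => D.z n k j / √(D.N (n + 1)) with hg
  have hsq : ∀ t : ℝ, t = 1 ∨ t = -1 → t ^ 2 = 1 := by rintro t (rfl | rfl) <;> norm_num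
  have key := HUN.avg_link (K := Fin (D.L n)) (J₁ := Fin (D.N n)) (J₂ := Fin (D.N (n + 1)))
    (fun k j => D.v n k j) (fun k j => D.z n k j) (fun k i => hsq _ (D.sv n k i))
    (fun k j => hsq _ (D.sz n k j)) (D.hτl0 n)
    (fun i j hij => by
      simpa using D.colv n i j i.2 j.2 (fun h => hij (Fin.ext h)))
    (fun i j hij => by
      simpa using D.colz n i j i.2 j.2 (fun h => hij (Fin.ext h)))
    (fun i j => by simpa using D.colvz n i j i.2 j.2)
    (fun i j => E n i n j) (fun i j => E n i (n + 1) j) (fun i j => E (n + 1) i n j)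
    (fun i j => E (n + 1) i (n + 1) j) (fun i j => hE1 _ _ _ _ j.2) (fun i j => hE1 _ _ _ _ j.2)
    (fun i j => hE1 _ _ _ _ j.2) (fun i j => hE1 _ _ _ _ j.2) f g
    (fun k i => by simp [hf]) (fun k j => by simp [hg])
  simp only [Fintype.card_fin] at key
  have hev : ∀ k : Fin (D.L n),
      ((∑ i : Fin (D.N n), ∑ j : Fin (D.N n), (f k i : ℂ) * E n i n j * (f k j : ℂ)) -
          (∑ i : Fin (D.N n), ∑ j : Fin (D.N (n + 1)),
            (f k i : ℂ) * E n i (n + 1) j * (g k j : ℂ)) +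
          (∑ i : Fin (D.N (n + 1)), ∑ j : Fin (D.N n),
            (g k i : ℂ) * E (n + 1) i n j * (f k j : ℂ)) -
          (∑ i : Fin (D.N (n + 1)), ∑ j : Fin (D.N (n + 1)),
            (g k i : ℂ) * E (n + 1) i (n + 1) j * (g k j : ℂ))) =
      D.fam.evX (Sum.inr (n, (k : ℕ))) (A (D.fam.J (D.yv n k))) := by
    intro k
    rw [D.evX_link n k k.2]
    have h1 : ∀ p, D.fam.coord p (A (D.fam.J (D.yv n k))) =
        (∑ j : Fin (D.N n), D.fam.coord p (A (D.fam.J (Finsupp.single (n, (j : ℕ)) 1))) *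
          ((f k j / D.a n : ℝ) : ℂ)) -
        ∑ j : Fin (D.N (n + 1)), D.fam.coord p (A (D.fam.J (Finsupp.single (n + 1, (j : ℕ)) 1))) *
          ((g k j / D.a n : ℝ) : ℂ) := by
      intro p
      unfold yv
      rw [map_sub, map_sub, map_sub, D.coord_vec, D.coord_vec]
      congr 1
      · refine Finset.sum_congr rfl fun j _ => ?_
        rw [hf]
        push_cast
        congr 1
        rw [div_div]
      · refine Finset.sum_congr rfl fun j _ => ?_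
        rw [hg]
        push_cast
        congr 1
        rw [div_div]
    have ca : (D.a n : ℂ) ≠ 0 := by exact_mod_cast ha.ne'
    simp only [h1]
    simp only [mul_sub, Finset.sum_sub_distrib, mul_add, Finset.mul_sum]
    have r : ∀ (s t : ℝ) (x : ℂ), (D.a n : ℂ) * ((s : ℂ) * (x * ((t / D.a n : ℝ) : ℂ))) =
        (s : ℂ) * x * (t : ℂ) := by
      intro s t x
      push_cast
      field_simp
    simp only [hf, hg] at r ⊢
    simp only [r]
    simp only [hE]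
    ring
  have hb : ∀ k : Fin (D.L n), ‖D.fam.evX (Sum.inr (n, (k : ℕ))) (A (D.fam.J (D.yv n k)))‖ ≤
      2 / D.a n := by
    intro k
    calc _ ≤ ‖A (D.fam.J (D.yv n k))‖ := D.fam.norm_evX_le _ _
      _ ≤ ‖A‖ * ‖D.fam.J (D.yv n k)‖ := A.le_opNorm _
      _ ≤ 1 * (2 / D.a n) := by gcongr; exact D.norm_yv_le n k k.2
      _ = _ := one_mul _
  simp only [hev] at key
  have hL : 0 < (D.L n : ℝ) := by exact_mod_cast D.hL n
  have havg : ‖(∑ k : Fin (D.L n), D.fam.evX (Sum.inr (n, (k : ℕ))) (A (D.fam.J (D.yv n k)))) /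
      (D.L n : ℂ)‖ ≤ 2 / D.a n := by
    rw [norm_div, Complex.norm_natCast, div_le_iff₀ hL]
    refine (norm_sum_le_of_le _ fun k _ => hb k).trans (le_of_eq ?_)
    simp [mul_comm]
  have hN1 : (D.N n : ℝ) ≤ D.N (n + 1) := by exact_mod_cast D.hNN n
  have hs1 : √(D.N n : ℝ) ≤ √(D.N (n + 1) : ℝ) := Real.sqrt_le_sqrt hN1
  have hτ : D.τl n * (√(D.N n : ℝ) + √(D.N (n + 1) : ℝ)) ^ 2 ≤ 1 / D.a n := by
    have h1 : (√(D.N n : ℝ) + √(D.N (n + 1) : ℝ)) ^ 2 ≤ 4 * D.N (n + 1) := by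
      have h2 : √(D.N (n + 1) : ℝ) ^ 2 = D.N (n + 1) := Real.sq_sqrt (Nat.cast_nonneg _)
      have h3 : (√(D.N n : ℝ) + √(D.N (n + 1) : ℝ)) ^ 2 ≤
          (√(D.N (n + 1) : ℝ) + √(D.N (n + 1) : ℝ)) ^ 2 := by gcongr
      nlinarith
    have h4 := D.hτl n
    have h5 := mul_le_mul_of_nonneg_left h1 (D.hτl0 n)
    have h6 : 1 / D.a n = 4 * (1 / (4 * D.a n)) := by field_simp
    rw [h6]
    nlinarith
  have hlam : (∑ i : Fin (D.N n), E n i n i) / (D.N n : ℂ) -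
      (∑ i : Fin (D.N (n + 1)), E (n + 1) i (n + 1) i) / (D.N (n + 1) : ℂ) =
      D.lam n A - D.lam (n + 1) A := rfl
  rw [hlam] at key
  set P := (∑ k : Fin (D.L n), D.fam.evX (Sum.inr (n, (k : ℕ))) (A (D.fam.J (D.yv n k)))) /
      (D.L n : ℂ) with hP
  have h7 : D.lam n A - D.lam (n + 1) A = P - (P - (D.lam n A - D.lam (n + 1) A)) := by ring
  have h8 : (3 : ℝ) / D.a n = 2 / D.a n + 1 / D.a n := by ring
  rw [h7, h8]
  exact (norm_sub_le _ _).trans (add_le_add havg (key.trans hτ))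

/-- `λ_n(A) → 0` for compact `A`, so `|λ_n(A)| ≤ ∑_{m ≥ n} 3 / a_m ≤ 6 / a_n`. -/
theorem lam_compact_le (n : ℕ) (A : D.fam.X →L[ℂ] D.fam.X) (hA : ‖A‖ ≤ 1)
    (hc : IsCompactOperator A) : ‖D.lam n A‖ ≤ 6 / D.a n := by
  refine HUN.tele_bound (lam := fun n => D.lam n A) (fun n => D.a_pos n) D.ha2
    (fun n => D.lam_sub_le n A hA) ?_ n
  rw [Metric.tendsto_atTop]
  intro ε hε
  have hfin := D.fam.compact_diag A hc (half_pos hε)
  obtain ⟨m₀, hm₀⟩ := (hfin.image Prod.fst).bddAbove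
  refine ⟨m₀ + 1, fun m hm => ?_⟩
  rw [dist_zero_right]
  have h1 : ∀ j : Fin (D.N m),
      ‖D.fam.coord (m, (j : ℕ)) (A (D.fam.J (Finsupp.single (m, (j : ℕ)) 1)))‖ ≤ ε / 2 := by
    intro j
    by_contra hcon
    push Not at hcon
    have h2 : m ≤ m₀ := hm₀ ⟨(m, (j : ℕ)), ⟨D.norm_single_le m j j.2, hcon.le⟩, rfl⟩
    omega
  have hN := D.N_pos m
  have h3 : ‖D.lam m A‖ ≤ ε / 2 := by
    show ‖(∑ j : Fin (D.N m), D.fam.coord (m, (j : ℕ))
      (A (D.fam.J (Finsupp.single (m, (j : ℕ)) 1)))) / (D.N m : ℂ)‖ ≤ ε / 2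
    rw [norm_div, Complex.norm_natCast, div_le_iff₀ hN]
    refine (norm_sum_le_of_le _ fun k _ => h1 k).trans (le_of_eq ?_)
    simp [mul_comm]
  linarith

end Chain

end HUC
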